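import Mathlib

namespace Pool.Agent.P.MP_c18ee8_co

/-- The least size of a finite set of integers that contains, for each d = 1, ..., n, a
three-term arithmetic progression with common difference d. -/
noncomputable def kakeya3 (n : ℕ) : ℕ :=
  sInf {k : ℕ | ∃ A : Finset ℤ, A.card = k ∧
    ∀ d : ℕ, 1 ≤ d → d ≤ n → ∃ x : ℤ, x ∈ A ∧ x + d ∈ A ∧ x + 2 * d ∈ A}

end Pool.Agent.P.MP_c18ee8_co
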