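import Pool.Agent.P.MP_c18ee8_co.Lines

namespace Pool.Agent.P.MP_c18ee8_co

open Finset

/-- a two-colouring of the lines, by residue modulo 12 -/
def col (j : Fin 4) (z : ℤ) : Bool :=
  decide (z % 12 ∈ (![[0, 1, 2, 3, 5, 7], [2, 3, 6, 7, 10, 11], [0, 2, 3, 4, 5, 11],
    [0, 2, 6, 7, 9, 11]] j : List ℤ))

theorem gadget : ∀ k : Fin 4, ∀ ρ : Fin 12, ∀ i : Bool, ∃ a b : Fin 12,
    phi k (((a : ℕ) : ℤ), ((b : ℕ) : ℤ)) % 12 = ((ρ : ℕ) : ℤ) ∧
      ∀ j, j ≠ k → col j (phi j (((a : ℕ) : ℤ), ((b : ℕ) : ℤ))) = i := by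
  decide +kernel

theorem col_congr (j : Fin 4) (x y a b : ℤ) (hx : x % 12 = a % 12) (hy : y % 12 = b % 12) :
    col j (phi j (x, y)) = col j (phi j (a, b)) := by
  have : phi j (x, y) % 12 = phi j (a, b) % 12 := by
    fin_cases j <;> simp [phi] <;> omega
  unfold col
  rw [this]

theorem irr_of_lines {n : ℕ} (J : Finset (Fin 4 × ℤ)) (B : Finset ℤ) (hJ : ∀ l ∈ J, l.2 ∉ B)
    (h : ∀ l ∈ J, ∀ i : Bool, ∃ p : Fin n × Fin n, phi l.1 (emb p) = l.2 ∧
      ∀ j, j ≠ l.1 → phi j (emb p) ∈ B ∧ col j (phi j (emb p)) = i) :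
    J.card ≤ upperIR (queensGraph n) := by
  classical
  choose f hf using h
  have key : ∀ l (hl : l ∈ J) l' (hl' : l' ∈ J) i i' j,
      phi j (emb (f l hl i)) = phi j (emb (f l' hl' i')) →
        l = l' ∨ (i = i' ∧ j ≠ l.1) := by
    intro l hl l' hl' i i' j he
    by_cases h1 : j = l.1
    · by_cases h2 : j = l'.1
      · left
        apply Prod.ext (h1.symm.trans h2)
        rw [← (hf l hl i).1, ← (hf l' hl' i').1, ← h1, ← h2, he]
      · exfalso
        apply hJ l hl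
        rw [← (hf l hl i).1, ← h1, he]
        exact ((hf l' hl' i').2 j h2).1
    · by_cases h2 : j = l'.1
      · exfalso
        apply hJ l' hl'
        rw [← (hf l' hl' i').1, ← h2, ← he]
        exact ((hf l hl i).2 j h1).1
      · right
        refine ⟨?_, h1⟩
        rw [← ((hf l hl i).2 j h1).2, ← ((hf l' hl' i').2 j h2).2, he]
  let S : Finset (Fin n × Fin n) := J.attach.image fun l => f l.1 l.2 true
  have hc : S.card = J.card := by
    rw [card_image_of_injective, card_attach]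
    intro l l' he
    simp only at he
    rcases key l.1 l.2 l'.1 l'.2 true true l.1.1 (by rw [he]) with h | h
    · exact Subtype.ext h
    · exact absurd rfl h.2
  rw [← hc]
  apply le_IR
  intro v hv
  obtain ⟨l, -, rfl⟩ := mem_image.1 hv
  refine ⟨f l.1 l.2 false, (mem_closed _ _).2 ⟨l.1.1, ?_⟩, ?_⟩
  · rw [(hf l.1 l.2 true).1, (hf l.1 l.2 false).1]
  · intro u hu hne hw
    obtain ⟨l', -, rfl⟩ := mem_image.1 hu
    obtain ⟨j, hj⟩ := (mem_closed _ _).1 hw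
    rcases key l'.1 l'.2 l.1 l.2 true false j hj with h | h
    · exact hne (by rw [Subtype.ext h])
    · exact absurd h.1 (by simp)

/-- integers near a small multiple of an element of B0, up to reflections of the board -/
def Near (B0 : Finset ℤ) (n : ℕ) (z : ℤ) : Prop :=
  ∃ b ∈ B0, ∃ σ τ c : ℤ, -2 ≤ σ ∧ σ ≤ 2 ∧ -2 ≤ τ ∧ τ ≤ 2 ∧ -36 ≤ c ∧ c ≤ 36 ∧
    z = 12 * σ * b + τ * (n - 1) + c

theorem near_finset (B0 : Finset ℤ) (n : ℕ) :
    ∃ B : Finset ℤ, B.card ≤ 1825 * B0.card ∧ ∀ z, Near B0 n z → z ∈ B := by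
  refine ⟨((Icc (-2 : ℤ) 2 ×ˢ Icc (-2 : ℤ) 2 ×ˢ Icc (-36 : ℤ) 36) ×ˢ B0).image
    fun q => 12 * q.1.1 * q.2 + q.1.2.1 * (n - 1) + q.1.2.2, ?_, ?_⟩
  · refine card_image_le.trans ?_
    simp [card_product]
  · rintro z ⟨b, hb, σ, τ, c, h1, h2, h3, h4, h5, h6, rfl⟩
    exact mem_image.2 ⟨((σ, τ, c), b), by simp [*], rfl⟩

section pts

variable {n : ℕ} (u : ℕ → ℕ) (hu : ∀ e, u e ≤ e) (B0 : Finset ℤ)
  (hB : ∀ e, e < n → (u e : ℤ) ∈ B0 ∧ (e + u e : ℤ) ∈ B0 ∧ (e - u e : ℤ) ∈ B0)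

include hu hB in
theorem corner (t g : ℤ) (h1 : 12 ≤ t) (h2 : t ≤ n - 1) :
    ∃ x y b1 b2 b3 : ℤ, b1 ∈ B0 ∧ b2 ∈ B0 ∧ b3 ∈ B0 ∧ 0 ≤ x ∧ 0 ≤ y ∧ x + y = t ∧
      x % 12 = g % 12 ∧ 0 ≤ x - 12 * b1 ∧ x - 12 * b1 ≤ 36 ∧ 0 ≤ y - 12 * b2 ∧
      y - 12 * b2 ≤ 36 ∧ -36 ≤ x - y - 24 * b3 ∧ x - y - 24 * b3 ≤ 36 := by
  obtain ⟨s, hs⟩ : ∃ s : ℕ, (s : ℤ) = (t - 12) / 24 := ⟨((t - 12) / 24).toNat, by omega⟩
  obtain ⟨a1, a2, a3⟩ := hB s (by omega)
  have := hu s
  refine ⟨12 * (s + u s) + g % 12, t - (12 * (s + u s) + g % 12), _, _, _, a2, a3, a1, ?_⟩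
  omega

include hu hB in
theorem side (t g : ℤ) (h1 : 0 ≤ t) (h2 : t < n - 12) :
    ∃ x b1 b2 b3 : ℤ, b1 ∈ B0 ∧ b2 ∈ B0 ∧ b3 ∈ B0 ∧ 0 ≤ x ∧ x < n ∧
      x % 12 = g % 12 ∧ 0 ≤ x - 12 * b1 ∧ x - 12 * b1 ≤ 36 ∧ -36 ≤ t - x - 12 * b2 ∧
      t - x - 12 * b2 ≤ 36 ∧ 0 ≤ t + x - 12 * b3 ∧ t + x - 12 * b3 ≤ 36 := by
  obtain ⟨s, hs⟩ : ∃ s : ℕ, (s : ℤ) = t / 12 := ⟨(t / 12).toNat, by omega⟩
  obtain ⟨a1, a2, a3⟩ := hB s (by omega)
  have := hu s
  refine ⟨12 * (u s) + g % 12, _, _, _, a1, a3, a2, ?_⟩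
  omega

/-- the lines that get a queen, before removing the used ones -/
noncomputable def good (n : ℕ) (k : Fin 4) : Finset ℤ :=
  ![Ico 0 ((n : ℤ) - 12), Ico 0 ((n : ℤ) - 12), Icc (13 - (n : ℤ)) (n - 13),
    Icc 12 (2 * (n : ℤ) - 14)] k

include hu hB in
theorem points (k : Fin 4) (t : ℤ) (ht : t ∈ good n k) (α β : ℤ)
    (hαβ : phi k (α, β) % 12 = t % 12) :
    ∃ x y : ℤ, 0 ≤ x ∧ x < n ∧ 0 ≤ y ∧ y < n ∧ phi k (x, y) = t ∧ x % 12 = α % 12 ∧
      y % 12 = β % 12 ∧ ∀ j, j ≠ k → Near B0 n (phi j (x, y)) := by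
  fin_cases k
  · simp [good, phi] at ht hαβ
    obtain ⟨x, b1, b2, b3, m1, m2, m3, h⟩ := side u hu B0 hB t β ht.1 ht.2
    refine ⟨t, x, by omega, by omega, by omega, by omega, by simp [phi], by omega, by omega, ?_⟩
    intro j hj
    fin_cases j
    · exact absurd rfl hj
    · exact ⟨b1, m1, 1, 0, x - 12 * b1, by simp [phi]; omega⟩
    · exact ⟨b2, m2, 1, 0, t - x - 12 * b2, by simp [phi]; omega⟩
    · exact ⟨b3, m3, 1, 0, t + x - 12 * b3, by simp [phi]; omega⟩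
  · simp [good, phi] at ht hαβ
    obtain ⟨x, b1, b2, b3, m1, m2, m3, h⟩ := side u hu B0 hB t α ht.1 ht.2
    refine ⟨x, t, by omega, by omega, by omega, by omega, by simp [phi], by omega, by omega, ?_⟩
    intro j hj
    fin_cases j
    · exact ⟨b1, m1, 1, 0, x - 12 * b1, by simp [phi]; omega⟩
    · exact absurd rfl hj
    · exact ⟨b2, m2, -1, 0, -(t - x - 12 * b2), by simp [phi]; omega⟩
    · exact ⟨b3, m3, 1, 0, t + x - 12 * b3, by simp [phi]; omega⟩
  · simp [good, phi] at ht hαβ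
    by_cases hc : t ≤ 0
    · obtain ⟨x, y, b1, b2, b3, m1, m2, m3, h⟩ :=
        corner u hu B0 hB (t + n - 1) α (by omega) (by omega)
      refine ⟨x, n - 1 - y, by omega, by omega, by omega, by omega, by simp [phi]; omega,
        by omega, by omega, ?_⟩
      intro j hj
      fin_cases j
      · exact ⟨b1, m1, 1, 0, x - 12 * b1, by simp [phi]; omega⟩
      · exact ⟨b2, m2, -1, 1, -(y - 12 * b2), by simp [phi]; omega⟩
      · exact absurd rfl hj
      · exact ⟨b3, m3, 2, 1, x - y - 24 * b3, by simp [phi]; omega⟩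
    · obtain ⟨x, y, b1, b2, b3, m1, m2, m3, h⟩ :=
        corner u hu B0 hB (n - 1 - t) (n - 1 - α) (by omega) (by omega)
      refine ⟨n - 1 - x, y, by omega, by omega, by omega, by omega, by simp [phi]; omega,
        by omega, by omega, ?_⟩
      intro j hj
      fin_cases j
      · exact ⟨b1, m1, -1, 1, -(x - 12 * b1), by simp [phi]; omega⟩
      · exact ⟨b2, m2, 1, 0, y - 12 * b2, by simp [phi]; omega⟩
      · exact absurd rfl hj
      · exact ⟨b3, m3, -2, 1, -(x - y - 24 * b3), by simp [phi]; omega⟩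
  · simp [good, phi] at ht hαβ
    by_cases hc : t ≤ n - 1
    · obtain ⟨x, y, b1, b2, b3, m1, m2, m3, h⟩ :=
        corner u hu B0 hB t α (by omega) (by omega)
      refine ⟨x, y, by omega, by omega, by omega, by omega, by simp [phi]; omega,
        by omega, by omega, ?_⟩
      intro j hj
      fin_cases j
      · exact ⟨b1, m1, 1, 0, x - 12 * b1, by simp [phi]; omega⟩
      · exact ⟨b2, m2, 1, 0, y - 12 * b2, by simp [phi]; omega⟩
      · exact ⟨b3, m3, 2, 0, x - y - 24 * b3, by simp [phi]; omega⟩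
      · exact absurd rfl hj
    · obtain ⟨x, y, b1, b2, b3, m1, m2, m3, h⟩ :=
        corner u hu B0 hB (2 * n - 2 - t) (n - 1 - α) (by omega) (by omega)
      refine ⟨n - 1 - x, n - 1 - y, by omega, by omega, by omega, by omega,
        by simp [phi]; omega, by omega, by omega, ?_⟩
      intro j hj
      fin_cases j
      · exact ⟨b1, m1, -1, 1, -(x - 12 * b1), by simp [phi]; omega⟩
      · exact ⟨b2, m2, -1, 1, -(y - 12 * b2), by simp [phi]; omega⟩
      · exact ⟨b3, m3, -2, 0, -(x - y - 24 * b3), by simp [phi]; omega⟩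
      · exact absurd rfl hj

include hu hB in
theorem board_lower : 6 * n ≤ upperIR (queensGraph n) + 7300 * B0.card + 74 := by
  classical
  obtain ⟨B, hBc, hBm⟩ := near_finset B0 n
  let J : Finset (Fin 4 × ℤ) := univ.biUnion fun k => (good n k \ B).image fun t => (k, t)
  have hJm : ∀ l ∈ J, l.2 ∈ good n l.1 ∧ l.2 ∉ B := by
    intro l hl
    obtain ⟨k, -, hk⟩ := mem_biUnion.1 hl
    obtain ⟨t, ht, rfl⟩ := mem_image.1 hk
    exact mem_sdiff.1 ht
  have hJc : J.card = ∑ k, (good n k \ B).card := by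
    rw [card_biUnion]
    · apply sum_congr rfl
      intro k _
      apply card_image_of_injective
      intro a b h
      exact (Prod.ext_iff.1 h).2
    · intro k _ k' _ hne
      simp only [Function.onFun]
      rw [disjoint_left]
      intro l h1 h2
      obtain ⟨t, -, rfl⟩ := mem_image.1 h1
      obtain ⟨t', -, h⟩ := mem_image.1 h2
      exact hne (Prod.ext_iff.1 h).1.symm
  have hle := irr_of_lines (n := n) J B (fun l hl => (hJm l hl).2) (by
    intro l hl i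
    obtain ⟨a, b, h1, h2⟩ := gadget l.1 ⟨(l.2 % 12).toNat, by omega⟩ i
    obtain ⟨x, y, x0, x1, y0, y1, h3, h4, h5, h6⟩ := points u hu B0 hB l.1 l.2 (hJm l hl).1
      _ _ (by rw [h1]; simp only; omega)
    have he : emb ((⟨x.toNat, by omega⟩, ⟨y.toNat, by omega⟩) : Fin n × Fin n) = (x, y) := by
      simp only [emb, Prod.mk.injEq]; omega
    refine ⟨(⟨x.toNat, by omega⟩, ⟨y.toNat, by omega⟩), by rw [he]; exact h3, ?_⟩
    intro j hj
    rw [he]
    exact ⟨hBm _ (h6 j hj), by rw [col_congr j x y _ _ h4 h5]; exact h2 j hj⟩)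
  have hs : ∀ k, (good n k).card ≤ (good n k \ B).card + B.card := fun k =>
    card_le_card_sdiff_add_card
  have h0 := hs 0
  have h1 := hs 1
  have h2 := hs 2
  have h3 := hs 3
  have g0 : (good n 0).card = ((n : ℤ) - 12).toNat := by simp [good]
  have g1 : (good n 1).card = ((n : ℤ) - 12).toNat := by simp [good]
  have g2 : (good n 2).card = ((n : ℤ) - 13 + 1 - (13 - n)).toNat := by simp [good]
  have g3 : (good n 3).card = (2 * (n : ℤ) - 14 + 1 - 12).toNat := by simp [good]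
  rw [Fin.sum_univ_four] at hJc
  omega

end pts

end Pool.Agent.P.MP_c18ee8_co
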