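import Pool.Agent.P.MP_c18ee8_co.Digits

namespace Pool.Agent.P.MP_c18ee8_co

open Finset

theorem cover_step {H : Type*} [AddCommGroup H] [Fintype H] [DecidableEq H] (D U : Finset H)
    (hD : Fintype.card H ≤ 8 * D.card) :
    ∃ s : H, 8 * (U.filter fun e => e - s ∉ D).card ≤ 7 * U.card := by
  have hsum : ∑ s : H, (U.filter fun e => e - s ∈ D).card = U.card * D.card := by
    simp only [card_filter]
    rw [sum_comm]
    have : ∀ e ∈ U, (∑ s : H, if e - s ∈ D then 1 else 0) = D.card := by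
      intro e _
      rw [← card_filter]
      apply card_nbij' (fun s => e - s) (fun s => e - s)
      · intro s hs; simpa using hs
      · intro s hs; simpa using hs
      · intro s _; simp
      · intro s _; simp
    rw [sum_congr rfl this, sum_const, smul_eq_mul]
  have : ∃ s ∈ (univ : Finset H), U.card ≤ 8 * (U.filter fun e => e - s ∈ D).card := by
    apply exists_le_of_sum_le univ_nonempty
    rw [← mul_sum, hsum, sum_const, smul_eq_mul, card_univ]
    calc Fintype.card H * U.card ≤ 8 * D.card * U.card := Nat.mul_le_mul_right _ hD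
      _ = _ := by ring
  obtain ⟨s, -, hs⟩ := this
  refine ⟨s, ?_⟩
  have := card_filter_add_card_filter_not (s := U) (fun e => e - s ∈ D)
  omega

theorem cover_iter {H : Type*} [AddCommGroup H] [Fintype H] [DecidableEq H] (D : Finset H)
    (hD : Fintype.card H ≤ 8 * D.card) (j : ℕ) :
    ∃ T : Finset H, T.card ≤ j ∧
      8 ^ j * (univ.filter fun e => ∀ s ∈ T, e - s ∉ D).card ≤ 7 ^ j * Fintype.card H := by
  induction j with
  | zero => exact ⟨∅, le_rfl, by simp⟩
  | succ j ih =>
    obtain ⟨T, h1, h2⟩ := ih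
    obtain ⟨s, hs⟩ := cover_step D (univ.filter fun e => ∀ s ∈ T, e - s ∉ D) hD
    refine ⟨insert s T, (card_insert_le _ _).trans (by omega), ?_⟩
    have e : (univ.filter fun e => ∀ s' ∈ insert s T, e - s' ∉ D) =
        (univ.filter fun e => ∀ s ∈ T, e - s ∉ D).filter fun e => e - s ∉ D := by
      ext e; simp [and_comm]
    rw [e]
    calc 8 ^ (j + 1) * _ = 8 ^ j * (8 * _) := by ring
      _ ≤ 8 ^ j * (7 * _) := Nat.mul_le_mul_left _ hs
      _ = 7 * (8 ^ j * _) := by ring
      _ ≤ 7 * (7 ^ j * Fintype.card H) := Nat.mul_le_mul_left _ h2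
      _ = _ := by ring

theorem cover_all {H : Type*} [AddCommGroup H] [Fintype H] [DecidableEq H] (D : Finset H)
    (hD : Fintype.card H ≤ 8 * D.card) (j : ℕ) (hj : 7 ^ j * Fintype.card H < 8 ^ j) :
    ∃ T : Finset H, T.card ≤ j ∧ ∀ e, ∃ s ∈ T, e - s ∈ D := by
  obtain ⟨T, h1, h2⟩ := cover_iter D hD j
  refine ⟨T, h1, fun e => ?_⟩
  by_contra hc
  push Not at hc
  have : 1 ≤ (univ.filter fun e => ∀ s ∈ T, e - s ∉ D).card :=
    card_pos.2 ⟨e, by simpa using hc⟩
  have := Nat.mul_le_mul_left (8 ^ j) this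
  omega

/-- the linear functional with coefficient vector r -/
def lin {κ : Type*} [Fintype κ] {p : ℕ} (r : κ → ZMod p) (v : κ → ℤ) : ZMod p :=
  ∑ i, r i * (v i : ZMod p)

theorem lin_add {κ : Type*} [Fintype κ] {p : ℕ} (r : κ → ZMod p) (v w : κ → ℤ) :
    lin r (v + w) = lin r v + lin r w := by
  simp [lin, mul_add, sum_add_distrib]

theorem lin_sub {κ : Type*} [Fintype κ] {p : ℕ} (r : κ → ZMod p) (v w : κ → ℤ) :
    lin r (v - w) = lin r v - lin r w := by
  simp [lin, mul_sub, sum_sub_distrib]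

theorem card_ker {κ : Type*} [Fintype κ] [DecidableEq κ] {p : ℕ} [Fact p.Prime] (v : κ → ℤ)
    (i : κ) (hi : (v i : ZMod p) ≠ 0) :
    (univ.filter fun r : κ → ZMod p => lin r v = 0).card * p = Fintype.card (κ → ZMod p) := by
  let f : (κ → ZMod p) →+ ZMod p :=
    { toFun := fun r => lin r v
      map_zero' := by simp [lin]
      map_add' := fun r s => by simp [lin, add_mul, sum_add_distrib] }
  have hsurj : ∀ c, c ∈ Set.range f := by
    intro c
    refine ⟨Pi.single i (c / v i), ?_⟩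
    simp only [f, AddMonoidHom.coe_mk, ZeroHom.coe_mk, lin]
    rw [sum_eq_single i]
    · simp [div_mul_cancel₀ _ hi]
    · intro j _ hj; simp [hj]
    · simp
  have h1 : (univ : Finset (κ → ZMod p)).card =
      ∑ c : ZMod p, (univ.filter fun r => f r = c).card :=
    card_eq_sum_card_fiberwise (fun _ _ => mem_univ _)
  have h2 : ∀ c ∈ (univ : Finset (ZMod p)), (univ.filter fun r => f r = c).card =
      (univ.filter fun r => f r = 0).card := fun c _ =>
    AddMonoidHom.card_fiber_eq_of_mem_range f (hsurj c) (hsurj 0)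
  rw [sum_congr rfl h2, sum_const, card_univ, card_univ, ZMod.card, smul_eq_mul] at h1
  rw [h1, mul_comm]
  rfl

theorem exists_projection {ι κ : Type*} [DecidableEq ι] [Fintype κ] [DecidableEq κ] {p : ℕ}
    [Fact p.Prime] (T : Finset ι) (d : ι → κ → ℤ)
    (hinj : ∀ s ∈ T, ∀ t ∈ T, d s = d t → s = t)
    (hsm : ∀ s ∈ T, ∀ t ∈ T, ∀ i, |d s i - d t i| < p) (hT : 2 * T.card ≤ p) :
    ∃ r : κ → ZMod p, T.card ≤ 2 * (T.image fun s => lin r (d s)).card := by
  have hp : 0 < p := (Fact.out : p.Prime).pos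
  let coll : (κ → ZMod p) → Finset (ι × ι) := fun r =>
    T.offDiag.filter fun q => lin r (d q.1 - d q.2) = 0
  have hsum : (∑ r, (coll r).card) * p = T.offDiag.card * Fintype.card (κ → ZMod p) := by
    simp only [coll, card_filter]
    rw [sum_comm, sum_mul, ← smul_eq_mul, ← sum_const]
    apply sum_congr rfl
    intro q hq
    rw [← card_filter]
    obtain ⟨h1, h2, h3⟩ := mem_offDiag.1 hq
    have hne : d q.1 ≠ d q.2 := fun h => h3 (hinj _ h1 _ h2 h)
    obtain ⟨i, hi⟩ := Function.ne_iff.1 hne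
    apply card_ker _ i
    rw [Ne, ZMod.intCast_zmod_eq_zero_iff_dvd]
    intro hdvd
    have := Int.eq_zero_of_abs_lt_dvd hdvd (hsm _ h1 _ h2 i)
    exact hi (sub_eq_zero.1 this)
  have : ∃ r ∈ (univ : Finset (κ → ZMod p)), 2 * (coll r).card ≤ T.card := by
    apply exists_le_of_sum_le univ_nonempty
    rw [← mul_sum, sum_const, card_univ, smul_eq_mul]
    apply Nat.le_of_mul_le_mul_right _ hp
    rw [mul_assoc, hsum, offDiag_card]
    calc 2 * ((T.card * T.card - T.card) * Fintype.card (κ → ZMod p))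
        ≤ 2 * ((T.card * T.card) * Fintype.card (κ → ZMod p)) := by
          gcongr; exact Nat.sub_le _ _
      _ = Fintype.card (κ → ZMod p) * T.card * (2 * T.card) := by ring
      _ ≤ _ := Nat.mul_le_mul_left _ hT
  obtain ⟨r, -, hr⟩ := this
  refine ⟨r, ?_⟩
  let T' := T \ (coll r).image Prod.fst
  have h1 : T.card ≤ T'.card + (coll r).card :=
    card_le_card_sdiff_add_card.trans (Nat.add_le_add_left card_image_le _)
  have h2 : T'.card ≤ (T.image fun s => lin r (d s)).card := by
    apply card_le_card_of_injOn (fun s => lin r (d s))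
    · intro s hs
      exact mem_coe.2 (mem_image_of_mem (fun s => lin r (d s)) (mem_sdiff.1 hs).1)
    · intro s hs t ht he
      by_contra hne
      apply (mem_sdiff.1 hs).2
      refine mem_image.2 ⟨(s, t), mem_filter.2 ⟨mem_offDiag.2
        ⟨(mem_sdiff.1 hs).1, (mem_sdiff.1 ht).1, hne⟩, ?_⟩, rfl⟩
      rw [lin_sub]
      exact sub_eq_zero.2 he
  omega

theorem digit_of_config {ι κ : Type*} [DecidableEq ι] [Fintype κ] [DecidableEq κ] {p : ℕ}
    [Fact p.Prime] (T : Finset ι) (a b : ι → κ → ℤ) (m τ : ℕ)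
    (hinj : ∀ s ∈ T, ∀ t ∈ T, a s - b s = a t - b t → s = t)
    (hsm : ∀ s ∈ T, ∀ t ∈ T, ∀ i, |(a s - b s) i - (a t - b t) i| < p)
    (hT : 2 * T.card ≤ p) (hT' : p ≤ 4 * T.card)
    (ha : (T.image a).card ≤ m) (hb : (T.image b).card ≤ m)
    (hab : (T.image fun s => a s + b s).card ≤ m) (hτ1 : 1 ≤ τ) (hτ : 7 ^ τ * p < 8 ^ τ) :
    ∃ (u0 : ℕ → ℕ) (X : Finset ℤ), (∀ r, u0 r < p) ∧ X.card ≤ 9 * m * τ ∧
      ∀ r, r < p → (u0 r : ℤ) ∈ X ∧ (r + u0 r : ℤ) ∈ X ∧ (r - u0 r : ℤ) ∈ X := by
  have hp : 0 < p := (Fact.out : p.Prime).pos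
  have : NeZero p := ⟨hp.ne'⟩
  obtain ⟨r, hr⟩ := exists_projection (p := p) T (fun s => a s - b s) hinj hsm hT
  obtain ⟨S, hS, hcov⟩ := cover_all (T.image fun s => lin r (a s - b s))
    (by rw [ZMod.card]; omega) τ (by rw [ZMod.card]; exact hτ)
  have h1 : ∀ e : ZMod p, ∃ w ∈ T, ∃ s ∈ S, e = lin r (a w) - lin r (b w) + s := by
    intro e
    obtain ⟨s, hs, he⟩ := hcov e
    obtain ⟨w, hw, he'⟩ := mem_image.1 he
    refine ⟨w, hw, s, hs, ?_⟩
    rw [← lin_sub, he']; ring
  choose w hw s hs he using h1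
  let Z : Finset (ZMod p) := ((T.image fun s => a s + b s).image (lin r)) ∪
    (((T.image a) ×ˢ S).image fun q => 2 * lin r q.1 + q.2) ∪
    (((T.image b) ×ˢ S).image fun q => -2 * lin r q.1 + q.2)
  have hZ : Z.card ≤ 3 * m * τ := by
    have c1 : ((T.image fun s => a s + b s).image (lin r)).card ≤ m * τ :=
      (card_image_le.trans hab).trans (Nat.le_mul_of_pos_right _ hτ1)
    have c2 : (((T.image a) ×ˢ S).image fun q => 2 * lin r q.1 + q.2).card ≤ m * τ := by
      refine card_image_le.trans ?_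
      rw [card_product]; exact Nat.mul_le_mul ha hS
    have c3 : (((T.image b) ×ˢ S).image fun q => -2 * lin r q.1 + q.2).card ≤ m * τ := by
      refine card_image_le.trans ?_
      rw [card_product]; exact Nat.mul_le_mul hb hS
    refine (card_union_le _ _).trans ?_
    have := card_union_le ((T.image fun s => a s + b s).image (lin r))
      (((T.image a) ×ˢ S).image fun q => 2 * lin r q.1 + q.2)
    rw [mul_assoc]
    omega
  let X : Finset ℤ := (Z ×ˢ Icc (-1 : ℤ) 1).image fun q => (q.1.val : ℤ) + q.2 * p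
  have hX : ∀ z : ℤ, -p ≤ z → z < 2 * p → (z : ZMod p) ∈ Z → z ∈ X := by
    intro z h1 h2 hz
    have hp' : (0 : ℤ) < p := by exact_mod_cast hp
    refine mem_image.2 ⟨((z : ZMod p), z / p), mem_product.2 ⟨hz, mem_Icc.2 ⟨?_, ?_⟩⟩, ?_⟩
    · exact (Int.le_ediv_iff_mul_le hp').2 (by linarith)
    · exact Int.lt_add_one_iff.1 ((Int.ediv_lt_iff_lt_mul hp').2 (by linarith))
    · simp only [ZMod.val_intCast]
      rw [mul_comm]
      exact Int.emod_add_mul_ediv z p
  refine ⟨fun e => (lin r (a (w e) + b (w e))).val, X, fun e => ZMod.val_lt _, ?_, ?_⟩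
  · refine card_image_le.trans ?_
    rw [card_product]
    have : (Icc (-1 : ℤ) 1).card = 3 := by simp
    rw [this]
    calc Z.card * 3 ≤ 3 * m * τ * 3 := Nat.mul_le_mul_right _ hZ
      _ = _ := by ring
  · intro e hep
    have hv := ZMod.val_lt (lin r (a (w e) + b (w e)))
    beta_reduce
    refine ⟨hX _ (by omega) (by omega) ?_, hX _ (by omega) (by omega) ?_,
      hX _ (by omega) (by omega) ?_⟩
    · simp only [Int.cast_natCast, ZMod.natCast_zmod_val]
      exact mem_union_left _ (mem_union_left _ (mem_image_of_mem _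
        (mem_image_of_mem (fun s => a s + b s) (hw e))))
    · simp only [Int.cast_add, Int.cast_natCast, ZMod.natCast_zmod_val]
      refine mem_union_left _ (mem_union_right _ (mem_image.2 ⟨(a (w e), s e),
        mem_product.2 ⟨mem_image_of_mem a (hw e), hs e⟩, ?_⟩))
      simp only [lin_add]
      linear_combination -(he e)
    · simp only [Int.cast_sub, Int.cast_natCast, ZMod.natCast_zmod_val]
      refine mem_union_right _ (mem_image.2 ⟨(b (w e), s e),
        mem_product.2 ⟨mem_image_of_mem b (hw e), hs e⟩, ?_⟩)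
      simp only [lin_add]
      linear_combination -(he e)

end Pool.Agent.P.MP_c18ee8_co
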