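import Mathlib

namespace Pool.Agent.P.MP_c18ee8_co

/-- The queens graph on the n by n board. -/
def queensGraph (n : ℕ) : SimpleGraph (Fin n × Fin n) :=
  SimpleGraph.fromRel fun p q =>
    p.1 = q.1 ∨ p.2 = q.2 ∨
      |((p.1 : ℕ) : ℤ) - ((q.1 : ℕ) : ℤ)| = |((p.2 : ℕ) : ℤ) - ((q.2 : ℕ) : ℤ)|

/-- Every vertex of S has a private neighbour (closed neighbourhoods). -/
def IsIrredundant {V : Type} (G : SimpleGraph V) (S : Finset V) : Prop :=
  ∀ v ∈ S, ∃ w, w ∈ insert v (G.neighborSet v) ∧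
    ∀ u ∈ S, u ≠ v → w ∉ insert u (G.neighborSet u)

/-- The upper irredundance number. -/
noncomputable def upperIR {V : Type} [Fintype V] (G : SimpleGraph V) : ℕ :=
  sSup {k : ℕ | ∃ S : Finset V, IsIrredundant G S ∧ S.card = k}

end Pool.Agent.P.MP_c18ee8_co
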