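import Pool.Agent.P.MP_c18ee8_co.Board

namespace Pool.Agent.P.MP_c18ee8_co

open Finset

/-- digitwise extension of a one-digit function, with top digit sent to zero -/
def digU (b : ℕ) (hb : 2 ≤ b) (u0 : ℕ → ℕ) (e : ℕ) : ℕ :=
  if _h : e < b then 0 else u0 (e % b) + b * digU b hb u0 (e / b)
termination_by e
decreasing_by exact Nat.div_lt_self (by omega) (by omega)

theorem digU_lt (b : ℕ) (hb : 2 ≤ b) (u0 : ℕ → ℕ) (h0 : ∀ r, u0 r < b) (e : ℕ) :
    1 ≤ e → digU b hb u0 e + 1 ≤ e := by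
  induction e using Nat.strong_induction_on with
  | _ e ih =>
    intro he
    rw [digU]
    split_ifs with h
    · omega
    · have h1 : 1 ≤ e / b := (Nat.le_div_iff_mul_le (by omega)).2 (by omega)
      have h2 := ih (e / b) (Nat.div_lt_self (by omega) (by omega)) h1
      have h3 := h0 (e % b)
      have h4 : b * (digU b hb u0 (e / b) + 1) ≤ b * (e / b) := Nat.mul_le_mul_left _ h2
      have h5 := Nat.mul_div_le e b
      have h6 : b * (digU b hb u0 (e / b) + 1) = b * digU b hb u0 (e / b) + b := by ring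
      omega

theorem digU_le (b : ℕ) (hb : 2 ≤ b) (u0 : ℕ → ℕ) (h0 : ∀ r, u0 r < b) (e : ℕ) :
    digU b hb u0 e ≤ e := by
  rcases Nat.eq_zero_or_pos e with rfl | h
  · rw [digU]; simp; omega
  · have := digU_lt b hb u0 h0 e h
    omega

theorem digit_sets (b : ℕ) (hb : 2 ≤ b) (u0 : ℕ → ℕ) (X : Finset ℤ) (M : ℕ) (hM : 2 ≤ M)
    (hXM : X.card ≤ M)
    (hX : ∀ r, r < b → (u0 r : ℤ) ∈ X ∧ (r + u0 r : ℤ) ∈ X ∧ (r - u0 r : ℤ) ∈ X) (k : ℕ) :
    ∃ B : Finset ℤ, B.card + b ≤ 2 * b * M ^ k ∧ ∀ e, e < b ^ (k + 1) →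
      (digU b hb u0 e : ℤ) ∈ B ∧ (e + digU b hb u0 e : ℤ) ∈ B ∧
        (e - digU b hb u0 e : ℤ) ∈ B := by
  induction k with
  | zero =>
    refine ⟨Ico 0 b, by simp; omega, fun e he => ?_⟩
    have he' : e < b := by simpa using he
    rw [digU, dif_pos he']
    simp
    omega
  | succ k ih =>
    obtain ⟨B, hB, hm⟩ := ih
    refine ⟨Ico 0 b ∪ (X ×ˢ B).image fun q => q.1 + b * q.2, ?_, fun e he => ?_⟩
    · have h1 := card_union_le (Ico (0 : ℤ) b) ((X ×ˢ B).image fun q => q.1 + b * q.2)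
      have h2 : ((X ×ˢ B).image fun q : ℤ × ℤ => q.1 + b * q.2).card ≤ M * B.card := by
        refine card_image_le.trans ?_
        rw [card_product]
        exact Nat.mul_le_mul_right _ hXM
      have h3 : (Ico (0 : ℤ) b).card = b := by simp
      have h4 : M * (B.card + b) ≤ M * (2 * b * M ^ k) := Nat.mul_le_mul_left _ hB
      have h5 : 2 * b ≤ M * b := Nat.mul_le_mul_right _ hM
      have h6 : M * (2 * b * M ^ k) = 2 * b * M ^ (k + 1) := by ring
      have h7 : M * (B.card + b) = M * B.card + M * b := by ring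
      omega
    · rw [digU]
      split_ifs with h
      · simp only [mem_union, mem_Ico]
        refine ⟨Or.inl ?_, Or.inl ?_, Or.inl ?_⟩ <;> omega
      · have h1 : e / b < b ^ (k + 1) := by
          apply Nat.div_lt_of_lt_mul
          rw [pow_succ] at he
          linarith [Nat.mul_comm b (b ^ (k + 1))]
        obtain ⟨a1, a2, a3⟩ := hm _ h1
        obtain ⟨c1, c2, c3⟩ := hX (e % b) (Nat.mod_lt _ (by omega))
        have he2 : (e : ℤ) = ((e % b : ℕ) : ℤ) + b * ((e / b : ℕ) : ℤ) := by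
          exact_mod_cast (Nat.mod_add_div e b).symm
        refine ⟨mem_union_right _ (mem_image.2 ⟨(_, _), mem_product.2 ⟨c1, a1⟩, ?_⟩),
          mem_union_right _ (mem_image.2 ⟨(_, _), mem_product.2 ⟨c2, a2⟩, ?_⟩),
          mem_union_right _ (mem_image.2 ⟨(_, _), mem_product.2 ⟨c3, a3⟩, ?_⟩)⟩
        · simp only [Nat.cast_add, Nat.cast_mul]
        · simp only [Nat.cast_add, Nat.cast_mul]
          linarith [mul_add (b : ℤ) ((e / b : ℕ) : ℤ) (digU b hb u0 (e / b) : ℤ)]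
        · simp only [Nat.cast_add, Nat.cast_mul]
          linarith [mul_sub (b : ℤ) ((e / b : ℕ) : ℤ) (digU b hb u0 (e / b) : ℤ)]

theorem lower_of_digit (b : ℕ) (hb : 2 ≤ b) (u0 : ℕ → ℕ) (h0 : ∀ r, u0 r < b) (X : Finset ℤ)
    (M : ℕ) (hM : 2 ≤ M) (hXM : X.card ≤ M)
    (hX : ∀ r, r < b → (u0 r : ℤ) ∈ X ∧ (r + u0 r : ℤ) ∈ X ∧ (r - u0 r : ℤ) ∈ X)
    (θ : ℝ) (hθ : 0 ≤ θ) (hMb : (M : ℝ) ≤ (b : ℝ) ^ θ) :
    ∃ C : ℝ, ∀ n : ℕ, 1 ≤ n → 6 * (n : ℝ) - C * (n : ℝ) ^ θ ≤ upperIR (queensGraph n) := by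
  refine ⟨7300 * (2 * b) + 74, fun n hn => ?_⟩
  obtain ⟨B, hB, hm⟩ := digit_sets b hb u0 X M hM hXM hX (Nat.log b n)
  have h1 : n < b ^ (Nat.log b n + 1) := Nat.lt_pow_succ_log_self (by omega) n
  have h2 : b ^ Nat.log b n ≤ n := Nat.pow_log_le_self b (by omega)
  have h3 := board_lower (n := n) (digU b hb u0) (digU_le b hb u0 h0) B
    (fun e he => hm e (he.trans h1))
  have h3' : 6 * (n : ℝ) ≤ upperIR (queensGraph n) + 7300 * B.card + 74 := by exact_mod_cast h3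
  have hB' : (B.card : ℝ) ≤ 2 * b * (M : ℝ) ^ Nat.log b n := by
    have : B.card ≤ 2 * b * M ^ Nat.log b n := by omega
    exact_mod_cast this
  have h4 : (M : ℝ) ^ Nat.log b n ≤ (n : ℝ) ^ θ := by
    calc (M : ℝ) ^ Nat.log b n ≤ ((b : ℝ) ^ θ) ^ Nat.log b n := by gcongr
      _ = (((b ^ Nat.log b n : ℕ) : ℝ)) ^ θ := by
        rw [← Real.rpow_natCast, ← Real.rpow_mul (by positivity), mul_comm,
          Real.rpow_mul (by positivity), Real.rpow_natCast]
        push_cast; rfl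
      _ ≤ (n : ℝ) ^ θ := by
        apply Real.rpow_le_rpow (by positivity) (by exact_mod_cast h2) hθ
  have h5 : (1 : ℝ) ≤ (n : ℝ) ^ θ := Real.one_le_rpow (by exact_mod_cast hn) hθ
  have h6 : (B.card : ℝ) ≤ 2 * b * (n : ℝ) ^ θ := hB'.trans (by gcongr)
  nlinarith

end Pool.Agent.P.MP_c18ee8_co
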