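import Mathlib

namespace Pool.Agent.P.MP_c18ee8_co

open Finset

theorem holder4 {ι : Type*} (s : Finset ι) (r f1 f2 f3 f4 : ι → ℝ)
    (hr : ∀ i ∈ s, 0 ≤ r i)
    (h1 : ∀ i ∈ s, 0 ≤ f1 i) (h2 : ∀ i ∈ s, 0 ≤ f2 i) (h3 : ∀ i ∈ s, 0 ≤ f3 i)
    (h4 : ∀ i ∈ s, 0 ≤ f4 i)
    (h : ∀ i ∈ s, r i ^ 4 = f1 i * f2 i * (f3 i * f4 i)) :
    (∑ i ∈ s, r i) ^ 4 ≤
      (∑ i ∈ s, f1 i) * (∑ i ∈ s, f2 i) * ((∑ i ∈ s, f3 i) * (∑ i ∈ s, f4 i)) := by
  have a1 : (∑ i ∈ s, r i) ^ 2 ≤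
      (∑ i ∈ s, √(f1 i * f2 i)) * (∑ i ∈ s, √(f3 i * f4 i)) := by
    apply sum_sq_le_sum_mul_sum_of_sq_eq_mul s (fun i _ => Real.sqrt_nonneg _)
      (fun i _ => Real.sqrt_nonneg _)
    intro i hi
    rw [← Real.sqrt_mul (mul_nonneg (h1 i hi) (h2 i hi)), ← h i hi,
      show r i ^ 4 = (r i ^ 2) ^ 2 by ring, Real.sqrt_sq (by positivity)]
  have a2 : (∑ i ∈ s, √(f1 i * f2 i)) ^ 2 ≤ (∑ i ∈ s, f1 i) * (∑ i ∈ s, f2 i) := by
    apply sum_sq_le_sum_mul_sum_of_sq_eq_mul s h1 h2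
    intro i hi
    exact Real.sq_sqrt (mul_nonneg (h1 i hi) (h2 i hi))
  have a3 : (∑ i ∈ s, √(f3 i * f4 i)) ^ 2 ≤ (∑ i ∈ s, f3 i) * (∑ i ∈ s, f4 i) := by
    apply sum_sq_le_sum_mul_sum_of_sq_eq_mul s h3 h4
    intro i hi
    exact Real.sq_sqrt (mul_nonneg (h3 i hi) (h4 i hi))
  calc (∑ i ∈ s, r i) ^ 4 = ((∑ i ∈ s, r i) ^ 2) ^ 2 := by ring
    _ ≤ ((∑ i ∈ s, √(f1 i * f2 i)) * (∑ i ∈ s, √(f3 i * f4 i))) ^ 2 := by
        gcongr
    _ = (∑ i ∈ s, √(f1 i * f2 i)) ^ 2 * (∑ i ∈ s, √(f3 i * f4 i)) ^ 2 := by ring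
    _ ≤ _ := by
        apply mul_le_mul a2 a3 (by positivity)
        exact mul_nonneg (sum_nonneg h1) (sum_nonneg h2)

/-- size of the fibre through a point -/
def fib {α β : Type*} [DecidableEq β] (V : Finset α) (f : α → β) (v : α) : ℕ :=
  (V.filter fun u => f u = f v).card

theorem fib_pos {α β : Type*} [DecidableEq β] (V : Finset α) (f : α → β) {v : α} (hv : v ∈ V) :
    0 < fib V f v := card_pos.2 ⟨v, by simp [hv]⟩

theorem sum_inv_fib {α β : Type*} [DecidableEq β] (V : Finset α) (f : α → β) :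
    ∑ v ∈ V, (1 : ℝ) / fib V f v = (V.image f).card := by
  rw [← sum_fiberwise_of_maps_to (g := f) (t := V.image f) (fun v hv => mem_image_of_mem f hv)]
  rw [card_eq_sum_ones, Nat.cast_sum]
  apply sum_congr rfl
  intro b hb
  obtain ⟨v0, hv0, rfl⟩ := mem_image.1 hb
  have : ∀ v ∈ V.filter (fun u => f u = f v0), (1 : ℝ) / fib V f v = 1 / fib V f v0 := by
    intro v hv
    have := (mem_filter.1 hv).2
    simp [fib, this]
  rw [sum_congr rfl this, sum_const, nsmul_eq_mul]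
  have hp : (0 : ℝ) < fib V f v0 := by exact_mod_cast fib_pos V f hv0
  have : ((V.filter fun u => f u = f v0).card : ℝ) = fib V f v0 := rfl
  rw [this]
  field_simp
  simp

/-- pairs in the same fibre -/
def prs {α β : Type*} [DecidableEq β] (V : Finset α) (f : α → β) : Finset (α × α) :=
  (V ×ˢ V).filter fun p => f p.2 = f p.1

theorem sum_prs_fst {α β : Type*} [DecidableEq β] (V : Finset α) (f : α → β) (g : α → ℝ) :
    ∑ p ∈ prs V f, g p.1 = ∑ v ∈ V, g v * fib V f v := by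
  unfold prs
  rw [sum_filter, sum_product]
  apply sum_congr rfl
  intro v _
  rw [← sum_filter]
  simp [fib, mul_comm]

theorem sum_prs_snd {α β : Type*} [DecidableEq β] (V : Finset α) (f : α → β) (g : α → ℝ) :
    ∑ p ∈ prs V f, g p.2 = ∑ v ∈ V, g v * fib V f v := by
  unfold prs
  rw [sum_filter, sum_product_right]
  apply sum_congr rfl
  intro v _
  rw [← sum_filter]
  simp [fib, mul_comm, eq_comm]

theorem card_sq_le_prs {α β : Type*} [DecidableEq β] (V : Finset α) (f : α → β) :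
    ((V.card : ℝ)) ^ 2 ≤ (prs V f).card * (V.image f).card := by
  have h := sum_sq_le_sum_mul_sum_of_sq_eq_mul V (r := fun _ => (1 : ℝ))
    (f := fun v => (fib V f v : ℝ)) (g := fun v => (1 : ℝ) / fib V f v)
    (fun v _ => by positivity) (fun v _ => by positivity)
    (fun v hv => by
      have hp : (0 : ℝ) < fib V f v := by exact_mod_cast fib_pos V f hv
      field_simp)
  rw [sum_inv_fib] at h
  have h2 := sum_prs_fst V f (fun _ => (1 : ℝ))
  simp only [one_mul, sum_const, nsmul_eq_mul, mul_one] at h2 h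
  rw [h2]; exact h

/-- chains of length three -/
def chains {α β1 β2 β3 : Type*} [DecidableEq β1] [DecidableEq β2] [DecidableEq β3]
    (V : Finset α) (f1 : α → β1) (f2 : α → β2) (f3 : α → β3) : Finset ((α × α) × (α × α)) :=
  (prs V f2 ×ˢ (V ×ˢ V)).filter fun q => f1 q.2.1 = f1 q.1.1 ∧ f3 q.2.2 = f3 q.1.2

theorem card_chains {α β1 β2 β3 : Type*} [DecidableEq β1] [DecidableEq β2] [DecidableEq β3]
    (V : Finset α) (f1 : α → β1) (f2 : α → β2) (f3 : α → β3) :
    ((chains V f1 f2 f3).card : ℝ) = ∑ p ∈ prs V f2, (fib V f1 p.1 : ℝ) * fib V f3 p.2 := by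
  unfold chains
  rw [card_filter, sum_product, Nat.cast_sum]
  apply sum_congr rfl
  intro p _
  rw [← card_filter]
  have : ((V ×ˢ V).filter fun q : α × α => f1 q.1 = f1 p.1 ∧ f3 q.2 = f3 p.2) =
      (V.filter fun u => f1 u = f1 p.1) ×ˢ (V.filter fun u => f3 u = f3 p.2) := by
    ext q; simp only [mem_filter, mem_product]; tauto
  rw [this, card_product]
  simp [fib]

theorem chain_bound {α β1 β2 β3 : Type*} [DecidableEq β1] [DecidableEq β2] [DecidableEq β3]
    (V : Finset α) (f1 : α → β1) (f2 : α → β2) (f3 : α → β3) :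
    (V.card : ℝ) ^ 4 ≤ (chains V f1 f2 f3).card * (V.image f1).card *
      ((V.image f3).card * (V.image f2).card) := by
  have hmem : ∀ p ∈ prs V f2, p.1 ∈ V ∧ p.2 ∈ V ∧ fib V f2 p.2 = fib V f2 p.1 := by
    intro p hp
    simp only [prs, mem_filter, mem_product] at hp
    exact ⟨hp.1.1, hp.1.2, by simp [fib, hp.2]⟩
  have h := holder4 (prs V f2) (fun p => (1 : ℝ) / fib V f2 p.1)
    (fun p => (fib V f1 p.1 : ℝ) * fib V f3 p.2)
    (fun p => (1 : ℝ) / (fib V f1 p.1 * fib V f2 p.1))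
    (fun p => (1 : ℝ) / (fib V f3 p.2 * fib V f2 p.2))
    (fun p => (1 : ℝ) / (fib V f2 p.1 * fib V f2 p.1))
    (fun _ _ => by positivity) (fun _ _ => by positivity) (fun _ _ => by positivity)
    (fun _ _ => by positivity) (fun _ _ => by positivity)
    (fun p hp => by
      obtain ⟨a, b, c⟩ := hmem p hp
      have h1 : (0 : ℝ) < fib V f1 p.1 := by exact_mod_cast fib_pos V f1 a
      have h2 : (0 : ℝ) < fib V f2 p.1 := by exact_mod_cast fib_pos V f2 a
      have h3 : (0 : ℝ) < fib V f3 p.2 := by exact_mod_cast fib_pos V f3 b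
      simp only [c]
      field_simp)
  rw [← card_chains] at h
  rw [sum_prs_fst V f2 (fun v => (1 : ℝ) / fib V f2 v),
    sum_prs_fst V f2 (fun v => (1 : ℝ) / (fib V f1 v * fib V f2 v)),
    sum_prs_snd V f2 (fun v => (1 : ℝ) / (fib V f3 v * fib V f2 v)),
    sum_prs_fst V f2 (fun v => (1 : ℝ) / (fib V f2 v * fib V f2 v))] at h
  have e0 : ∑ v ∈ V, (1 : ℝ) / fib V f2 v * fib V f2 v = V.card := by
    rw [card_eq_sum_ones, Nat.cast_sum]
    apply sum_congr rfl
    intro v hv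
    have h2 : (0 : ℝ) < fib V f2 v := by exact_mod_cast fib_pos V f2 hv
    field_simp
    simp
  have e1 : ∀ g : α → ℕ, ∑ v ∈ V, (1 : ℝ) / (g v * fib V f2 v) * fib V f2 v =
      ∑ v ∈ V, (1 : ℝ) / g v := by
    intro g
    apply sum_congr rfl
    intro v hv
    have h2 : (0 : ℝ) < fib V f2 v := by exact_mod_cast fib_pos V f2 hv
    by_cases hg : (g v : ℝ) = 0
    · simp [hg]
    · field_simp
  rw [e0, e1, e1, e1, sum_inv_fib, sum_inv_fib, sum_inv_fib] at h
  exact h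

/-- The sum-difference inequality with exponent 11/6, asymmetric form. -/
theorem katz_tao {τ : Type*} [DecidableEq τ] (T : Finset τ) (a b : τ → ℤ)
    (hinj : ∀ s ∈ T, ∀ t ∈ T, a s - b s = a t - b t → s = t) :
    (T.card : ℝ) ^ 6 ≤ ((T.image a).card : ℝ) ^ 4 * ((T.image b).card : ℝ) ^ 4 *
      ((T.image fun t => a t + b t).card : ℝ) ^ 3 := by
  set A := T.image a
  set B := T.image b
  set C := T.image fun t => a t + b t
  set V := prs T a with hV
  have hVm : ∀ v ∈ V, v.1 ∈ T ∧ v.2 ∈ T ∧ a v.2 = a v.1 := by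
    intro v hv
    simp only [hV, prs, mem_filter, mem_product] at hv
    exact ⟨hv.1.1, hv.1.2, hv.2⟩
  let f1 : τ × τ → ℤ × ℤ := fun v => (a v.1 + b v.1, a v.2 + b v.2)
  let f2 : τ × τ → ℤ × ℤ := fun v => (b v.1, b v.2)
  let f3 : τ × τ → ℤ × ℤ := fun v => (a v.1 + b v.1, b v.2)
  have c1 : ((V.image f1).card : ℝ) ≤ (C.card : ℝ) * C.card := by
    have : V.image f1 ⊆ C ×ˢ C := by
      intro x hx
      obtain ⟨v, hv, rfl⟩ := mem_image.1 hx
      obtain ⟨h1, h2, _⟩ := hVm v hv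
      exact mem_product.2 ⟨mem_image_of_mem (fun t => a t + b t) h1,
        mem_image_of_mem (fun t => a t + b t) h2⟩
    have := card_le_card this
    rw [card_product] at this
    exact_mod_cast this
  have c2 : ((V.image f2).card : ℝ) ≤ (B.card : ℝ) * B.card := by
    have : V.image f2 ⊆ B ×ˢ B := by
      intro x hx
      obtain ⟨v, hv, rfl⟩ := mem_image.1 hx
      obtain ⟨h1, h2, _⟩ := hVm v hv
      exact mem_product.2 ⟨mem_image_of_mem b h1, mem_image_of_mem b h2⟩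
    have := card_le_card this
    rw [card_product] at this
    exact_mod_cast this
  have c3 : ((V.image f3).card : ℝ) ≤ (C.card : ℝ) * B.card := by
    have : V.image f3 ⊆ C ×ˢ B := by
      intro x hx
      obtain ⟨v, hv, rfl⟩ := mem_image.1 hx
      obtain ⟨h1, h2, _⟩ := hVm v hv
      exact mem_product.2 ⟨mem_image_of_mem (fun t => a t + b t) h1, mem_image_of_mem b h2⟩
    have := card_le_card this
    rw [card_product] at this
    exact_mod_cast this
  have c4 : ((chains V f1 f2 f3).card : ℝ) ≤ (V.card : ℝ) * (A.card * B.card) := by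
    have : (chains V f1 f2 f3).card ≤ (V ×ˢ (A ×ˢ B)).card := by
      apply card_le_card_of_injOn (fun q => (q.2.1, (a q.1.2.1, b q.2.2.1)))
      · intro q hq
        simp only [chains, prs, coe_filter, mem_product, mem_filter, Set.mem_ofPred_eq] at hq
        obtain ⟨⟨⟨⟨h1, h2⟩, _⟩, h0, h3⟩, _⟩ := hq
        simp only [coe_product, Set.mem_prod, mem_coe]
        exact ⟨h0, mem_image_of_mem a (hVm _ h2).1, mem_image_of_mem b (hVm _ h3).1⟩
      · rintro ⟨⟨v1, v2⟩, v0, v3⟩ hq ⟨⟨w1, w2⟩, w0, w3⟩ hq' he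
        simp only [chains, prs, coe_filter, mem_product, mem_filter, Set.mem_ofPred_eq] at hq hq'
        obtain ⟨⟨⟨⟨h1, h2⟩, e2⟩, h0, h3⟩, e1, e3⟩ := hq
        obtain ⟨⟨⟨⟨k1, k2⟩, d2⟩, k0, k3⟩, d1, d3⟩ := hq'
        simp only [Prod.mk.injEq, f1, f2, f3] at he e1 e2 e3 d1 d2 d3
        obtain ⟨rfl, ha, hb⟩ := he
        obtain ⟨p0, p0', q0⟩ := hVm _ h0
        obtain ⟨p1, p1', q1⟩ := hVm _ h1
        obtain ⟨p2, p2', q2⟩ := hVm _ h2
        obtain ⟨p3, p3', q3⟩ := hVm _ h3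
        obtain ⟨r1, r1', s1⟩ := hVm _ k1
        obtain ⟨r2, r2', s2⟩ := hVm _ k2
        obtain ⟨r3, r3', s3⟩ := hVm _ k3
        have x32 : v3.2 = w3.2 := hinj _ p3' _ r3' (by omega)
        have y32a : a v3.2 = a w3.2 := by rw [x32]
        have y32b : b v3.2 = b w3.2 := by rw [x32]
        have x31 : v3.1 = w3.1 := hinj _ p3 _ r3 (by omega)
        have x22 : v2.2 = w2.2 := hinj _ p2' _ r2' (by omega)
        have x21 : v2.1 = w2.1 := hinj _ p2 _ r2 (by omega)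
        have y21b : b v2.1 = b w2.1 := by rw [x21]
        have y22b : b v2.2 = b w2.2 := by rw [x22]
        have x11 : v1.1 = w1.1 := hinj _ p1 _ r1 (by omega)
        have x12 : v1.2 = w1.2 := hinj _ p1' _ r1' (by omega)
        simp only [Prod.mk.injEq, true_and]
        exact ⟨⟨Prod.ext x11 x12, Prod.ext x21 x22⟩, Prod.ext x31 x32⟩
    rw [card_product, card_product] at this
    exact_mod_cast this
  have c5 := chain_bound V f1 f2 f3
  have c6 : (T.card : ℝ) ^ 2 ≤ V.card * A.card := card_sq_le_prs T a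
  have c7 : (V.card : ℝ) ^ 4 ≤ V.card * (A.card * (B.card : ℝ) ^ 4 * (C.card : ℝ) ^ 3) := by
    calc (V.card : ℝ) ^ 4 ≤ _ := c5
      _ ≤ ((V.card : ℝ) * (A.card * B.card)) * (C.card * C.card) *
          ((C.card * B.card) * (B.card * B.card)) := by gcongr
      _ = _ := by ring
  have c8 : (V.card : ℝ) ^ 3 ≤ A.card * (B.card : ℝ) ^ 4 * (C.card : ℝ) ^ 3 := by
    rcases Nat.eq_zero_or_pos V.card with h0 | h0
    · rw [h0]; simp; positivity
    · have hp : (0 : ℝ) < V.card := by exact_mod_cast h0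
      apply le_of_mul_le_mul_left _ hp
      calc (V.card : ℝ) * V.card ^ 3 = V.card ^ 4 := by ring
        _ ≤ _ := c7
  calc (T.card : ℝ) ^ 6 = ((T.card : ℝ) ^ 2) ^ 3 := by ring
    _ ≤ ((V.card : ℝ) * A.card) ^ 3 := by gcongr
    _ = (V.card : ℝ) ^ 3 * (A.card : ℝ) ^ 3 := by ring
    _ ≤ (A.card * (B.card : ℝ) ^ 4 * (C.card : ℝ) ^ 3) * (A.card : ℝ) ^ 3 := by gcongr
    _ = _ := by ring

end Pool.Agent.P.MP_c18ee8_co
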