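import Pool.Agent.P.MP_c18ee8_co.Lines
import Pool.Agent.P.MP_c18ee8_co.KatzTao

namespace Pool.Agent.P.MP_c18ee8_co

open Finset

theorem card_image_le_of {τ : Type*} (P : Finset τ) (a f : τ → ℤ) (X : Finset ℤ) (g : ℤ → ℤ)
    (h1 : ∀ p ∈ P, f p ∈ X) (h2 : ∀ p, a p = g (f p)) : (P.image a).card ≤ X.card := by
  have : P.image a ⊆ X.image g := by
    intro x hx
    obtain ⟨p, hp, rfl⟩ := mem_image.1 hx
    rw [h2]
    exact mem_image_of_mem g (h1 p hp)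
  exact (card_le_card this).trans card_image_le

theorem reduce_dir (k : Fin 4) (P : Finset (ℤ × ℤ)) (X : Fin 4 → Finset ℤ)
    (hinj : ∀ p ∈ P, ∀ q ∈ P, phi k p = phi k q → p = q)
    (hX : ∀ j, j ≠ k → ∀ p ∈ P, phi j p ∈ X j) :
    ∃ a b : ℤ × ℤ → ℤ, (∀ s ∈ P, ∀ t ∈ P, a s - b s = a t - b t → s = t) ∧
      (P.image a).card ≤ (X (![3, 3, 0, 0] k)).card ∧
      (P.image b).card ≤ (X (![2, 2, 1, 1] k)).card ∧
      (P.image fun t => a t + b t).card ≤ (X (![1, 0, 3, 2] k)).card := by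
  fin_cases k
  · refine ⟨fun p => p.1 + p.2, fun p => p.2 - p.1, ?_, ?_, ?_, ?_⟩
    · intro s hs t ht h
      apply hinj s hs t ht
      simp [phi] at h ⊢; omega
    · exact card_image_le_of P _ (phi 3) _ id (hX 3 (by decide)) (by intro p; simp [phi])
    · exact card_image_le_of P _ (phi 2) _ (fun x => -x) (hX 2 (by decide))
        (by intro p; simp [phi])
    · exact card_image_le_of P _ (phi 1) _ (fun x => 2 * x) (hX 1 (by decide))
        (by intro p; simp [phi]; ring)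
  · refine ⟨fun p => p.1 + p.2, fun p => p.1 - p.2, ?_, ?_, ?_, ?_⟩
    · intro s hs t ht h
      apply hinj s hs t ht
      simp [phi] at h ⊢; omega
    · exact card_image_le_of P _ (phi 3) _ id (hX 3 (by decide)) (by intro p; simp [phi])
    · exact card_image_le_of P _ (phi 2) _ id (hX 2 (by decide))
        (by intro p; simp [phi])
    · exact card_image_le_of P _ (phi 0) _ (fun x => 2 * x) (hX 0 (by decide))
        (by intro p; simp [phi]; ring)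
  · refine ⟨fun p => p.1, fun p => p.2, ?_, ?_, ?_, ?_⟩
    · intro s hs t ht h
      apply hinj s hs t ht
      simp [phi] at h ⊢; omega
    · exact card_image_le_of P _ (phi 0) _ id (hX 0 (by decide)) (by intro p; simp [phi])
    · exact card_image_le_of P _ (phi 1) _ id (hX 1 (by decide))
        (by intro p; simp [phi])
    · exact card_image_le_of P _ (phi 3) _ id (hX 3 (by decide))
        (by intro p; simp [phi])
  · refine ⟨fun p => p.1, fun p => -p.2, ?_, ?_, ?_, ?_⟩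
    · intro s hs t ht h
      apply hinj s hs t ht
      simp [phi] at h ⊢; omega
    · exact card_image_le_of P _ (phi 0) _ id (hX 0 (by decide)) (by intro p; simp [phi])
    · exact card_image_le_of P _ (phi 1) _ (fun x => -x) (hX 1 (by decide))
        (by intro p; simp [phi])
    · exact card_image_le_of P _ (phi 2) _ id (hX 2 (by decide))
        (by intro p; simp [phi]; ring)

theorem kt_dir (k : Fin 4) (P : Finset (ℤ × ℤ)) (X : Fin 4 → Finset ℤ)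
    (hinj : ∀ p ∈ P, ∀ q ∈ P, phi k p = phi k q → p = q)
    (hX : ∀ j, j ≠ k → ∀ p ∈ P, phi j p ∈ X j) :
    (P.card : ℝ) ^ 6 ≤ ((X (![3, 3, 0, 0] k)).card : ℝ) ^ 4 *
      ((X (![2, 2, 1, 1] k)).card : ℝ) ^ 4 * ((X (![1, 0, 3, 2] k)).card : ℝ) ^ 3 := by
  obtain ⟨a, b, h0, h1, h2, h3⟩ := reduce_dir k P X hinj hX
  refine (katz_tao P a b h0).trans ?_
  gcongr

theorem amgm4 (a b c d : ℝ) (ha : 0 ≤ a) (hb : 0 ≤ b) (hc : 0 ≤ c) (hd : 0 ≤ d) :
    a ^ 8 * b ^ 8 * c ^ 3 * d ^ 3 ≤ 8 ^ 16 * 3 ^ 6 * ((a + b + c + d) / 22) ^ 22 := by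
  have h := Real.geom_mean_le_arith_mean4_weighted (w₁ := 8 / 22) (w₂ := 8 / 22) (w₃ := 3 / 22)
    (w₄ := 3 / 22) (p₁ := a / 8) (p₂ := b / 8) (p₃ := c / 3) (p₄ := d / 3)
    (by norm_num) (by norm_num) (by norm_num) (by norm_num)
    (by positivity) (by positivity) (by positivity) (by positivity) (by norm_num)
  have e : ∀ (x : ℝ) (k : ℕ), 0 ≤ x → (x ^ ((k : ℝ) / 22)) ^ 22 = x ^ k := by
    intro x k hx
    rw [← Real.rpow_natCast, ← Real.rpow_mul hx, ← Real.rpow_natCast]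
    congr 1
    push_cast
    ring
  have h2 := pow_le_pow_left₀ (by positivity) h 22
  have e8a := e (a / 8) 8 (by positivity)
  have e8b := e (b / 8) 8 (by positivity)
  have e3c := e (c / 3) 3 (by positivity)
  have e3d := e (d / 3) 3 (by positivity)
  push_cast at e8a e8b e3c e3d
  rw [mul_pow, mul_pow, mul_pow, e8a, e8b, e3c, e3d] at h2
  have e4 : 8 / 22 * (a / 8) + 8 / 22 * (b / 8) + 3 / 22 * (c / 3) + 3 / 22 * (d / 3) =
      (a + b + c + d) / 22 := by ring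
  rw [e4] at h2
  generalize ((a + b + c + d) / 22) ^ 22 = z at h2 ⊢
  have : a ^ 8 * b ^ 8 * c ^ 3 * d ^ 3 =
      8 ^ 16 * 3 ^ 6 * ((a / 8) ^ 8 * (b / 8) ^ 8 * (c / 3) ^ 3 * (d / 3) ^ 3) := by ring
  rw [this]
  gcongr

theorem system_bound (P : Fin 4 → Finset (ℤ × ℤ)) (X : Fin 4 → Finset ℤ)
    (hinj : ∀ k, ∀ p ∈ P k, ∀ q ∈ P k, phi k p = phi k q → p = q)
    (hX : ∀ k j, j ≠ k → ∀ p ∈ P k, phi j p ∈ X j) (v : ℝ) (hv : 0 ≤ v)
    (h2 : v ≤ (P 2).card) (h3 : v ≤ (P 3).card) :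
    v ^ 6 ≤ 8 ^ 8 * 3 ^ 3 * (((∑ k, (X k).card : ℕ) : ℝ) / 22) ^ 11 := by
  have k2 := kt_dir 2 (P 2) X (hinj 2) (hX 2)
  have k3 := kt_dir 3 (P 3) X (hinj 3) (hX 3)
  simp only [Matrix.cons_val_zero, Matrix.cons_val_one, Matrix.cons_val] at k2 k3
  simp only [Fin.sum_univ_four, Nat.cast_add]
  set x0 : ℝ := ((X 0).card : ℝ)
  set x1 : ℝ := ((X 1).card : ℝ)
  set x2 : ℝ := ((X 2).card : ℝ)
  set x3 : ℝ := ((X 3).card : ℝ)
  have p0 : 0 ≤ x0 := Nat.cast_nonneg _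
  have p1 : 0 ≤ x1 := Nat.cast_nonneg _
  have p2 : 0 ≤ x2 := Nat.cast_nonneg _
  have p3 : 0 ≤ x3 := Nat.cast_nonneg _
  have hm := amgm4 x0 x1 x2 x3 p0 p1 p2 p3
  apply le_of_pow_le_pow_left₀ (n := 2) (by norm_num) (by positivity)
  generalize (x0 + x1 + x2 + x3) / 22 = z at hm ⊢
  calc (v ^ 6) ^ 2 = v ^ 6 * v ^ 6 := by ring
    _ ≤ ((P 2).card : ℝ) ^ 6 * ((P 3).card : ℝ) ^ 6 := by gcongr
    _ ≤ (x0 ^ 4 * x1 ^ 4 * x3 ^ 3) * (x0 ^ 4 * x1 ^ 4 * x2 ^ 3) := by gcongr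
    _ = x0 ^ 8 * x1 ^ 8 * x2 ^ 3 * x3 ^ 3 := by ring
    _ ≤ _ := hm
    _ = _ := by ring

theorem deficiency_bound {n : ℕ} (hn : 1 ≤ n) :
    ∃ t : ℕ, upperIR (queensGraph n) + t + 2 = 6 * n ∧
      ∀ v : ℝ, 0 ≤ v → v + t + 1 ≤ 2 * n →
        v ^ 6 ≤ 8 ^ 8 * 3 ^ 3 * ((t : ℝ) / 44) ^ 11 := by
  obtain ⟨S, hS, hc⟩ := exists_IR (queensGraph n)
  obtain ⟨O, E, P, N, t, ht, hsum, i1, i2, m1, m2, c1, c2⟩ := structure_lemma hn S hS
  refine ⟨t, by omega, fun v hv hvt => ?_⟩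
  have key : ∀ Q : Fin 4 → Finset (ℤ × ℤ), (∀ k, (rng n k).card ≤ (Q k).card + t) →
      v ≤ (Q 2).card ∧ v ≤ (Q 3).card := by
    intro Q hQ
    have h2 := hQ 2
    have h3 := hQ 3
    rw [card_rng n hn] at h2 h3
    simp only [Matrix.cons_val] at h2 h3
    have h2' : (2 * n : ℝ) ≤ (Q 2).card + t + 1 := by
      have : 2 * n ≤ (Q 2).card + t + 1 := by omega
      exact_mod_cast this
    have h3' : (2 * n : ℝ) ≤ (Q 3).card + t + 1 := by
      have : 2 * n ≤ (Q 3).card + t + 1 := by omega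
      exact_mod_cast this
    refine ⟨by linarith, by linarith⟩
  obtain ⟨a2, a3⟩ := key P c1
  obtain ⟨b2, b3⟩ := key N c2
  have s1 := system_bound P O i1 m1 v hv a2 a3
  have s2 := system_bound N E i2 m2 v hv b2 b3
  have ht' : (t : ℝ) = ((∑ k, (O k).card : ℕ) : ℝ) + ((∑ k, (E k).card : ℕ) : ℝ) := by
    rw [ht]; push_cast; ring
  rcases le_total ((∑ k, (O k).card : ℕ) : ℝ) ((∑ k, (E k).card : ℕ) : ℝ) with h | h
  · refine s1.trans ?_
    gcongr 8 ^ 8 * 3 ^ 3 * ?_ ^ 11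
    linarith
  · refine s2.trans ?_
    gcongr 8 ^ 8 * 3 ^ 3 * ?_ ^ 11
    linarith

theorem upper_main (n : ℕ) (hn : 8200 ≤ n) :
    (upperIR (queensGraph n) : ℝ) ≤ 6 * n - 10 * (n : ℝ) ^ ((6 : ℝ) / 11) := by
  obtain ⟨t, ht, h⟩ := deficiency_bound (n := n) (by omega)
  have hn' : (8200 : ℝ) ≤ n := by exact_mod_cast hn
  have hpos : (0 : ℝ) < n := by linarith
  set y : ℝ := (n : ℝ) ^ ((1 : ℝ) / 11) with hy
  have hy0 : 0 < y := Real.rpow_pos_of_pos hpos _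
  have hy11 : y ^ 11 = n := by
    rw [hy, ← Real.rpow_natCast, ← Real.rpow_mul hpos.le]; norm_num
  have hy6 : (n : ℝ) ^ ((6 : ℝ) / 11) = y ^ 6 := by
    rw [hy, ← Real.rpow_natCast, ← Real.rpow_mul hpos.le]; norm_num
  rw [hy6]
  have hylb : (2.268 : ℝ) ≤ y := by
    by_contra hc
    have : y ^ 11 < (2.268 : ℝ) ^ 11 := by
      apply pow_lt_pow_left₀ (not_le.1 hc) hy0.le (by norm_num)
    rw [hy11] at this
    norm_num at this
    linarith
  have hy5 : (60 : ℝ) ≤ y ^ 5 := by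
    calc (60 : ℝ) ≤ (2.268 : ℝ) ^ 5 := by norm_num
      _ ≤ y ^ 5 := by gcongr
  have ht' : (upperIR (queensGraph n) : ℝ) + t + 2 = 6 * n := by exact_mod_cast ht
  by_contra hc
  have hlt : (t : ℝ) + 2 < 10 * y ^ 6 := by linarith
  have hy6p : 0 < y ^ 6 := by positivity
  have hsmall : 10 * y ^ 6 ≤ 1 / 6 * n := by
    rw [← hy11]
    have : y ^ 11 = y ^ 6 * y ^ 5 := by ring
    nlinarith
  have h1 := h (11 / 6 * n) (by positivity) (by linarith)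
  have h2 : ((t : ℝ) / 44) ^ 11 ≤ (10 * y ^ 6 / 44) ^ 11 := by
    gcongr
    linarith
  have h3 : (10 * y ^ 6 / 44) ^ 11 = (10 / 44 : ℝ) ^ 11 * (n : ℝ) ^ 6 := by
    rw [← hy11]; ring
  have h4 : (11 / 6 * (n : ℝ)) ^ 6 = (11 / 6 : ℝ) ^ 6 * (n : ℝ) ^ 6 := by ring
  have h5 : (0 : ℝ) < (n : ℝ) ^ 6 := by positivity
  have h6 : 8 ^ 8 * 3 ^ 3 * (10 / 44 : ℝ) ^ 11 < (11 / 6 : ℝ) ^ 6 := by norm_num
  have := mul_lt_mul_of_pos_right h6 h5
  rw [h3] at h2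
  nlinarith

end Pool.Agent.P.MP_c18ee8_co
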