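import Pool.Agent.P.MP_c18ee8_co.Tensor
import Pool.Agent.P.MP_c18ee8_co.Upper

namespace Pool.Agent.P.MP_c18ee8_co

open Finset Filter

theorem equiv_forward (α : ℝ) (hα : 1 ≤ α)
    (h : ∀ (G : Finset (ℤ × ℤ)) (N : ℕ), (G.image fun p => p.1).card ≤ N →
      (G.image fun p => p.2).card ≤ N → (G.image fun p => p.1 + p.2).card ≤ N →
      ((G.image fun p => p.1 - p.2).card : ℝ) ≤ (N : ℝ) ^ α) (n : ℕ) (hn : 1 ≤ n) :
    (upperIR (queensGraph n) : ℝ) ≤ 6 * n - 1 / 2 * (n : ℝ) ^ (1 / α) := by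
  obtain ⟨S, hS, hc⟩ := exists_IR (queensGraph n)
  obtain ⟨O, E, P, N, t, ht, hsum, i1, i2, m1, m2, c1, c2⟩ := structure_lemma hn S hS
  obtain ⟨a, b, hinj, h1, h2, h3⟩ := reduce_dir 0 (P 0) O (i1 0) (m1 0)
  have hO : ∀ k, (O k).card ≤ t := by
    intro k
    have : (O k).card ≤ ∑ k, (O k).card :=
      single_le_sum (f := fun k => (O k).card) (fun _ _ => Nat.zero_le _) (mem_univ k)
    omega
  have h4 := h ((P 0).image fun p => (a p, b p)) t
    (by rw [image_image]; exact h1.trans (hO _))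
    (by rw [image_image]; exact h2.trans (hO _))
    (by rw [image_image]; exact h3.trans (hO _))
  rw [image_image, card_image_of_injOn
    (f := (fun p : ℤ × ℤ => p.1 - p.2) ∘ fun p => (a p, b p))
    (fun s hs t ht he => hinj s hs t ht he)] at h4
  have h5 := c1 0
  rw [card_rng n hn] at h5
  simp only [Matrix.cons_val_zero] at h5
  have h5' : (n : ℝ) ≤ (P 0).card + t := by exact_mod_cast h5
  have hn' : (1 : ℝ) ≤ n := by exact_mod_cast hn
  have ht1 : 1 ≤ t := by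
    by_contra hc
    have : t = 0 := by omega
    rw [this] at h4 h5'
    rw [Nat.cast_zero, Real.zero_rpow (by linarith)] at h4
    rw [Nat.cast_zero] at h5'
    linarith
  have ht1' : (1 : ℝ) ≤ t := by exact_mod_cast ht1
  have h6 : (t : ℝ) ≤ (t : ℝ) ^ α := by
    calc (t : ℝ) = (t : ℝ) ^ (1 : ℝ) := (Real.rpow_one _).symm
      _ ≤ _ := Real.rpow_le_rpow_of_exponent_le ht1' hα
  have h7 : (2 : ℝ) ≤ (2 : ℝ) ^ α := by
    calc (2 : ℝ) = (2 : ℝ) ^ (1 : ℝ) := (Real.rpow_one _).symm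
      _ ≤ _ := Real.rpow_le_rpow_of_exponent_le (by norm_num) hα
  have h8 : (n : ℝ) ≤ (2 * t : ℝ) ^ α := by
    rw [Real.mul_rpow (by norm_num) (by linarith)]
    have : (0 : ℝ) ≤ (t : ℝ) ^ α := by positivity
    nlinarith
  have h9 : (n : ℝ) ^ (1 / α) ≤ 2 * t := by
    calc (n : ℝ) ^ (1 / α) ≤ ((2 * t : ℝ) ^ α) ^ (1 / α) :=
          Real.rpow_le_rpow (by linarith) h8 (by positivity)
      _ = 2 * t := by
        rw [← Real.rpow_mul (by linarith), mul_one_div_cancel (by linarith), Real.rpow_one]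
  have h10 : (upperIR (queensGraph n) : ℝ) + t + 2 = 6 * n := by
    rw [← hc]; exact_mod_cast hsum
  linarith

theorem equiv_backward (α : ℝ) (hα : 1 ≤ α) (c : ℝ) (hc : 0 < c)
    (h : ∀ n : ℕ, 1 ≤ n → (upperIR (queensGraph n) : ℝ) ≤ 6 * n - c * (n : ℝ) ^ (1 / α))
    (G : Finset (ℤ × ℤ)) (N : ℕ) (h1 : (G.image fun p => p.1).card ≤ N)
    (h2 : (G.image fun p => p.2).card ≤ N) (h3 : (G.image fun p => p.1 + p.2).card ≤ N) :
    ((G.image fun p => p.1 - p.2).card : ℝ) ≤ (N : ℝ) ^ α := by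
  by_contra hlt
  push Not at hlt
  set D := G.image fun p => p.1 - p.2 with hD
  have hg : ∀ d : ℤ, ∃ p : ℤ × ℤ, d ∈ D → p ∈ G ∧ p.1 - p.2 = d := by
    intro d
    by_cases hd : d ∈ D
    · obtain ⟨p, hp, he⟩ := mem_image.1 hd
      exact ⟨p, fun _ => ⟨hp, he⟩⟩
    · exact ⟨0, fun h => absurd h hd⟩
  choose g hg using hg
  have hD0 : 0 < D.card := by
    have : (0 : ℝ) ≤ (N : ℝ) ^ α := by positivity
    exact_mod_cast this.trans_lt hlt
  have hN : 1 ≤ N := by
    have : G.Nonempty := (image_nonempty.1 (card_pos.1 hD0))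
    exact (card_pos.2 (this.image _)).trans_le h1
  have hN' : (1 : ℝ) ≤ N := by exact_mod_cast hN
  have hD1 : (1 : ℝ) < D.card := (Real.one_le_rpow hN' (by linarith)).trans_lt hlt
  have hD2 : 2 ≤ D.card := by exact_mod_cast hD1
  have hlog : 0 < Real.log D.card := Real.log_pos hD1
  have hlogN : 0 ≤ Real.log N := Real.log_nonneg hN'
  have hα0 : 0 < α := by linarith
  have h4 : Real.log N / Real.log D.card < 1 / α := by
    have := Real.log_lt_log (by positivity) hlt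
    rw [Real.log_rpow (by linarith)] at this
    rw [div_lt_div_iff₀ hlog hα0]
    linarith
  obtain ⟨θ, hθ1, hθ2⟩ := exists_between h4
  have hθ0 : 0 ≤ θ := (div_nonneg hlogN hlog.le).trans hθ1.le
  have key : ∀ (f : ℤ × ℤ → ℤ) (a : ℤ → Unit → ℤ), (∀ d u, a d u = f (g d)) →
      (D.image a).card ≤ (G.image f).card := by
    intro f a ha
    have : D.image a ⊆ (G.image f).image fun z => fun _ => z := by
      intro y hy
      obtain ⟨d, hd, rfl⟩ := mem_image.1 hy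
      exact mem_image.2 ⟨f (g d), mem_image_of_mem f (hg d hd).1, by funext u; rw [ha]⟩
    exact (card_le_card this).trans card_image_le
  obtain ⟨C, hC⟩ := lower_of_config (κ := Unit) D (fun d _ => (g d).1) (fun d _ => (g d).2) N
    (by
      intro s hs t ht he
      have := congrFun he ()
      simp only [Pi.sub_apply] at this
      rw [← (hg s hs).2, ← (hg t ht).2, this])
    ((key _ _ (fun _ _ => rfl)).trans h1) ((key _ _ (fun _ _ => rfl)).trans h2)
    ((key (fun p => p.1 + p.2) _ (fun _ _ => rfl)).trans h3) θ hθ0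
    (by
      rw [Real.lt_rpow_iff_log_lt (by linarith) (by linarith)]
      rwa [div_lt_iff₀ hlog] at hθ1) hD2
  have ht : Tendsto (fun n : ℕ => (n : ℝ) ^ (1 / α - θ)) atTop atTop :=
    (tendsto_rpow_atTop (by linarith)).comp tendsto_natCast_atTop_atTop
  obtain ⟨n, hn1, hn2⟩ := ((ht.eventually_gt_atTop (C / c)).and (eventually_ge_atTop 1)).exists
  have a1 := hC n hn2
  have a2 := h n hn2
  have hn' : (0 : ℝ) < n := by exact_mod_cast hn2
  have a3 : (n : ℝ) ^ (1 / α) = (n : ℝ) ^ (1 / α - θ) * (n : ℝ) ^ θ := by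
    rw [← Real.rpow_add hn']; congr 1; ring
  have a4 : (0 : ℝ) < (n : ℝ) ^ θ := by positivity
  rw [div_lt_iff₀ hc] at hn1
  have := mul_lt_mul_of_pos_right hn1 a4
  rw [a3] at a2
  nlinarith

theorem equiv_main (α : ℝ) (hα : 1 ≤ α) :
    (∀ (G : Finset (ℤ × ℤ)) (N : ℕ), (G.image fun p => p.1).card ≤ N →
      (G.image fun p => p.2).card ≤ N → (G.image fun p => p.1 + p.2).card ≤ N →
      ((G.image fun p => p.1 - p.2).card : ℝ) ≤ (N : ℝ) ^ α) ↔
    ∃ c : ℝ, 0 < c ∧ ∀ n : ℕ, 1 ≤ n →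
      (upperIR (queensGraph n) : ℝ) ≤ 6 * n - c * (n : ℝ) ^ (1 / α) :=
  ⟨fun h => ⟨1 / 2, by norm_num, equiv_forward α hα h⟩,
    fun ⟨c, hc, h⟩ => equiv_backward α hα c hc h⟩

end Pool.Agent.P.MP_c18ee8_co
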