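import Pool.Agent.P.MP_c18ee8_co.Tensor

namespace Pool.Agent.P.MP_c18ee8_co

open Finset

theorem fiber_card {β : Type*} [DecidableEq β] (c : Fin 5 → ℕ) (g : Fin 5 → β) (i : β) :
    Fintype.card {x : (Σ j : Fin 5, Fin (c j)) // (g ∘ Sigma.fst) x = i} =
      ∑ j, if g j = i then c j else 0 := by
  rw [Fintype.card_subtype, card_filter, Fintype.sum_sigma]
  apply sum_congr rfl
  intro j _
  by_cases h : g j = i <;> simp [h]

theorem image_orbit_le {κ α β : Type*} [Fintype κ] [DecidableEq κ] [DecidableEq α]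
    [DecidableEq β] (f : κ → α) (g : α → β) (h : β → ℤ) (a : (κ → α) → κ → ℤ)
    (ha : ∀ w x, a w x = h (g (w x))) :
    (((univ : Finset (Equiv.Perm κ)).image fun σ : Equiv.Perm κ => f ∘ σ).image a).card ≤
      ((univ : Finset (Equiv.Perm κ)).image fun σ : Equiv.Perm κ => (g ∘ f) ∘ σ).card := by
  have : (((univ : Finset (Equiv.Perm κ)).image fun σ : Equiv.Perm κ => f ∘ σ).image a) ⊆
      ((univ : Finset (Equiv.Perm κ)).image fun σ : Equiv.Perm κ => (g ∘ f) ∘ σ).image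
        fun v => h ∘ v := by
    intro y hy
    obtain ⟨w, hw, rfl⟩ := mem_image.1 hy
    obtain ⟨σ, -, rfl⟩ := mem_image.1 hw
    refine mem_image.2 ⟨(g ∘ f) ∘ σ, mem_image_of_mem _ (mem_univ σ), ?_⟩
    funext x
    simp [ha]
  exact (card_le_card this).trans card_image_le

theorem pow_lt_of_mul (m δ K P Q : ℕ) (h1 : m * Q = K) (h2 : δ * P = K) (hK : 0 < K)
    (h : K ^ 7 * P ^ 9 < Q ^ 16) : m ^ 16 < δ ^ 9 := by
  have h3 : m ^ 16 * (Q ^ 16 * P ^ 9) < δ ^ 9 * (Q ^ 16 * P ^ 9) := by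
    calc m ^ 16 * (Q ^ 16 * P ^ 9) = (m * Q) ^ 16 * P ^ 9 := by ring
      _ = K ^ 9 * (K ^ 7 * P ^ 9) := by rw [h1]; ring
      _ < K ^ 9 * Q ^ 16 := Nat.mul_lt_mul_of_pos_left h (by positivity)
      _ = (δ * P) ^ 9 * Q ^ 16 := by rw [h2]
      _ = _ := by ring
  exact Nat.lt_of_mul_lt_mul_right h3

theorem lower_of_counts (c : Fin 5 → ℕ)
    (hA : (c 0 + c 1 + c 2 + c 3 + c 4).factorial ^ 7 * ((c 0).factorial * (c 1).factorial *
      (c 2).factorial * (c 3).factorial * (c 4).factorial) ^ 9 <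
      ((c 0).factorial * (c 1 + c 2).factorial * (c 3 + c 4).factorial) ^ 16)
    (hB : (c 0 + c 1 + c 2 + c 3 + c 4).factorial ^ 7 * ((c 0).factorial * (c 1).factorial *
      (c 2).factorial * (c 3).factorial * (c 4).factorial) ^ 9 <
      ((c 4).factorial * (c 2 + c 3).factorial * (c 0 + c 1).factorial) ^ 16)
    (hC : (c 0 + c 1 + c 2 + c 3 + c 4).factorial ^ 7 * ((c 0).factorial * (c 1).factorial *
      (c 2).factorial * (c 3).factorial * (c 4).factorial) ^ 9 <
      ((c 0 + c 2 + c 4).factorial * (c 1 + c 3).factorial) ^ 16) :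
    ∃ C : ℝ, ∀ n : ℕ, 1 ≤ n →
      6 * (n : ℝ) - C * (n : ℝ) ^ ((9 : ℝ) / 16) ≤ upperIR (queensGraph n) := by
  classical
  let κ := (Σ j : Fin 5, Fin (c j))
  let A : Fin 5 → Fin 3 := ![0, 1, 1, 2, 2]
  let B : Fin 5 → Fin 3 := ![2, 2, 1, 1, 0]
  let C : Fin 5 → Fin 2 := ![0, 1, 0, 1, 0]
  let orb : ∀ {β : Type} [DecidableEq β], (κ → β) → Finset (κ → β) := fun f =>
    (univ : Finset (Equiv.Perm κ)).image fun σ : Equiv.Perm κ => f ∘ σ
  have hκ : Fintype.card κ = c 0 + c 1 + c 2 + c 3 + c 4 := by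
    simp [κ, Fin.sum_univ_five]
  have e0 := card_orbit_mul (κ := κ) (id ∘ Sigma.fst)
  have eA := card_orbit_mul (κ := κ) (A ∘ Sigma.fst)
  have eB := card_orbit_mul (κ := κ) (B ∘ Sigma.fst)
  have eC := card_orbit_mul (κ := κ) (C ∘ Sigma.fst)
  simp only [κ, fiber_card] at e0 eA eB eC
  rw [hκ] at e0 eA eB eC
  have p0 : ∏ i : Fin 5, (∑ j, if id j = i then c j else 0).factorial =
      (c 0).factorial * (c 1).factorial * (c 2).factorial * (c 3).factorial *
        (c 4).factorial := by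
    simp [Fin.prod_univ_five]
  have pA : ∏ i : Fin 3, (∑ j, if A j = i then c j else 0).factorial =
      (c 0).factorial * (c 1 + c 2).factorial * (c 3 + c 4).factorial := by
    simp [Fin.prod_univ_three, Fin.sum_univ_five, A]
  have pB : ∏ i : Fin 3, (∑ j, if B j = i then c j else 0).factorial =
      (c 4).factorial * (c 2 + c 3).factorial * (c 0 + c 1).factorial := by
    simp [Fin.prod_univ_three, Fin.sum_univ_five, B]
  have pC : ∏ i : Fin 2, (∑ j, if C j = i then c j else 0).factorial =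
      (c 0 + c 2 + c 4).factorial * (c 1 + c 3).factorial := by
    simp [Fin.prod_univ_two, Fin.sum_univ_five, C]
  rw [p0] at e0
  rw [pA] at eA
  rw [pB] at eB
  rw [pC] at eC
  have fA := pow_lt_of_mul _ _ _ _ _ eA e0 (Nat.factorial_pos _) hA
  have fB := pow_lt_of_mul _ _ _ _ _ eB e0 (Nat.factorial_pos _) hB
  have fC := pow_lt_of_mul _ _ _ _ _ eC e0 (Nat.factorial_pos _) hC
  let T : Finset (κ → Fin 5) := orb (id ∘ Sigma.fst)
  let m := max (max (orb (A ∘ Sigma.fst)).card (orb (B ∘ Sigma.fst)).card)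
    (orb (C ∘ Sigma.fst)).card
  have hm : m ^ 16 < T.card ^ 9 := by
    simp only [m, max_def]
    split_ifs <;> assumption
  have hm1 : 1 ≤ m := by
    have : 1 ≤ (orb (C ∘ Sigma.fst)).card :=
      card_pos.2 (univ_nonempty.image _)
    exact this.trans (le_max_right _ _)
  have hT2 : 2 ≤ T.card := by
    by_contra hc
    have h1 : T.card ^ 9 ≤ 1 ^ 9 := Nat.pow_le_pow_left (by omega) 9
    have h2 : 1 ^ 16 ≤ m ^ 16 := Nat.pow_le_pow_left hm1 16
    omega
  refine lower_of_config T (fun w x => ((A (w x) : ℕ) : ℤ)) (fun w x => ((B (w x) : ℕ) : ℤ)) m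
    ?_ ?_ ?_ ?_ _ (by norm_num) ?_ hT2
  · intro s _ t _ h
    funext x
    have := congrFun h x
    simp only [Pi.sub_apply] at this
    revert this
    generalize s x = i
    generalize t x = j
    revert i j
    decide
  · exact (image_orbit_le _ A (fun z => ((z : ℕ) : ℤ)) _ (fun _ _ => rfl)).trans
      ((le_max_left _ _).trans (le_max_left _ _))
  · exact (image_orbit_le _ B (fun z => ((z : ℕ) : ℤ)) _ (fun _ _ => rfl)).trans
      ((le_max_right _ _).trans (le_max_left _ _))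
  · refine (image_orbit_le _ C (fun z => ((z : ℕ) : ℤ) + 2) _ ?_).trans (le_max_right _ _)
    intro w x
    simp only [Pi.add_apply]
    generalize w x = i
    revert i
    decide
  · have h0 : (0 : ℝ) ≤ T.card := Nat.cast_nonneg _
    apply lt_of_pow_lt_pow_left₀ 16 (Real.rpow_nonneg h0 _)
    rw [← Real.rpow_natCast ((T.card : ℝ) ^ ((9 : ℝ) / 16)), ← Real.rpow_mul h0]
    have : (9 : ℝ) / 16 * ((16 : ℕ) : ℝ) = ((9 : ℕ) : ℝ) := by norm_num
    rw [this, Real.rpow_natCast]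
    exact_mod_cast hm

theorem lower_main : ∃ C : ℝ, ∀ n : ℕ, 1 ≤ n →
    6 * (n : ℝ) - C * (n : ℝ) ^ ((9 : ℝ) / 16) ≤ upperIR (queensGraph n) :=
  lower_of_counts ![255, 2208, 4883, 2338, 316] (by decide +kernel) (by decide +kernel)
    (by decide +kernel)

end Pool.Agent.P.MP_c18ee8_co
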