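import Pool.Agent.P.MP_c18ee8_co.Gauss

namespace Pool.Agent.P.MP_c18ee8_co

open Finset Real

/-- the hexagonal quadratic form -/
noncomputable def hexQ (τ : ℝ) (w : ℤ × ℤ) : ℝ :=
  4 * τ / 3 * ((w.1 : ℝ) ^ 2 + w.1 * w.2 + (w.2 : ℝ) ^ 2)

theorem sqrt_shrink (τ h : ℝ) (hτ : 0 < τ) (h0 : 0 ≤ h) (h1 : h ≤ 1 / 4) :
    √(π / (τ * (1 - h))) ≤ exp ((h + h ^ 2) / 2) * √(π / τ) := by
  have h2 : 0 < 1 - h := by linarith
  rw [sqrt_le_iff]
  refine ⟨by positivity, ?_⟩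
  rw [mul_pow, sq_sqrt (by positivity), ← exp_nat_mul,
    show ((2 : ℕ) : ℝ) * ((h + h ^ 2) / 2) = h + h ^ 2 by push_cast; ring]
  have h3 := quadratic_le_exp_of_nonneg (show 0 ≤ h + h ^ 2 by positivity)
  have h4 : 1 / (1 - h) ≤ exp (h + h ^ 2) := by
    refine le_trans ?_ h3
    rw [div_le_iff₀ h2]
    have e : (1 + (h + h ^ 2) + (h + h ^ 2) ^ 2 / 2) * (1 - h) =
        1 + h ^ 2 * (1 / 2 - h / 2 - h ^ 2 / 2 - h ^ 3 / 2) := by ring
    have : 0 ≤ h ^ 2 * (1 / 2 - h / 2 - h ^ 2 / 2 - h ^ 3 / 2) :=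
      mul_nonneg (by positivity) (by nlinarith [mul_nonneg h0 h0])
    linarith
  calc π / (τ * (1 - h)) = 1 / (1 - h) * (π / τ) := by field_simp
    _ ≤ _ := by gcongr

theorem sqrt_grow (β h : ℝ) (hβ : 0 < β) (h0 : 0 ≤ h) :
    √(π / (β * (1 + h))) ≤ exp ((-h + h ^ 2) / 2) * √(π / β) := by
  rw [sqrt_le_iff]
  refine ⟨by positivity, ?_⟩
  rw [mul_pow, sq_sqrt (by positivity), ← exp_nat_mul,
    show ((2 : ℕ) : ℝ) * ((-h + h ^ 2) / 2) = -h + h ^ 2 by push_cast; ring]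
  have h3 := add_one_le_exp (-h + h ^ 2)
  have h4 : 1 / (1 + h) ≤ exp (-h + h ^ 2) := by
    refine le_trans ?_ h3
    rw [div_le_iff₀ (by positivity)]
    nlinarith [pow_nonneg h0 3]
  calc π / (β * (1 + h)) = 1 / (1 + h) * (π / β) := by field_simp
    _ ≤ _ := by gcongr

theorem tail_dir (ε τ h : ℝ) (hε : 0 < ε) (hτ : 0 < τ) (hb : 4 * τ ≤ ε ^ 2 / 4) (h0 : 0 ≤ h)
    (h1 : h ≤ 1 / 4) (W : Finset (ℤ × ℤ)) (e : ℤ × ℤ → ℤ × ℤ) (he : Function.Injective e)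
    (hQ : ∀ w, hexQ τ (e w) = hexQ τ w) :
    ∑ w ∈ W, exp (-hexQ τ w + h * (τ * ((e w).2 : ℝ) ^ 2)) ≤
      exp (2 * ε + (h + h ^ 2) / 2) * (√(π / (4 * τ / 3)) * √(π / τ)) := by
  have h2 : 0 < 1 - h := by linarith
  have := g2_up ε (4 * τ / 3) (τ * (1 - h)) hε (by positivity) (by linarith) (by positivity)
    (by nlinarith) (W.image e)
  rw [sum_image fun _ _ _ _ hh => he hh] at this
  calc ∑ w ∈ W, exp (-hexQ τ w + h * (τ * ((e w).2 : ℝ) ^ 2))
      = ∑ w ∈ W, exp (-(4 * τ / 3) * ((e w).1 + (e w).2 / 2) ^ 2 -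
          τ * (1 - h) * (e w).2 ^ 2) := by
        refine sum_congr rfl fun w _ => ?_
        rw [← hQ w, hexQ]; ring_nf
    _ ≤ _ := this
    _ ≤ exp (2 * ε) * (√(π / (4 * τ / 3)) * (exp ((h + h ^ 2) / 2) * √(π / τ))) := by
        gcongr; exact sqrt_shrink τ h hτ h0 h1
    _ = _ := by rw [exp_add]; ring

theorem tail_Q (ε τ h : ℝ) (hε : 0 < ε) (hτ : 0 < τ) (hb : 4 * τ ≤ ε ^ 2 / 4) (h0 : 0 ≤ h)
    (h1 : h ≤ 1 / 4) (W : Finset (ℤ × ℤ)) :
    ∑ w ∈ W, exp (-hexQ τ w + -h * hexQ τ w) ≤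
      exp (2 * ε + (-h + h ^ 2)) * (√(π / (4 * τ / 3)) * √(π / τ)) := by
  have := g2_up ε (4 * τ / 3 * (1 + h)) (τ * (1 + h)) hε (by positivity) (by nlinarith)
    (by positivity) (by nlinarith) W
  calc ∑ w ∈ W, exp (-hexQ τ w + -h * hexQ τ w)
      = ∑ w ∈ W, exp (-(4 * τ / 3 * (1 + h)) * (w.1 + w.2 / 2) ^ 2 -
          τ * (1 + h) * w.2 ^ 2) := by
        refine sum_congr rfl fun w _ => ?_
        rw [hexQ]; ring_nf
    _ ≤ _ := this
    _ ≤ exp (2 * ε) * ((exp ((-h + h ^ 2) / 2) * √(π / (4 * τ / 3))) *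
        (exp ((-h + h ^ 2) / 2) * √(π / τ))) := by
        gcongr
        · exact sqrt_grow _ h (by positivity) h0
        · exact sqrt_grow _ h hτ h0
    _ = exp (2 * ε) * (exp ((-h + h ^ 2) / 2) * exp ((-h + h ^ 2) / 2)) *
        (√(π / (4 * τ / 3)) * √(π / τ)) := by ring
    _ = _ := by rw [← exp_add, ← exp_add]; ring_nf

theorem sum_le_five {α : Type*} [DecidableEq α] (P : Finset α) (f : α → ℝ) (hf : ∀ a, 0 ≤ f a)
    (A B C D : α → Prop) [DecidablePred A] [DecidablePred B] [DecidablePred C]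
    [DecidablePred D] :
    ∑ a ∈ P, f a ≤ ∑ a ∈ P.filter fun a => A a ∧ B a ∧ C a ∧ D a, f a +
      (∑ a ∈ P.filter fun a => ¬ A a, f a + ∑ a ∈ P.filter fun a => ¬ B a, f a +
      ∑ a ∈ P.filter fun a => ¬ C a, f a + ∑ a ∈ P.filter fun a => ¬ D a, f a) := by
  simp only [sum_filter, ← sum_add_distrib]
  refine sum_le_sum fun a _ => ?_
  have := hf a
  by_cases h1 : A a <;> by_cases h2 : B a <;> by_cases h3 : C a <;> by_cases h4 : D a <;>
    simp [h1, h2, h3, h4] <;> linarith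

theorem typical (γ : ℝ) (hγ : 0 < γ) (hγ1 : γ ≤ 1 / 2) :
    ∃ (u : ℝ) (B : ℕ), 2 ≤ u ∧ ∀ n : ℕ, exp (-(γ ^ 2 / 16)) ^ n ≤ 1 / 8 →
      ∃ T : Finset (Fin n → ℤ × ℤ), (∀ w ∈ T, ∀ i, |(w i).1| ≤ B ∧ |(w i).2| ≤ B) ∧
        (u ^ 2 * (√3 / 2) * exp (-(3 * γ))) ^ n ≤ 2 * T.card ∧
        ((T.image fun w i => (w i).1).card : ℝ) ≤ u ^ n ∧
        ((T.image fun w i => (w i).2).card : ℝ) ≤ u ^ n ∧
        ((T.image fun w => (fun i => (w i).1) + fun i => (w i).2).card : ℝ) ≤ u ^ n ∧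
        ∀ d : Fin n → ℤ, (((T.filter fun w => ((fun i => (w i).1) - fun i => (w i).2) = d).image
          fun w i => (w i).1).card : ℝ) ≤ (u / 2) ^ n := by
  obtain ⟨ε, hεd⟩ : ∃ ε : ℝ, ε = γ ^ 2 / 64 := ⟨_, rfl⟩
  have hε : 0 < ε := by rw [hεd]; positivity
  have hε1 : ε ≤ 1 := by rw [hεd]; nlinarith
  obtain ⟨τ, hτd⟩ : ∃ τ : ℝ, τ = ε ^ 2 / 16 := ⟨_, rfl⟩
  have hτ : 0 < τ := by rw [hτd]; positivity
  have hb : 4 * τ ≤ ε ^ 2 / 4 := by rw [hτd]; linarith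
  obtain ⟨W, hW⟩ := g2_low ε (4 * τ / 3) τ hε hε1 (by positivity) (by linarith) hτ (by linarith)
  set P := √(π / (4 * τ / 3)) * √(π / τ) with hP
  have hP0 : 0 < P := by positivity
  have hPe : P = √(π / τ) ^ 2 * (√3 / 2) := by
    have : √(π / (4 * τ / 3)) = √(π / τ) * (√3 / 2) := by
      rw [show π / (4 * τ / 3) = π / τ * (3 / 2 ^ 2) by field_simp; norm_num,
        sqrt_mul (by positivity), sqrt_div (show (0 : ℝ) ≤ 3 by norm_num),
        sqrt_sq (by norm_num)]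
    rw [hP, this]; ring
  have hR : 2 ≤ √(π / τ) := by
    apply le_sqrt_of_sq_le
    rw [le_div_iff₀ hτ]
    nlinarith [pi_gt_three]
  refine ⟨exp ((1 + γ) / 2 + ε) * √(π / τ), W.sup fun w => w.1.natAbs + w.2.natAbs, ?_,
    fun n hn => ?_⟩
  · have := one_le_exp (show 0 ≤ (1 + γ) / 2 + ε by positivity)
    nlinarith
  let Pi := Fintype.piFinset fun _ : Fin n => W
  let N : (ℤ × ℤ → ℤ × ℤ) → (Fin n → ℤ × ℤ) → Prop := fun e w =>
    ∑ i, τ * ((e (w i)).2 : ℝ) ^ 2 ≤ n * ((1 + γ) / 2)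
  let e1 : ℤ × ℤ → ℤ × ℤ := fun w => (w.2, w.1)
  let e2 : ℤ × ℤ → ℤ × ℤ := fun w => w
  let e3 : ℤ × ℤ → ℤ × ℤ := fun w => (-w.1, w.1 + w.2)
  let D : (Fin n → ℤ × ℤ) → Prop := fun w => n * (1 - γ) ≤ ∑ i, hexQ τ (w i)
  let f : (Fin n → ℤ × ℤ) → ℝ := fun w => exp (∑ i, -hexQ τ (w i))
  let z := exp (-(2 * ε)) * P
  have hz : 0 < z := by positivity
  have hq : ∀ s : ℝ, s ≤ 2 * ε - γ ^ 2 / 8 → (exp s * P) ^ n ≤ z ^ n / 8 := by
    intro s hs
    calc (exp s * P) ^ n ≤ (exp (-(γ ^ 2 / 16)) * z) ^ n := by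
          apply pow_le_pow_left₀ (by positivity)
          rw [← mul_assoc (exp _) (exp _) P, ← exp_add]
          gcongr
          linarith
      _ ≤ 1 / 8 * z ^ n := by rw [mul_pow]; gcongr
      _ = _ := by ring
  have ht : ∀ e : ℤ × ℤ → ℤ × ℤ, Function.Injective e → (∀ w, hexQ τ (e w) = hexQ τ w) →
      ∑ w ∈ Pi.filter fun w => ¬ N e w, f w ≤ z ^ n / 8 := by
    intro e he hQ
    refine (rankin W n (fun w => -hexQ τ w) (fun _ w => γ / 2 * (τ * ((e w).2 : ℝ) ^ 2))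
      (γ / 2 * ((1 + γ) / 2)) _
      (fun _ => tail_dir ε τ (γ / 2) hε hτ hb (by positivity) (by linarith) W e he hQ) _
      (filter_subset _ _) fun w hw => ?_).trans ?_
    · have := not_le.1 (mem_filter.1 hw).2
      rw [← mul_sum]
      nlinarith
    · rw [← mul_assoc, ← exp_add]
      exact hq _ (by nlinarith)
  have htQ : ∑ w ∈ Pi.filter fun w => ¬ D w, f w ≤ z ^ n / 8 := by
    refine (rankin W n (fun w => -hexQ τ w) (fun _ w => -(γ / 2) * hexQ τ w)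
      (-(γ / 2) * (1 - γ)) _
      (fun _ => tail_Q ε τ (γ / 2) hε hτ hb (by positivity) (by linarith) W) _
      (filter_subset _ _) fun w hw => ?_).trans ?_
    · have := not_le.1 (mem_filter.1 hw).2
      rw [← mul_sum]
      nlinarith
    · rw [← mul_assoc, ← exp_add]
      exact hq _ (by nlinarith)
  have htot : z ^ n ≤ ∑ w ∈ Pi, f w := by
    rw [sum_pi_exp W n fun _ w => -hexQ τ w, prod_const, card_univ, Fintype.card_fin]
    refine pow_le_pow_left₀ hz.le (hW.trans_eq (sum_congr rfl fun w _ => ?_)) n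
    rw [hexQ]; ring_nf
  have h5 := sum_le_five Pi f (fun _ => (exp_pos _).le) (N e1) (N e2) (N e3) D
  have t1 := ht e1 (fun v w h => Prod.ext (congrArg Prod.snd h) (congrArg Prod.fst h))
    fun w => by simp only [hexQ, e1]; ring
  have t2 := ht e2 (fun v w h => h) fun w => rfl
  have t3 := ht e3 (fun v w h => by
      have h1 := congrArg Prod.fst h
      have h2 := congrArg Prod.snd h
      simp only [e3] at h1 h2
      exact Prod.ext (by omega) (by omega))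
    fun w => by simp only [hexQ, e3]; push_cast; ring
  set T := Pi.filter fun w => N e1 w ∧ N e2 w ∧ N e3 w ∧ D w with hT
  have hTs : ∑ w ∈ T, f w ≤ T.card * exp (-(1 - γ)) ^ n := by
    rw [← nsmul_eq_mul]
    refine sum_le_card_nsmul _ _ _ fun w hw => ?_
    have := (mem_filter.1 hw).2.2.2.2
    rw [← exp_nat_mul, exp_le_exp, sum_neg_distrib]
    simp only [D] at this
    linarith
  refine ⟨T, fun w hw i => ?_, ?_, ?_, ?_, ?_, fun d => ?_⟩
  · have h1 := le_sup (f := fun w : ℤ × ℤ => w.1.natAbs + w.2.natAbs)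
      (Fintype.mem_piFinset.1 (mem_filter.1 hw).1 i)
    rw [← Int.natCast_natAbs, ← Int.natCast_natAbs]
    constructor
    · exact_mod_cast (Nat.le_add_right _ _).trans h1
    · exact_mod_cast (Nat.le_add_left _ _).trans h1
  · have h1 : z ^ n ≤ 2 * T.card * exp (-(1 - γ)) ^ n := by linarith
    have h2 : (exp ((1 + γ) / 2 + ε) * √(π / τ)) ^ 2 * (√3 / 2) * exp (-(3 * γ)) *
        exp (-(1 - γ)) ≤ z := by
      simp only [z, hPe]
      have : exp ((1 + γ) / 2 + ε) ^ 2 * exp (-(3 * γ)) * exp (-(1 - γ)) ≤ exp (-(2 * ε)) := by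
        rw [← exp_nat_mul, ← exp_add, ← exp_add, exp_le_exp]
        push_cast
        nlinarith
      calc _ = exp ((1 + γ) / 2 + ε) ^ 2 * exp (-(3 * γ)) * exp (-(1 - γ)) *
            (√(π / τ) ^ 2 * (√3 / 2)) := by ring
        _ ≤ _ := by gcongr
    have h3 := (pow_le_pow_left₀ (by positivity) h2 n).trans h1
    rw [mul_pow] at h3
    exact le_of_mul_le_mul_right h3 (by positivity)
  · refine ball_card ε τ _ hε hτ (by linarith) n (fun _ => 0) _ fun x hx => ?_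
    obtain ⟨w, hw, rfl⟩ := mem_image.1 hx
    simpa [N, e1] using (mem_filter.1 hw).2.1
  · refine ball_card ε τ _ hε hτ (by linarith) n (fun _ => 0) _ fun x hx => ?_
    obtain ⟨w, hw, rfl⟩ := mem_image.1 hx
    simpa [N, e2] using (mem_filter.1 hw).2.2.1
  · refine ball_card ε τ _ hε hτ (by linarith) n (fun _ => 0) _ fun x hx => ?_
    obtain ⟨w, hw, rfl⟩ := mem_image.1 hx
    simpa [N, e3] using (mem_filter.1 hw).2.2.2.1
  · refine (ball_card ε (4 * τ) ((1 + γ) / 2) hε (by positivity) hb n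
      (fun i => -(d i : ℝ) / 2) _ fun x hx => ?_).trans_eq ?_
    · obtain ⟨w, hw, rfl⟩ := mem_image.1 hx
      obtain ⟨hw', rfl⟩ := mem_filter.1 hw
      refine le_trans (le_of_eq (sum_congr rfl fun i _ => ?_)) (mem_filter.1 hw').2.2.2.1
      simp only [e3, _root_.Pi.sub_apply]
      push_cast
      ring
    · rw [show π / (4 * τ) = π / τ / 2 ^ 2 by field_simp; norm_num,
        sqrt_div (by positivity), sqrt_sq (by norm_num), mul_div_assoc]

end Pool.Agent.P.MP_c18ee8_co
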