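import Pool.Agent.P.MP_db4732_co.Ent

/-! Towers of conditionally independent copies of an edge, and entropies of linear forms. -/

namespace Pool.Agent.P.MP_c18ee8_co.KT

open Finset Real Pool.Agent.P.MP_db4732_co.Ent

abbrev Fm : Type := List ℤ

def dot : Fm → (ℕ → ℤ) → ℤ
  | [], _ => 0
  | a :: f, z => a * z 0 + dot f fun i => z (i + 1)

theorem dot_realize : True := by have := @dot.eq_def; trivial

def vadd : Fm → Fm → Fm
  | [], g => g
  | a :: f, [] => a :: f
  | a :: f, b :: g => (a + b) :: vadd f g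

theorem vadd_realize : True := by have := @vadd.eq_def; trivial

def vsm (k : ℤ) (f : Fm) : Fm := f.map fun a => k * a

def lin : Fm → List Fm → Fm
  | c :: cs, f :: fs => vadd (vsm c f) (lin cs fs)
  | _, _ => []

theorem lin_realize : True := by have := @lin.eq_def; trivial

def veq (f g : Fm) : Bool := (vadd f (vsm (-1) g)).all fun a => a == 0

def unit (k : ℕ) : Fm := List.replicate k 0 ++ [1]

def units (n : ℕ) : List Fm := (List.range n).map unit

theorem dot_vadd : ∀ (f g : Fm) (z : ℕ → ℤ), dot (vadd f g) z = dot f z + dot g z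
  | [], g, z => by simp [vadd, dot]
  | a :: f, [], z => by simp [vadd, dot]
  | a :: f, b :: g, z => by simp only [vadd, dot, dot_vadd f g]; ring

theorem dot_vsm (k : ℤ) : ∀ (f : Fm) (z : ℕ → ℤ), dot (vsm k f) z = k * dot f z
  | [], z => by simp [vsm, dot]
  | a :: f, z => by
    have := dot_vsm k f fun i => z (i + 1)
    simp only [vsm, List.map_cons, dot] at this ⊢
    rw [this]; ring

theorem dot_zero : ∀ (f : Fm) (z : ℕ → ℤ), (f.all fun a => a == 0) = true → dot f z = 0
  | [], z, _ => rfl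
  | a :: f, z, h => by
    simp only [List.all_cons, Bool.and_eq_true, beq_iff_eq] at h
    simp [dot, h.1, dot_zero f _ h.2]

theorem dot_veq {f g : Fm} (h : veq f g = true) (z : ℕ → ℤ) : dot f z = dot g z := by
  have := dot_zero _ z h
  rw [dot_vadd, dot_vsm] at this
  linarith

theorem dot_congr : ∀ (f : Fm) {z z' : ℕ → ℤ}, (∀ i < f.length, z i = z' i) → dot f z = dot f z'
  | [], _, _, _ => rfl
  | a :: f, z, z', h => by
    simp only [dot]
    rw [h 0 (by simp), dot_congr f (z := fun i => z (i + 1)) (z' := fun i => z' (i + 1))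
      fun i hi => h (i + 1) (by simpa using hi)]

theorem dot_shift : ∀ (n : ℕ) (f : Fm) (z : ℕ → ℤ),
    dot (List.replicate n 0 ++ f) z = dot f fun i => z (i + n)
  | 0, f, z => by simp
  | n + 1, f, z => by
    simp only [List.replicate_succ, List.cons_append, dot, dot_shift n f, zero_mul, zero_add]
    rfl

theorem dot_unit (k : ℕ) (z : ℕ → ℤ) : dot (unit k) z = z k := by
  simp [unit, dot_shift, dot]

theorem dot_lin : ∀ (c : Fm) (M : List Fm) (z : ℕ → ℤ),
    dot (lin c M) z = dot c fun k => dot (M.getD k []) z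
  | [], M, z => by simp [lin, dot]
  | a :: c, [], z => by
    have : ∀ f : Fm, dot f (fun _ => 0) = 0 := fun f => by
      induction f with
      | nil => rfl
      | cons b f ih => simp [dot, ih]
    simp [lin, dot, this]
  | a :: c, f :: M, z => by
    simp [lin, dot, dot_vadd, dot_vsm, dot_lin c M z]

theorem dot_lin_agree (c : Fm) {K : List Fm} {z z' : ℕ → ℤ} (h : ∀ f ∈ K, dot f z = dot f z') :
    dot (lin c K) z = dot (lin c K) z' := by
  rw [dot_lin, dot_lin]
  congr 1
  funext k
  by_cases hk : k < K.length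
  · rw [List.getD_eq_getElem _ _ hk]; exact h _ (List.getElem_mem hk)
  · rw [List.getD_eq_default _ _ (not_lt.1 hk)]; rfl

/-- a tower: the edge, or two copies of a tower glued along the forms `S`; `C` are the new
coordinates and `ab` writes the old coordinates through `S` and `C` -/
inductive Cf where
  | base : Cf
  | dbl (Y : Cf) (S C : List Fm) (ab : List (Fm × Fm)) : Cf

namespace Cf

def dim : Cf → ℕ
  | base => 2
  | dbl Y _ C _ => Y.dim + C.length

theorem dim_realize : True := by have := @dim.eq_def; trivial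

def Om (G : Finset (ℤ × ℤ)) : Cf → Type
  | base => G
  | dbl Y _ _ _ => Y.Om G × Y.Om G

theorem Om_realize : True := by have := @Om.eq_def; trivial

@[reducible] def fin (G : Finset (ℤ × ℤ)) : ∀ c : Cf, Fintype (c.Om G)
  | base => (inferInstance : Fintype G)
  | dbl Y _ _ _ => @instFintypeProd _ _ (fin G Y) (fin G Y)

theorem fin_realize : True := by have := @fin.eq_def; trivial

instance (G : Finset (ℤ × ℤ)) (c : Cf) : Fintype (c.Om G) := fin G c

def Z (G : Finset (ℤ × ℤ)) : ∀ c : Cf, c.Om G → ℕ → ℤ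
  | base => fun w i => if i = 0 then w.1.1 else if i = 1 then w.1.2 else 0
  | dbl Y _ C _ => fun w i =>
    if i < Y.dim then Z G Y w.1 i else dot (C.getD (i - Y.dim) []) (Z G Y w.2)

theorem Z_realize : True := by have := @Z.eq_def; trivial

/-- values of a list of forms -/
def ev (G : Finset (ℤ × ℤ)) (c : Cf) (L : List Fm) (w : c.Om G) : List ℤ :=
  L.map fun f => dot f (c.Z G w)

noncomputable def pr (G : Finset (ℤ × ℤ)) : ∀ c : Cf, c.Om G → ℝ
  | base => fun _ => (G.card : ℝ)⁻¹
  | dbl Y S _ _ => glue (pr G Y) (Y.ev G S)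

theorem pr_realize : True := by have := @pr.eq_def; trivial

noncomputable def H (G : Finset (ℤ × ℤ)) (c : Cf) (L : List Fm) : ℝ := ent (c.pr G) (c.ev G L)

def m2 (n : ℕ) (S : List Fm) (ab : List (Fm × Fm)) : List Fm :=
  ab.map fun t => vadd (lin t.1 S) (List.replicate n 0 ++ t.2)

def ok : Cf → Bool
  | base => true
  | dbl Y S C ab => Y.ok && (ab.length == Y.dim) && (S.all fun f => f.length ≤ Y.dim) &&
      (C.all fun f => f.length ≤ Y.dim) &&
      (List.range Y.dim).all fun k =>
        veq (unit k) (vadd (lin (ab.getD k ([], [])).1 S) (lin (ab.getD k ([], [])).2 C))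

theorem ok_realize : True := by have := @ok.eq_def; trivial

variable {G : Finset (ℤ × ℤ)}

theorem isP (hG : G.Nonempty) : ∀ c : Cf, IsP (c.pr G)
  | base => by
    have : (G.card : ℝ) ≠ 0 := by exact_mod_cast hG.card_pos.ne'
    refine ⟨fun _ => by simp [pr], ?_⟩
    show ∑ _w : G, (G.card : ℝ)⁻¹ = 1
    simp [this]
  | dbl Y S _ _ => glue_isP (isP hG Y) _

theorem Z_zero : ∀ (c : Cf) (w : c.Om G) (i : ℕ), c.dim ≤ i → c.Z G w i = 0
  | base, w, i, h => by
    have h' : 2 ≤ i := h
    simp only [Z]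
    rw [if_neg (by omega), if_neg (by omega)]
  | dbl Y S C ab, w, i, h => by
    have h' : Y.dim + C.length ≤ i := h
    simp only [Z]
    rw [if_neg (by omega), List.getD_eq_default _ _ (by omega)]
    rfl

theorem ev_eq {c : Cf} {L : List Fm} {w w' : c.Om G} :
    c.ev G L w = c.ev G L w' ↔ ∀ f ∈ L, dot f (c.Z G w) = dot f (c.Z G w') := by
  simp [ev]

theorem dot_fst (Y : Cf) (S C : List Fm) (ab : List (Fm × Fm)) (w : Y.Om G × Y.Om G) {f : Fm}
    (hf : f.length ≤ Y.dim) : dot f ((dbl Y S C ab).Z G w) = dot f (Y.Z G w.1) :=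
  dot_congr f fun i hi => by simp only [Z]; rw [if_pos (by omega)]

theorem len_vadd : ∀ (f g : Fm) (n : ℕ), f.length ≤ n → g.length ≤ n → (vadd f g).length ≤ n
  | [], _, _, _, h => h
  | _ :: _, [], _, h, _ => h
  | _ :: f, _ :: g, 0, h, _ => by simp at h
  | _ :: f, _ :: g, n + 1, h, h' => by
    simpa [vadd] using len_vadd f g n (by simpa using h) (by simpa using h')

theorem len_lin : ∀ (c : Fm) (M : List Fm) (n : ℕ), (∀ f ∈ M, f.length ≤ n) → (lin c M).length ≤ n
  | [], _, _, _ => by simp [lin]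
  | _ :: _, [], _, _ => by simp [lin]
  | a :: c, f :: M, n, h => len_vadd _ _ n (by simpa [vsm] using h f (by simp))
      (len_lin c M n fun g hg => h g (by simp [hg]))

theorem Z_snd {Y : Cf} {S C : List Fm} {ab : List (Fm × Fm)} (h : (dbl Y S C ab).ok = true)
    {w : Y.Om G × Y.Om G} (hw : (dbl Y S C ab).pr G w ≠ 0) (k : ℕ) :
    Y.Z G w.2 k = dot ((m2 Y.dim S ab).getD k []) ((dbl Y S C ab).Z G w) := by
  simp only [ok, Bool.and_eq_true, beq_iff_eq, List.all_eq_true, decide_eq_true_eq,
    List.mem_range] at h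
  obtain ⟨⟨⟨⟨-, hl⟩, hS⟩, -⟩, hk⟩ := h
  by_cases hkd : k < Y.dim
  · have h1 := dot_veq (hk k hkd) (Y.Z G w.2)
    have hk' : k < ab.length := by omega
    rw [List.getD_eq_getElem _ _ hk'] at h1
    rw [List.getD_eq_getElem _ _ (by simpa [m2] using hk')]
    simp only [m2, List.getElem_map]
    rw [dot_unit, dot_vadd] at h1
    rw [h1, dot_vadd, dot_fst Y S C ab w (len_lin _ _ _ hS), dot_shift,
      dot_lin_agree _ (ev_eq.1 (glue_ne hw).1), dot_lin _ C]
    congr 2
    funext i
    simp only [Z]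
    rw [if_neg (by omega), Nat.add_sub_cancel]
  · rw [Z_zero Y _ k (by omega), List.getD_eq_default _ _ (by simp [m2]; omega)]
    rfl

theorem dot_snd {Y : Cf} {S C : List Fm} {ab : List (Fm × Fm)} (h : (dbl Y S C ab).ok = true)
    {w : Y.Om G × Y.Om G} (hw : (dbl Y S C ab).pr G w ≠ 0) (f : Fm) :
    dot (lin f (m2 Y.dim S ab)) ((dbl Y S C ab).Z G w) = dot f (Y.Z G w.2) := by
  rw [dot_lin]
  congr 1
  funext k
  exact (Z_snd h hw k).symm

theorem ok_par {Y : Cf} {S C : List Fm} {ab : List (Fm × Fm)} (h : (dbl Y S C ab).ok = true) :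
    Y.ok = true := by
  simp only [ok, Bool.and_eq_true] at h
  exact h.1.1.1.1

theorem inj : ∀ (c : Cf), c.ok = true → ∀ w w' : c.Om G, c.pr G w ≠ 0 → c.pr G w' ≠ 0 →
    c.Z G w = c.Z G w' → w = w'
  | base, _, w, w', _, _, h => by
    have h0 := congrFun h 0
    have h1 := congrFun h 1
    simp only [Z] at h0 h1
    exact Subtype.ext (Prod.ext (by simpa using h0) (by simpa using h1))
  | dbl Y S C ab, hc, w, w', hw, hw', h => by
    refine Prod.ext (inj Y (ok_par hc) _ _ (glue_ne hw).2.1 (glue_ne hw').2.1 ?_)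
      (inj Y (ok_par hc) _ _ (glue_ne hw).2.2 (glue_ne hw').2.2 ?_)
    · funext i
      by_cases hi : i < Y.dim
      · have := congrFun h i
        simp only [Z] at this
        rwa [if_pos hi, if_pos hi] at this
      · rw [Z_zero Y _ i (by omega), Z_zero Y _ i (by omega)]
    · funext i
      rw [Z_snd hc hw, Z_snd hc hw', h]

theorem ent_eq {Ω α β : Type} [Fintype Ω] {p : Ω → ℝ} (hp : IsP p) {X : Ω → α} {Y : Ω → β}
    (h : ∀ w w', p w ≠ 0 → p w' ≠ 0 → (X w = X w' ↔ Y w = Y w')) : ent p X = ent p Y :=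
  le_antisymm (ent_mono hp fun w w' a b e => (h w w' a b).2 e)
    (ent_mono hp fun w w' a b e => (h w w' a b).1 e)

theorem H_top (hG : G.Nonempty) {c : Cf} (hc : c.ok = true) :
    c.H G (units c.dim) = ent (c.pr G) id := by
  refine ent_eq (isP hG c) fun w w' a b => ⟨fun e => inj c hc _ _ a b ?_, fun e => by
    have e' : w = w' := e
    rw [e']⟩
  funext i
  by_cases hi : i < c.dim
  · have := ev_eq.1 e (unit i) (List.mem_map.2 ⟨i, List.mem_range.2 hi, rfl⟩)
    rwa [dot_unit, dot_unit] at this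
  · rw [Z_zero c _ i (by omega), Z_zero c _ i (by omega)]

theorem H_ci (hG : G.Nonempty) {Y : Cf} {S C : List Fm} {ab : List (Fm × Fm)}
    (h : (dbl Y S C ab).ok = true) :
    (dbl Y S C ab).H G (units (dbl Y S C ab).dim) + Y.H G S = 2 * Y.H G (units Y.dim) := by
  rw [H_top hG h, H_top hG (ok_par h)]
  have := ent_glue_id (isP hG Y) (Y.ev G S)
  have e : ent ((dbl Y S C ab).pr G) id = ent (glue (Y.pr G) (Y.ev G S)) id := rfl
  rw [e, this, H]; ring

end Cf

end Pool.Agent.P.MP_c18ee8_co.KT
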