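import Pool.Agent.P.MP_c18ee8_co.KTa

/-! Copies of one tower inside another, and symmetries. -/

namespace Pool.Agent.P.MP_c18ee8_co.KT

open Finset Real Pool.Agent.P.MP_db4732_co.Ent

def ap (M : List Fm) (z : ℕ → ℤ) : ℕ → ℤ := fun k => dot (M.getD k []) z

def mp (M L : List Fm) : List Fm := L.map fun f => lin f M

def vals (L : List Fm) (z : ℕ → ℤ) : List ℤ := L.map fun f => dot f z

def jn (n : ℕ) (C : List Fm) (z z' : ℕ → ℤ) : ℕ → ℤ := fun i =>
  if i < n then z i else dot (C.getD (i - n) []) z'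

theorem dot_ap (f : Fm) (M : List Fm) (z : ℕ → ℤ) : dot (lin f M) z = dot f (ap M z) :=
  dot_lin f M z

theorem ap_mp (M N : List Fm) (z : ℕ → ℤ) : ap (mp M N) z = ap N (ap M z) := by
  funext k
  by_cases hk : k < N.length
  · show dot ((mp M N).getD k []) z = dot (N.getD k []) (ap M z)
    rw [List.getD_eq_getElem _ _ hk, List.getD_eq_getElem _ _ (by simpa [mp] using hk)]
    simp only [mp, List.getElem_map, dot_ap]
  · show dot ((mp M N).getD k []) z = dot (N.getD k []) (ap M z)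
    rw [List.getD_eq_default _ _ (not_lt.1 hk), List.getD_eq_default _ _ (by simpa [mp] using hk)]
    rfl

theorem vals_mp (M L : List Fm) (z : ℕ → ℤ) : vals (mp M L) z = vals L (ap M z) := by
  simp [vals, mp, dot_ap]

theorem ap_units (n : ℕ) (z : ℕ → ℤ) (k : ℕ) : ap (units n) z k = if k < n then z k else 0 := by
  unfold ap
  split_ifs with hk
  · rw [List.getD_eq_getElem _ _ (by simpa [units] using hk)]
    simp [units, dot_unit]
  · rw [List.getD_eq_default _ _ (by simpa [units] using hk)]; rfl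

theorem ap_app {A : List Fm} {n : ℕ} (hA : A.length = n) (B C : List Fm) (z : ℕ → ℤ) :
    ap (A ++ mp B C) z = jn n C (ap A z) (ap B z) := by
  funext k
  unfold jn
  split_ifs with hk
  · show dot ((A ++ mp B C).getD k []) z = dot (A.getD k []) z
    rw [List.getD_append _ _ _ _ (by omega)]
  · show dot ((A ++ mp B C).getD k []) z = _
    rw [List.getD_append_right _ _ _ _ (by omega), hA]
    exact congrFun (ap_mp B C z) (k - n)

namespace Cf

variable {G : Finset (ℤ × ℤ)}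

/-- the forms `M` on `X` have the law of the coordinates of `Y` -/
def Emb (G : Finset (ℤ × ℤ)) (X Y : Cf) (M : List Fm) : Prop :=
  ∀ φ : (ℕ → ℤ) → ℝ, ∑ w, X.pr G w * φ (ap M (X.Z G w)) = ∑ w, Y.pr G w * φ (Y.Z G w)

theorem law_emb {X Y : Cf} {M : List Fm} (h : Emb G X Y M) (L : List Fm) (v : List ℤ) :
    law (X.pr G) (X.ev G (mp M L)) v = law (Y.pr G) (Y.ev G L) v := by
  classical
  have := h fun z => if vals L z = v then 1 else 0
  simp only [mul_ite, mul_one, mul_zero] at this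
  unfold law
  convert this using 3 with w
  all_goals first | exact vals_mp M L _ | rfl | (rw [← vals_mp]; rfl)

theorem H_emb {X Y : Cf} {M : List Fm} (h : Emb G X Y M) (L : List Fm) :
    X.H G (mp M L) = Y.H G L := by
  have := h fun z => log (law (Y.pr G) (Y.ev G L) (vals L z))
  unfold H ent
  simp_rw [law_emb h]
  congr 1
  refine Eq.trans (sum_congr rfl fun w _ => ?_) this
  rw [← vals_mp]; rfl

theorem Emb.comp {X Y W : Cf} {M N : List Fm} (h : Emb G X Y M) (h' : Emb G Y W N) :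
    Emb G X W (mp M N) := fun φ => by
  simp_rw [ap_mp]
  exact (h fun z => φ (ap N z)).trans (h' φ)

theorem ap_id (c : Cf) (w : c.Om G) : ap (units c.dim) (c.Z G w) = c.Z G w := by
  funext k
  rw [ap_units]
  split_ifs with hk
  · rfl
  · exact (Z_zero c w k (not_lt.1 hk)).symm

theorem emb_id (c : Cf) : Emb G c c (units c.dim) := fun φ => by simp_rw [ap_id]

theorem ap_fst (Y : Cf) (S C : List Fm) (ab : List (Fm × Fm)) (w : Y.Om G × Y.Om G) :
    ap (units Y.dim) ((dbl Y S C ab).Z G w) = Y.Z G w.1 := by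
  funext k
  rw [ap_units]
  split_ifs with hk
  · simp only [Z]; rw [if_pos hk]
  · exact (Z_zero Y _ k (not_lt.1 hk)).symm

theorem ap_snd {Y : Cf} {S C : List Fm} {ab : List (Fm × Fm)} (h : (dbl Y S C ab).ok = true)
    {w : Y.Om G × Y.Om G} (hw : (dbl Y S C ab).pr G w ≠ 0) :
    ap (m2 Y.dim S ab) ((dbl Y S C ab).Z G w) = Y.Z G w.2 := by
  funext k
  exact (Z_snd h hw k).symm

theorem emb_fst (hG : G.Nonempty) (Y : Cf) (S C : List Fm) (ab : List (Fm × Fm)) :
    Emb G (dbl Y S C ab) Y (units Y.dim) := fun φ => by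
  have := glue_fst (isP hG Y) (Y.ev G S) fun a => φ (Y.Z G a)
  refine Eq.trans (sum_congr rfl fun w _ => ?_) this
  rw [ap_fst Y S C ab w]; rfl

theorem emb_snd (hG : G.Nonempty) {Y : Cf} {S C : List Fm} {ab : List (Fm × Fm)}
    (h : (dbl Y S C ab).ok = true) : Emb G (dbl Y S C ab) Y (m2 Y.dim S ab) := fun φ => by
  have := glue_snd (isP hG Y) (Y.ev G S) fun a => φ (Y.Z G a)
  refine Eq.trans (sum_congr rfl fun w _ => ?_) this
  by_cases hw : (dbl Y S C ab).pr G w = 0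
  · have hw' : glue (Y.pr G) (Y.ev G S) w = 0 := hw
    rw [hw, hw', zero_mul, zero_mul]
  · rw [ap_snd h hw]; rfl

theorem len_m2 {Y : Cf} {S C : List Fm} {ab : List (Fm × Fm)} (h : (dbl Y S C ab).ok = true) :
    (m2 Y.dim S ab).length = Y.dim := by
  simp only [ok, Bool.and_eq_true, beq_iff_eq] at h
  simp [m2, h.1.1.1.2]

theorem emb_swap {Y : Cf} {S C : List Fm} {ab : List (Fm × Fm)} (h : (dbl Y S C ab).ok = true) :
    Emb G (dbl Y S C ab) (dbl Y S C ab) (m2 Y.dim S ab ++ mp (units Y.dim) C) := fun φ => by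
  refine Fintype.sum_equiv (Equiv.prodComm (Y.Om G) (Y.Om G)) _ _ fun w => ?_
  have e : (dbl Y S C ab).pr G (Equiv.prodComm (Y.Om G) (Y.Om G) w) = (dbl Y S C ab).pr G w :=
    glue_swap (Y.ev G S) w.2 w.1
  rw [e]
  by_cases hw : (dbl Y S C ab).pr G w = 0
  · rw [hw, zero_mul, zero_mul]
  · rw [ap_app (len_m2 h), ap_snd h hw, ap_fst Y S C ab w]; rfl

theorem emb_lift {Y : Cf} {S C σ : List Fm} {ab : List (Fm × Fm)}
    (h : (dbl Y S C ab).ok = true) (hσ : Emb G Y Y σ) (hl : σ.length = Y.dim)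
    (hS : ∀ z z', vals S (ap σ z) = vals S (ap σ z') ↔ vals S z = vals S z') :
    Emb G (dbl Y S C ab) (dbl Y S C ab)
      (mp (units Y.dim) σ ++ mp (mp (m2 Y.dim S ab) σ) C) := fun φ => by
  classical
  set l := law (Y.pr G) (Y.ev G S) with hlaw
  let ψ : (ℕ → ℤ) → (ℕ → ℤ) → ℝ := fun z z' =>
    if vals S z = vals S z' then φ (jn Y.dim C z z') / l (vals S z) else 0
  have hl2 : ∀ a, l (vals S (ap σ (Y.Z G a))) = l (vals S (Y.Z G a)) := fun a => by
    rw [hlaw, ← law_emb hσ S]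
    unfold law
    refine sum_congr rfl fun b _ => ?_
    have : Y.ev G (mp σ S) b = vals S (ap σ (Y.Z G b)) := vals_mp σ S _
    rw [this]
    by_cases hc : vals S (Y.Z G b) = vals S (Y.Z G a)
    · rw [if_pos ((hS _ _).2 hc), if_pos (show Y.ev G S b = _ from hc)]
    · rw [if_neg fun e => hc ((hS _ _).1 e), if_neg (show ¬ Y.ev G S b = _ from hc)]
  have e1 : ∀ w : Y.Om G × Y.Om G, (dbl Y S C ab).pr G w *
      φ (ap (mp (units Y.dim) σ ++ mp (mp (m2 Y.dim S ab) σ) C) ((dbl Y S C ab).Z G w)) =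
      Y.pr G w.1 * (Y.pr G w.2 * ψ (ap σ (Y.Z G w.1)) (ap σ (Y.Z G w.2))) := fun w => by
    have e : (dbl Y S C ab).pr G w * φ (jn Y.dim C (ap σ (Y.Z G w.1)) (ap σ (Y.Z G w.2))) =
        Y.pr G w.1 * (Y.pr G w.2 * ψ (ap σ (Y.Z G w.1)) (ap σ (Y.Z G w.2))) := by
      show glue (Y.pr G) (Y.ev G S) w * _ = _
      simp only [ψ, glue, hS, hl2]
      by_cases hc : vals S (Y.Z G w.1) = vals S (Y.Z G w.2)
      · have hc' : Y.ev G S w.1 = Y.ev G S w.2 := hc
        rw [if_pos hc, if_pos hc']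
        show _ / l (vals S (Y.Z G w.1)) * _ = _
        ring
      · have hc' : ¬ Y.ev G S w.1 = Y.ev G S w.2 := hc
        rw [if_neg hc, if_neg hc']; ring
    by_cases hw : (dbl Y S C ab).pr G w = 0
    · rw [← e, hw, zero_mul, zero_mul]
    · rw [← e, ap_app (n := Y.dim) (by simp [mp, hl]), ap_mp, ap_mp, ap_snd h hw,
        ap_fst Y S C ab w]
  have e2 : ∀ w : Y.Om G × Y.Om G, (dbl Y S C ab).pr G w * φ ((dbl Y S C ab).Z G w) =
      Y.pr G w.1 * (Y.pr G w.2 * ψ (Y.Z G w.1) (Y.Z G w.2)) := fun w => by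
    show glue (Y.pr G) (Y.ev G S) w * φ (jn Y.dim C (Y.Z G w.1) (Y.Z G w.2)) = _
    simp only [ψ, glue]
    by_cases hc : vals S (Y.Z G w.1) = vals S (Y.Z G w.2)
    · have hc' : Y.ev G S w.1 = Y.ev G S w.2 := hc
      rw [if_pos hc, if_pos hc']
      show _ / l (vals S (Y.Z G w.1)) * _ = _
      ring
    · have hc' : ¬ Y.ev G S w.1 = Y.ev G S w.2 := hc
      rw [if_neg hc, if_neg hc']; ring
  refine (sum_congr rfl fun w _ => e1 w).trans (Eq.trans ?_ (sum_congr rfl fun w _ => e2 w).symm)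
  show ∑ w : Y.Om G × Y.Om G, _ = ∑ w : Y.Om G × Y.Om G, _
  rw [Fintype.sum_prod_type, Fintype.sum_prod_type]
  simp only [← mul_sum]
  refine Eq.trans (sum_congr rfl fun a _ => ?_)
    (hσ fun z => ∑ b, Y.pr G b * ψ z (Y.Z G b))
  rw [hσ (ψ (ap σ (Y.Z G a)))]

end Cf

end Pool.Agent.P.MP_c18ee8_co.KT
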