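import Pool.Agent.P.MP_c18ee8_co.KTb

/-! A checker for entropy certificates on towers. -/

namespace Pool.Agent.P.MP_c18ee8_co.KT

open Finset Real Pool.Agent.P.MP_db4732_co.Ent

def Agree (K : List Fm) (z z' : ℕ → ℤ) : Prop := ∀ f ∈ K, dot f z = dot f z'

theorem vals_eq {K : List Fm} {z z' : ℕ → ℤ} : vals K z = vals K z' ↔ Agree K z z' := by
  simp [vals, Agree]

/-- a nonzero multiple of `f` is the combination `t.2` of `K` -/
def inSp (K : List Fm) (f : Fm) (t : ℤ × Fm) : Bool := t.1 != 0 && veq (vsm t.1 f) (lin t.2 K)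

theorem inSp_sound {K : List Fm} {f : Fm} {t : ℤ × Fm} (h : inSp K f t = true) {z z' : ℕ → ℤ}
    (hz : Agree K z z') : dot f z = dot f z' := by
  simp only [inSp, Bool.and_eq_true, bne_iff_ne] at h
  have h1 := dot_veq h.2 z
  have h2 := dot_veq h.2 z'
  rw [dot_vsm] at h1 h2
  exact mul_left_cancel₀ h.1 (h1.trans ((dot_lin_agree _ hz).trans h2.symm))

def allSp (K : List Fm) : List Fm → List (ℤ × Fm) → Bool
  | [], _ => true
  | _ :: _, [] => false
  | f :: L, t :: u => inSp K f t && allSp K L u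

theorem allSp_realize : True := by have := @allSp.eq_def; trivial

theorem allSp_sound {K : List Fm} {z z' : ℕ → ℤ} (hz : Agree K z z') :
    ∀ (L : List Fm) (u : List (ℤ × Fm)), allSp K L u = true → Agree L z z'
  | [], _, _ => fun _ hf => by simp at hf
  | _ :: _, [], h => by simp [allSp] at h
  | f :: L, t :: u, h => by
    simp only [allSp, Bool.and_eq_true] at h
    exact List.forall_mem_cons.2 ⟨inSp_sound h.1 hz, allSp_sound hz L u h.2⟩

/-- `K` determines `L`, using that the difference of an edge determines the edge -/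
def det (E : List (Fm × Fm)) (L : List Fm) (u : List (ℤ × Fm)) :
    List (ℕ × ℤ × Fm) → List Fm → Bool
  | [], K => allSp K L u
  | s :: st, K => inSp K (vadd (E.getD s.1 ([], [])).1 (vsm (-1) (E.getD s.1 ([], [])).2)) s.2 &&
      det E L u st ((E.getD s.1 ([], [])).1 :: (E.getD s.1 ([], [])).2 :: K)

theorem det_realize : True := by have := @det.eq_def; trivial

theorem det_sound {E : List (Fm × Fm)} {L : List Fm} {u : List (ℤ × Fm)} {z z' : ℕ → ℤ}
    (hE : ∀ e ∈ E, dot e.1 z - dot e.2 z = dot e.1 z' - dot e.2 z' →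
      dot e.1 z = dot e.1 z' ∧ dot e.2 z = dot e.2 z') :
    ∀ (st : List (ℕ × ℤ × Fm)) (K : List Fm), det E L u st K = true → Agree K z z' → Agree L z z'
  | [], K, h, hz => allSp_sound hz L u h
  | s :: st, K, h, hz => by
    simp only [det, Bool.and_eq_true] at h
    have h1 := inSp_sound h.1 hz
    rw [dot_vadd, dot_vadd, dot_vsm, dot_vsm] at h1
    have h2 : dot (E.getD s.1 ([], [])).1 z = dot (E.getD s.1 ([], [])).1 z' ∧
        dot (E.getD s.1 ([], [])).2 z = dot (E.getD s.1 ([], [])).2 z' := by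
      by_cases hs : s.1 < E.length
      · rw [List.getD_eq_getElem _ _ hs] at h1 ⊢
        exact hE _ (List.getElem_mem hs) (by linarith)
      · rw [List.getD_eq_default _ _ (not_lt.1 hs)]; exact ⟨rfl, rfl⟩
    exact det_sound hE st _ h.2
      (List.forall_mem_cons.2 ⟨h2.1, List.forall_mem_cons.2 ⟨h2.2, hz⟩⟩)

namespace Cf

variable {G : Finset (ℤ × ℤ)}

def beq : Cf → Cf → Bool
  | base, base => true
  | dbl Y S C ab, dbl Y' S' C' ab' => beq Y Y' && S == S' && C == C' && ab == ab'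
  | _, _ => false

theorem beq_realize : True := by have := @beq.eq_def; trivial

theorem beq_eq : ∀ c c' : Cf, beq c c' = true → c = c'
  | base, base, _ => rfl
  | dbl Y S C ab, dbl Y' S' C' ab', h => by
    simp only [beq, Bool.and_eq_true, beq_iff_eq] at h
    rw [beq_eq Y Y' h.1.1.1, h.1.1.2, h.1.2, h.2]
  | base, dbl _ _ _ _, h => by simp [beq] at h
  | dbl _ _ _ _, base, h => by simp [beq] at h

def edges : Cf → List (Fm × Fm)
  | base => [([1], [0, 1])]
  | dbl Y S _ ab => (edges Y).map (fun e => (lin e.1 (units Y.dim), lin e.2 (units Y.dim))) ++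
      (edges Y).map fun e => (lin e.1 (m2 Y.dim S ab), lin e.2 (m2 Y.dim S ab))

theorem edges_realize : True := by have := @edges.eq_def; trivial

theorem edges_mem : ∀ (c : Cf), c.ok = true → ∀ w : c.Om G, c.pr G w ≠ 0 → ∀ e ∈ c.edges,
    (dot e.1 (c.Z G w), dot e.2 (c.Z G w)) ∈ G
  | base, _, w, _, e, he => by
    simp only [edges, List.mem_singleton] at he
    subst he
    simp [dot, Z]
  | dbl Y S C ab, h, w, hw, e, he => by
    simp only [edges, List.mem_append, List.mem_map] at he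
    rcases he with ⟨e, he, rfl⟩ | ⟨e, he, rfl⟩
    · simp only [dot_ap, ap_fst Y S C ab w]
      exact edges_mem Y (ok_par h) _ (glue_ne hw).2.1 e he
    · simp only [dot_ap, ap_snd h hw]
      exact edges_mem Y (ok_par h) _ (glue_ne hw).2.2 e he

theorem det_Det (hD : Set.InjOn (fun p : ℤ × ℤ => p.1 - p.2) G) {c : Cf} (hc : c.ok = true)
    {K L : List Fm} {u : List (ℤ × Fm)} {st : List (ℕ × ℤ × Fm)}
    (h : det c.edges L u st K = true) {w w' : c.Om G} (hw : c.pr G w ≠ 0) (hw' : c.pr G w' ≠ 0)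
    (e : Agree K (c.Z G w) (c.Z G w')) : c.ev G L w = c.ev G L w' :=
  vals_eq.2 (det_sound (fun e he hd => Prod.mk.inj
    (hD (edges_mem c hc w hw e he) (edges_mem c hc w' hw' e he) hd)) st K h e)

end Cf

open Cf

/-- a path from a tower to a copy of a lower tower -/
inductive Pa where
  | i : Pa
  | l (p : Pa) : Pa
  | r (p : Pa) : Pa
  | s (p : Pa) : Pa
  | u (σ p : Pa) (t t' : List (ℤ × Fm)) : Pa

namespace Pa

def tgt : Pa → Cf → Cf
  | l p, dbl Y _ _ _ => tgt p Y
  | r p, dbl Y _ _ _ => tgt p Y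
  | s p, c => tgt p c
  | u _ p _ _, c => tgt p c
  | _, c => c

theorem tgt_realize : True := by have := @tgt.eq_def; trivial

def mat : Pa → Cf → List Fm
  | l p, dbl Y _ _ _ => mp (units Y.dim) (mat p Y)
  | r p, dbl Y S _ ab => mp (m2 Y.dim S ab) (mat p Y)
  | s p, dbl Y S C ab => mp (m2 Y.dim S ab ++ mp (units Y.dim) C) (mat p (dbl Y S C ab))
  | u σ p _ _, dbl Y S C ab => mp (mp (units Y.dim) (mat σ Y) ++
      mp (mp (m2 Y.dim S ab) (mat σ Y)) C) (mat p (dbl Y S C ab))
  | _, c => units c.dim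

theorem mat_realize : True := by have := @mat.eq_def; trivial

def ok : Pa → Cf → Bool
  | i, _ => true
  | l p, dbl Y _ _ _ => ok p Y
  | r p, dbl Y _ _ _ => ok p Y
  | s p, dbl Y S C ab => ok p (dbl Y S C ab)
  | u σ p t t', dbl Y S C ab => ok σ Y && (σ.tgt Y).beq Y && (σ.mat Y).length == Y.dim &&
      allSp S (mp (σ.mat Y) S) t && allSp (mp (σ.mat Y) S) S t' && ok p (dbl Y S C ab)
  | _, base => false

theorem ok_realize : True := by have := @ok.eq_def; trivial

theorem emb {G : Finset (ℤ × ℤ)} (hG : G.Nonempty) : ∀ (p : Pa) (c : Cf), c.ok = true →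
    p.ok c = true → Emb G c (p.tgt c) (p.mat c)
  | i, base, _, _ => emb_id _
  | i, dbl _ _ _ _, _, _ => emb_id _
  | l _, base, _, h => by simp [ok] at h
  | r _, base, _, h => by simp [ok] at h
  | s _, base, _, h => by simp [ok] at h
  | u _ _ _ _, base, _, h => by simp [ok] at h
  | l p, dbl Y S C ab, hc, h => (emb_fst hG Y S C ab).comp (emb hG p Y (ok_par hc) h)
  | r p, dbl Y _ _ _, hc, h => (emb_snd hG hc).comp (emb hG p Y (ok_par hc) h)
  | s p, dbl Y S C ab, hc, h => (emb_swap hc).comp (emb hG p (dbl Y S C ab) hc h)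
  | u σ p t t', dbl Y S C ab, hc, h => by
    simp only [ok, Bool.and_eq_true, beq_iff_eq] at h
    obtain ⟨⟨⟨⟨⟨h1, h2⟩, h3⟩, h4⟩, h5⟩, h6⟩ := h
    have e := emb hG σ Y (ok_par hc) h1
    rw [beq_eq _ _ h2] at e
    refine (emb_lift hc e h3 fun z z' => ?_).comp (emb hG p (dbl Y S C ab) hc h6)
    rw [← vals_mp, ← vals_mp, vals_eq, vals_eq]
    exact ⟨fun a => allSp_sound a _ _ h5, fun a => allSp_sound a _ _ h4⟩

end Pa

end Pool.Agent.P.MP_c18ee8_co.KT
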