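import Pool.Agent.P.MP_c18ee8_co.KTc

/-! Rows of a certificate and the resulting sum-difference inequality. -/

namespace Pool.Agent.P.MP_c18ee8_co.KT

open Finset Real Pool.Agent.P.MP_db4732_co.Ent Cf

abbrev Vs : Type := List (Cf × List Fm)

noncomputable def val (G : Finset (ℤ × ℤ)) (vs : Vs) (k : ℕ) : ℝ :=
  (vs.getD k (base, [])).1.H G (vs.getD k (base, [])).2

noncomputable def rd : Fm → (ℕ → ℝ) → ℝ
  | [], _ => 0
  | a :: f, x => a * x 0 + rd f fun i => x (i + 1)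

theorem rd_realize : True := by have := @rd.eq_def; trivial

theorem rd_vadd : ∀ (f g : Fm) (x : ℕ → ℝ), rd (vadd f g) x = rd f x + rd g x
  | [], g, x => by simp [vadd, rd]
  | a :: f, [], x => by simp [vadd, rd]
  | a :: f, b :: g, x => by simp only [vadd, rd, rd_vadd f g]; push_cast; ring

def one (k : ℕ) (w : ℤ) : Fm := List.replicate k 0 ++ [w]

theorem rd_one (w : ℤ) : ∀ (k : ℕ) (x : ℕ → ℝ), rd (one k w) x = w * x k
  | 0, x => by simp [one, rd]
  | k + 1, x => by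
    have := rd_one w k fun i => x (i + 1)
    simp only [one, List.replicate_succ, List.cons_append, rd] at this ⊢
    rw [this]; simp

theorem rd_nonpos : ∀ (f : Fm) (x : ℕ → ℝ), (f.all fun a => a ≤ 0) = true → (∀ i, 0 ≤ x i) →
    rd f x ≤ 0
  | [], _, _, _ => le_rfl
  | a :: f, x, h, hx => by
    simp only [List.all_cons, Bool.and_eq_true, decide_eq_true_eq] at h
    have h1 : (a : ℝ) ≤ 0 := by exact_mod_cast h.1
    exact add_nonpos (mul_nonpos_of_nonpos_of_nonneg h1 (hx 0))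
      (rd_nonpos f _ h.2 fun i => hx (i + 1))

def four (w : ℤ) (a b c d : ℕ) : Fm :=
  vadd (vadd (one a w) (one b w)) (vadd (one c (-w)) (one d (-w)))

theorem rd_four (w : ℤ) (a b c d : ℕ) (x : ℕ → ℝ) :
    rd (four w a b c d) x = w * (x a + x b - x c - x d) := by
  simp only [four, rd_vadd, rd_one]; push_cast; ring

abbrev Dc : Type := List (ℕ × ℤ × Fm) × List (ℤ × Fm)

/-- a submodularity row inside the tower of variable `c` -/
structure Row where
  w : ℕ
  c : ℕ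
  P : ℕ × Pa
  Q : ℕ × Pa
  Z : ℕ × Pa
  R : ℕ × Pa
  d1 : Dc
  d2 : Dc
  d3 : Dc

def tmL (vs : Vs) (c : Cf) (t : ℕ × Pa) : List Fm := mp (t.2.mat c) (vs.getD t.1 (base, [])).2

def tmOk (vs : Vs) (c : Cf) (t : ℕ × Pa) : Bool :=
  t.2.ok c && (t.2.tgt c).beq (vs.getD t.1 (base, [])).1

def rowOk (vs : Vs) (c : Cf) (r : Row) : Bool :=
  c.ok && tmOk vs c r.P && tmOk vs c r.Q && tmOk vs c r.Z && tmOk vs c r.R &&
    det c.edges (tmL vs c r.Z) r.d1.2 r.d1.1 (tmL vs c r.P) &&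
    det c.edges (tmL vs c r.Z) r.d2.2 r.d2.1 (tmL vs c r.Q) &&
    det c.edges (tmL vs c r.R) r.d3.2 r.d3.1 (tmL vs c r.P ++ tmL vs c r.Q)

/-- the entropy identity of a doubling: variables `x`, `s`, `y` -/
def ciOk (vs : Vs) (x s y : ℕ) : Cf → Bool
  | base => false
  | dbl Y S C ab => (dbl Y S C ab).ok && (vs.getD x (base, [])).2 == units (dbl Y S C ab).dim &&
      (vs.getD s (base, [])).1.beq Y && (vs.getD s (base, [])).2 == S &&
      (vs.getD y (base, [])).1.beq Y && (vs.getD y (base, [])).2 == units Y.dim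

variable {G : Finset (ℤ × ℤ)}

theorem tm_H (hG : G.Nonempty) {vs : Vs} {c : Cf} (hc : c.ok = true) {t : ℕ × Pa}
    (h : tmOk vs c t = true) : c.H G (tmL vs c t) = val G vs t.1 := by
  simp only [tmOk, Bool.and_eq_true] at h
  have e := Pa.emb hG t.2 c hc h.1
  rw [beq_eq _ _ h.2] at e
  exact H_emb e _

theorem row_sound (hG : G.Nonempty) (hD : Set.InjOn (fun p : ℤ × ℤ => p.1 - p.2) G) {vs : Vs}
    {c : Cf} {r : Row} (h : rowOk vs c r = true) :
    0 ≤ rd (four r.w r.P.1 r.Q.1 r.Z.1 r.R.1) (val G vs) := by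
  simp only [rowOk, Bool.and_eq_true] at h
  obtain ⟨⟨⟨⟨⟨⟨⟨hc, hP⟩, hQ⟩, hZ⟩, hR⟩, d1⟩, d2⟩, d3⟩ := h
  rw [rd_four, ← tm_H hG hc hP, ← tm_H hG hc hQ, ← tm_H hG hc hZ, ← tm_H hG hc hR]
  have := submod (isP hG c) (P := c.ev G (tmL vs c r.P)) (Q := c.ev G (tmL vs c r.Q))
    (Z := c.ev G (tmL vs c r.Z)) (R := c.ev G (tmL vs c r.R))
    (fun w w' a b e => det_Det hD hc d1 a b (ev_eq.1 e))
    (fun w w' a b e => det_Det hD hc d2 a b (ev_eq.1 e))
    (fun w w' a b e => det_Det hD hc d3 a b (List.forall_mem_append.2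
      ⟨ev_eq.1 (Prod.mk.inj e).1, ev_eq.1 (Prod.mk.inj e).2⟩))
  refine mul_nonneg (by simp) ?_
  unfold H
  linarith

theorem ci_sound (hG : G.Nonempty) {vs : Vs} {x s y : ℕ} (w : ℤ)
    (h : ciOk vs x s y (vs.getD x (base, [])).1 = true) : 0 ≤ rd (four w x s y y) (val G vs) := by
  rw [rd_four]
  unfold val
  generalize (vs.getD x (base, [])).1 = c at h ⊢
  cases c with
  | base => simp [ciOk] at h
  | dbl Y S C ab =>
    simp only [ciOk, Bool.and_eq_true, beq_iff_eq] at h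
    obtain ⟨⟨⟨⟨⟨hc, h1⟩, h2⟩, h3⟩, h4⟩, h5⟩ := h
    rw [h1, beq_eq _ _ h2, h3, beq_eq _ _ h4, h5]
    have := H_ci hG hc
    exact le_of_eq (by rw [show ∀ a b c : ℝ, a + b - c - c = a + b - 2 * c from
      fun _ _ _ => by ring, this]; simp)

def accR : List Row → Fm → Fm
  | [], f => f
  | r :: rs, f => accR rs (vadd (four r.w r.P.1 r.Q.1 r.Z.1 r.R.1) f)

theorem accR_realize : True := by have := @accR.eq_def; trivial

def accC : List (ℤ × ℕ × ℕ × ℕ) → Fm → Fm
  | [], f => f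
  | r :: rs, f => accC rs (vadd (four r.1 r.2.1 r.2.2.1 r.2.2.2 r.2.2.2) f)

theorem accC_realize : True := by have := @accC.eq_def; trivial

theorem accR_le {x : ℕ → ℝ} : ∀ (rs : List Row) (f : Fm),
    (∀ r ∈ rs, 0 ≤ rd (four r.w r.P.1 r.Q.1 r.Z.1 r.R.1) x) → rd f x ≤ rd (accR rs f) x
  | [], _, _ => le_rfl
  | r :: rs, f, h => by
    have h1 := accR_le rs (vadd (four r.w r.P.1 r.Q.1 r.Z.1 r.R.1) f) fun t ht => h t (by simp [ht])
    rw [rd_vadd] at h1
    have := h r (by simp)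
    simp only [accR]
    linarith

theorem accC_le {x : ℕ → ℝ} : ∀ (rs : List (ℤ × ℕ × ℕ × ℕ)) (f : Fm),
    (∀ r ∈ rs, 0 ≤ rd (four r.1 r.2.1 r.2.2.1 r.2.2.2 r.2.2.2) x) → rd f x ≤ rd (accC rs f) x
  | [], _, _ => le_rfl
  | r :: rs, f, h => by
    have h1 := accC_le rs (vadd (four r.1 r.2.1 r.2.2.1 r.2.2.2 r.2.2.2) f)
      fun t ht => h t (by simp [ht])
    rw [rd_vadd] at h1
    have := h r (by simp)
    simp only [accC]
    linarith

def vs0 (vs : Vs) : Vs :=
  (base, []) :: (base, [[1]]) :: (base, [[0, 1]]) :: (base, [[1, 1]]) :: (base, units 2) :: vs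

theorem H_nonneg (hG : G.Nonempty) (c : Cf) (L : List Fm) : 0 ≤ c.H G L := by
  rw [← ent_const (isP hG c)]
  exact ent_mono (isP hG c) fun _ _ _ _ _ => rfl

theorem H_le (hG : G.Nonempty) {f : Fm} {N : ℕ} {g : ℤ × ℤ → ℤ} (h : (G.image g).card ≤ N)
    (hf : ∀ w : G, dot f (base.Z G w) = g w.1) : base.H G [f] ≤ log N := by
  have hN : 0 < N := lt_of_lt_of_le (hG.image g).card_pos h
  have := ent_le_add_log (isP hG base) (X := fun _ => ()) (R := base.ev G [f]) N hN
    fun _ _ => ⟨(G.image g).image fun x => [x], card_image_le.trans h, fun w _ _ =>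
      mem_image.2 ⟨g w.1, mem_image_of_mem g w.2, by simp [ev, hf w]⟩⟩
  rwa [ent_const (isP hG base), zero_add] at this

theorem H_edge (hG : G.Nonempty) : base.H G (units 2) = log G.card := by
  have h := H_top hG (c := base) rfl
  have e : base.H G (units 2) = ent (base.pr G) id := h
  have : (G.card : ℝ) ≠ 0 := by exact_mod_cast hG.card_pos.ne'
  rw [e, ent]
  simp only [law_id, id]
  show -∑ _w : G, (G.card : ℝ)⁻¹ * log (G.card : ℝ)⁻¹ = _
  simp [this]

theorem sd {vs : Vs} {rs : List Row} {cs : List (ℤ × ℕ × ℕ × ℕ)} {k : ℤ} {a b c q : ℕ}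
    (hq : 0 < q)
    (h1 : (rs.all fun r => rowOk (vs0 vs) ((vs0 vs).getD r.c (base, [])).1 r) = true)
    (h2 : (cs.all fun r => ciOk (vs0 vs) r.2.1 r.2.2.1 r.2.2.2
      ((vs0 vs).getD r.2.1 (base, [])).1) = true)
    (h3 : ((accC cs (accR rs [k, -a, -b, -c, q])).all fun x => x ≤ 0) = true)
    (F : Finset (ℤ × ℤ)) (hD : Set.InjOn (fun p : ℤ × ℤ => p.1 - p.2) F) :
    (F.card : ℝ) ^ q ≤ ((F.image fun p => p.1).card : ℝ) ^ a *
      ((F.image fun p => p.2).card : ℝ) ^ b * ((F.image fun p => p.1 + p.2).card : ℝ) ^ c := by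
  rcases F.eq_empty_or_nonempty with rfl | hG
  · rw [card_empty, Nat.cast_zero, zero_pow hq.ne']; positivity
  have m1 := H_le hG (f := [1]) (g := fun p => p.1) le_rfl fun w => by simp [dot, Z]
  have m2 := H_le hG (f := [0, 1]) (g := fun p => p.2) le_rfl fun w => by simp [dot, Z]
  have m3 := H_le hG (f := [1, 1]) (g := fun p => p.1 + p.2) le_rfl fun w => by simp [dot, Z]
  have m0 : base.H F [] = 0 := by
    rw [← ent_const (isP hG base)]
    exact ent_eq (isP hG base) fun _ _ _ _ => ⟨fun _ => rfl, fun _ => rfl⟩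
  have s1 := accR_le (x := val F (vs0 vs)) rs [k, -a, -b, -c, q]
    fun r hr => row_sound hG hD (List.all_eq_true.1 h1 r hr)
  have s2 := accC_le (x := val F (vs0 vs)) cs (accR rs [k, -a, -b, -c, q])
    fun r hr => ci_sound hG r.1 (List.all_eq_true.1 h2 r hr)
  have s3 := rd_nonpos _ (val F (vs0 vs)) h3 fun i => H_nonneg hG _ _
  have s4 : rd [k, -a, -b, -c, q] (val F (vs0 vs)) = k * base.H F [] - a * base.H F [[1]] -
      b * base.H F [[0, 1]] - c * base.H F [[1, 1]] + q * base.H F (units 2) := by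
    simp only [rd, val, vs0, List.getD_cons_zero, List.getD_cons_succ, zero_add]
    push_cast; ring
  rw [m0, H_edge hG] at s4
  have hp : ∀ g : ℤ × ℤ → ℤ, (0 : ℝ) < (F.image g).card := fun g => by
    exact_mod_cast (hG.image g).card_pos
  have p1 := pow_pos (hp fun p => p.1) a
  have p2 := pow_pos (hp fun p => p.2) b
  have p3 := pow_pos (hp fun p => p.1 + p.2) c
  have hc : (0 : ℝ) < F.card := by exact_mod_cast hG.card_pos
  rw [← log_le_log_iff (pow_pos hc q) (mul_pos (mul_pos p1 p2) p3),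
    log_mul (mul_pos p1 p2).ne' p3.ne', log_mul p1.ne' p2.ne', log_pow, log_pow, log_pow, log_pow]
  have t1 := mul_le_mul_of_nonneg_left m1 (Nat.cast_nonneg (α := ℝ) a)
  have t2 := mul_le_mul_of_nonneg_left m2 (Nat.cast_nonneg (α := ℝ) b)
  have t3 := mul_le_mul_of_nonneg_left m3 (Nat.cast_nonneg (α := ℝ) c)
  linarith

/-- the same inequality as a bound for the number of differences -/
theorem sd_exp {a b c q : ℕ} (hq : 0 < q) (h : ∀ F : Finset (ℤ × ℤ),
    Set.InjOn (fun p : ℤ × ℤ => p.1 - p.2) F → (F.card : ℝ) ^ q ≤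
      ((F.image fun p => p.1).card : ℝ) ^ a * ((F.image fun p => p.2).card : ℝ) ^ b *
        ((F.image fun p => p.1 + p.2).card : ℝ) ^ c)
    (G : Finset (ℤ × ℤ)) (N : ℕ) (n1 : (G.image fun p => p.1).card ≤ N)
    (n2 : (G.image fun p => p.2).card ≤ N) (n3 : (G.image fun p => p.1 + p.2).card ≤ N) :
    ((G.image fun p => p.1 - p.2).card : ℝ) ≤ (N : ℝ) ^ (((a + b + c : ℕ) : ℝ) / q) := by
  classical
  obtain ⟨F, hF, hD, hI⟩ := exists_subset_injOn_image_eq_of_surjOn (f := fun p : ℤ × ℤ => p.1 - p.2)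
    (G : Set (ℤ × ℤ)) (G.image fun p => p.1 - p.2) (by simp [Set.SurjOn])
  have hF' : F ⊆ G := by exact_mod_cast hF
  have e : ∀ g : ℤ × ℤ → ℤ, (G.image g).card ≤ N → ((F.image g).card : ℝ) ≤ N := fun g hg => by
    exact_mod_cast (card_le_card (image_subset_image hF')).trans hg
  have e1 := e _ n1
  have e2 := e _ n2
  have e3 := e _ n3
  rw [← hI, card_image_of_injOn hD]
  refine le_of_pow_le_pow_left₀ hq.ne' (by positivity) ((h F hD).trans ?_)
  rw [← rpow_mul_natCast (Nat.cast_nonneg N), div_mul_cancel₀ _ (by exact_mod_cast hq.ne'),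
    rpow_natCast, pow_add, pow_add]
  gcongr

end Pool.Agent.P.MP_c18ee8_co.KT
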