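import Pool.Agent.P.MP_c18ee8_co.KTd

/-! A certificate for the sum-difference exponent 122/67. -/

namespace Pool.Agent.P.MP_c18ee8_co.KT.A

def c1 : Cf := .dbl .base [[1]] [[0, 1]]
  [([1], []), ([], [1])]

def c2 : Cf := .dbl c1 [[0, 1], [0, 0, 1]] [[1]]
  [([], [1]), ([1], []), ([0, 1], [])]

def c3 : Cf := .dbl c2 [[1, 1], [0, 0, 1, -1], [0, 0, 0, 1]] [[1]]
  [([], [1]), ([1], [-1]), ([0, 1, 1], []), ([0, 0, 1], [])]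

def vs : Vs := [
  (c1, units 3),
  (c2, units 4),
  (c3, units 5),
  (c1, [[0, 1], [0, 0, 1]]),
  (c2, [[1, 1], [0, 0, 1, -1], [0, 0, 0, 1]]),
  (c1, [[1, 1, 1]]),
  (c2, [[1, 1, 0, 1]]),
  (c2, [[1], [0, 1], [0, 0, 0, 1]]),
  (c2, [[1], [0, 0, 0, 1]]),
  (c3, [[1, 0, 0, 1, -1]]),
  (c3, [[0, 1], [0, 0, 0, 1], [1, 1, 0, 0, -1]]),
  (c3, [[1, 0, -1, 0, -1]]),
  (c3, [[1], [0, 0, 1], [0, 0, 0, 0, 1]]),
  (c1, [[0, 1], [1, 0, 1]]),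
  (c2, [[1], [0, 1, 0, 1]]),
  (c3, [[1], [0, 0, 1, 0, 1]]),
  (c3, [[0, 1], [1, 1, 0, 1, -1]]),
  (c3, [[0, 1], [0, 0, 1], [0, 0, 0, 1], [1, 1, 0, 0, -1]]),
  (c3, [[1], [0, 0, 0, 1], [0, 0, 1, 0, 1], [1, 2, 0, 1, -1]]),
  (c3, [[0, 0, 0, 1], [1, 2, 0, 1, -1], [1, 0, -1, 0, -1]]),
  (c3, [[1], [0, 0, 0, 1], [0, 0, 1, 0, 1]]),
  (c3, [[0, 0, 0, 1], [1, 0, -1, 0, -1]]),
  (c3, [[1], [0, 0, 1], [0, 0, 0, 1], [0, 0, 0, 0, 1]]),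
  (c3, [[0, 1, 0, 1], [1, 0, -1, 0, -1]]),
  (c3, [[1], [0, 1, 0, 1], [0, 0, 1, 0, 1]]),
  (c3, [[1, 0, 1], [0, 0, 1, -1, 1]]),
  (c3, [[0, 1], [1, 0, 1], [1, 1, 0, 1, -1]])]

def rs0 : List Row := [
  ⟨14, 5, (2, .l .i), (2, .r .i), (0, .l .i), (8, .i),
    ([], []), ([], []), ([], [(1, [1]), (1, [0, 1])])⟩,
  ⟨6, 6, (10, .l .i), (11, .i), (0, .l (.l .i)), (9, .i),
    ([], []), ([], []), ([(3, 1, [-1, 1])], [(1, [0, -1, 1]), (1, [-1, 1]), (1, [1])])⟩,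
  ⟨2, 6, (12, .i), (12, .u (.s .i) .i [(1, [0, 1]), (1, [1])] [(1, [0, 1]), (1, [1])]), (13, .i), (6, .i),
    ([], [(1, [1]), (1, [0, 0, 1])]), ([], [(1, [1]), (1, [0, 0, 1])]), ([], [(1, [1]), (1, [0, 1]), (1, [0, 0, 0, 0, 1]), (1, [0, 0, 1])])⟩,
  ⟨3, 7, (2, .l (.l (.l .i))), (14, .s .i), (0, .l (.l (.l .i))), (15, .i),
    ([], []), ([], []), ([(6, 1, [-1, 1])], [(1, [0, 0, 1]), (1, [1]), (1, [0, 1])])⟩,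
  ⟨2, 7, (1, .l (.l (.l .i))), (16, .s .i), (0, .l (.l (.l .i))), (17, .i),
    ([], []), ([], []), ([(5, 1, [1, 1])], [(1, [0, 0, 1]), (1, [0, 1]), (1, [1])])⟩,
  ⟨12, 5, (2, .l .i), (3, .r .i), (0, .l .i), (18, .i),
    ([], []), ([], []), ([], [(1, [1]), (1, [0, 1])])⟩,
  ⟨13, 6, (1, .l (.l .i)), (3, .r (.l .i)), (0, .l (.l .i)), (19, .i),
    ([], []), ([], []), ([], [(1, [1]), (1, [0, 1])])⟩,
  ⟨2, 7, (1, .l (.l (.l .i))), (3, .r (.l (.r .i))), (0, .l (.l (.l .i))), (20, .i),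
    ([], []), ([], []), ([], [(1, [1]), (1, [0, 1])])⟩,
  ⟨3, 7, (2, .l (.l (.l .i))), (3, .r (.r (.l .i))), (0, .l (.l (.l .i))), (21, .i),
    ([], []), ([], []), ([], [(1, [1]), (1, [0, 1])])⟩,
  ⟨6, 6, (19, .i), (19, .s .i), (11, .i), (12, .i),
    ([], [(1, [1, 1])]), ([], [(1, [1, 1])]), ([], [(1, [1]), (1, [0, 1, -1]), (1, [0, 0, 1])])⟩,
  ⟨1, 7, (22, .i), (23, .i), (24, .i), (7, .i),
    ([], [(1, [0, 0, 1]), (1, [1, 0, 1, 1]), (1, [-1, -1, 0, 1])]), ([], [(1, [0, 1]), (1, [0, 0, 0, 1]), (1, [1, 0, -1])]), ([], [(1, [0, 0, 0, 0, 1]), (1, [1]), (1, [0, 1]), (1, [0, 0, 1]), (1, [1, 0, 0, -1, 1])])⟩,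
  ⟨1, 7, (25, .i), (24, .i), (26, .i), (23, .i),
    ([], [(1, [0, 1]), (1, [1, 0, -1])]), ([], [(1, [1]), (1, [0, 0, 1])]), ([], [(1, [1]), (1, [0, 1]), (1, [0, 0, 1]), (1, [0, 0, 0, 0, 1])])⟩,
  ⟨6, 5, (18, .i), (18, .s .i), (10, .i), (5, .i),
    ([], [(1, [1, 1])]), ([], [(1, [1, 1])]), ([], [(1, [0, 1, -1]), (1, [1]), (1, [0, 0, 1])])⟩,
  ⟨3, 7, (5, .l (.r .i)), (15, .i), (4, .l (.r (.l .i))), (22, .i),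
    ([], [(1, [1]), (1, [0, 1])]), ([], [(1, [0, 1]), (1, [1])]), ([], [(1, [0, 1]), (1, [0, 0, 1]), (1, [1]), (1, [0, 0, 0, 0, 0, 1])])⟩,
  ⟨1, 7, (13, .l .i), (19, .r (.u (.s .i) (.s .i) [(1, [0, 1]), (1, [1])] [(1, [0, 1]), (1, [1])])), (1, .l (.r (.l .i))), (25, .i),
    ([], [(1, [0, 1])]), ([], [(1, [1])]), ([], [(1, [1]), (1, [0, 1]), (1, [0, 0, 0, 1])])⟩,
  ⟨1, 7, (13, .l .i), (26, .s .i), (1, .l (.r (.l .i))), (27, .i),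
    ([], [(1, [0, 1])]), ([], [(1, [1])]), ([(5, 1, [1, 0, 0, 1])], [(1, [0, 0, 1]), (1, [0, 1]), (1, [0, 0, 0, 1]), (1, [1])])⟩,
  ⟨2, 7, (12, .l (.u (.s .i) .i [(1, [0, 1]), (1, [1])] [(1, [0, 1]), (1, [1])])), (17, .i), (4, .l (.l (.r .i))), (27, .i),
    ([], [(1, [1]), (1, [0, 1])]), ([], [(1, [1]), (1, [0, 1])]), ([], [(1, [1]), (1, [0, 1]), (1, [0, 0, 1]), (1, [0, 0, 0, 0, 0, 1])])⟩,
  ⟨2, 7, (20, .i), (28, .i), (16, .i), (29, .i),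
    ([], [(1, [1, -1])]), ([], [(1, [0, 1])]), ([], [(1, [1]), (1, [0, 0, 1]), (1, [0, 1])])⟩,
  ⟨3, 7, (21, .i), (30, .i), (14, .i), (31, .i),
    ([], [(1, [-1, 1])]), ([], [(1, [1, -1])]), ([], [(1, [1]), (1, [0, 0, 1]), (1, [0, 1])])⟩,
  ⟨2, 7, (29, .i), (22, .i), (28, .i), (7, .i),
    ([], [(1, [0, 1]), (1, [1, 0, -1])]), ([], [(1, [1, 0, 1]), (1, [-1, -1, 0, 1])]), ([], [(1, [1]), (1, [0, 0, 0, 1]), (1, [0, 0, 0, 0, 1]), (1, [0, 1, 0, -1]), (1, [0, 0, 1, 0, -1])])⟩]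

def rs1 : List Row := [
  ⟨3, 7, (27, .i), (31, .i), (30, .i), (7, .i),
    ([], [(1, [1, 1]), (1, [0, 1, -1, 1])]), ([], [(1, [0, 1]), (1, [1, 1, -1])]), ([], [(1, [1]), (1, [0, 0, 0, 0, 1]), (1, [0, 1]), (1, [0, 0, 1]), (1, [0, 0, 0, 1])])⟩]

def rs : List Row := rs0 ++ rs1

def cs : List (ℤ × ℕ × ℕ × ℕ) := [(31, 5, 1, 4), (14, 6, 8, 5), (6, 7, 9, 6)]

theorem main (F : Finset (ℤ × ℤ)) (hD : Set.InjOn (fun p : ℤ × ℤ => p.1 - p.2) F) :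
    (F.card : ℝ) ^ 67 ≤ ((F.image fun p => p.1).card : ℝ) ^ 46 *
      ((F.image fun p => p.2).card : ℝ) ^ 46 * ((F.image fun p => p.1 + p.2).card : ℝ) ^ 30 :=
  sd (vs := vs) (rs := rs) (cs := cs) (k := 0)
    (by norm_num) (by decide +kernel) (by decide +kernel) (by decide +kernel) F hD

theorem sumdiff (G : Finset (ℤ × ℤ)) (N : ℕ) (n1 : (G.image fun p => p.1).card ≤ N)
    (n2 : (G.image fun p => p.2).card ≤ N) (n3 : (G.image fun p => p.1 + p.2).card ≤ N) :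
    ((G.image fun p => p.1 - p.2).card : ℝ) ≤ (N : ℝ) ^ ((122 : ℝ) / 67) := by
  have := sd_exp (by norm_num) main G N n1 n2 n3
  norm_num at this ⊢
  exact this

end Pool.Agent.P.MP_c18ee8_co.KT.A
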