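import Pool.Agent.P.MP_c18ee8_co.KTe
import Pool.Agent.P.MP_c18ee8_co.Upper

/-! The bound for the queens graph. -/

namespace Pool.Agent.P.MP_c18ee8_co.KT

open Finset Real

theorem pow_le_exp {x m : ℝ} (hx : 0 ≤ x) (hm : 0 < m) (k : ℕ) :
    x ^ k ≤ m ^ k * exp (k * (x / m - 1)) := by
  rw [exp_nat_mul, ← mul_pow]
  refine pow_le_pow_left₀ hx ?_ k
  have := add_one_le_exp (x / m - 1)
  rw [← div_le_iff₀' hm]
  linarith

theorem amgm {x0 x1 x2 x3 u : ℝ} {a c : ℕ} (ha : 0 < a) (hc : 0 < c) (h0 : 0 ≤ x0) (h1 : 0 ≤ x1)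
    (h2 : 0 ≤ x2) (h3 : 0 ≤ x3) (hu : 0 < u) (h : x0 + x1 + x2 + x3 ≤ (2 * a + 2 * c) * u) :
    x0 ^ a * x1 ^ a * x2 ^ c * x3 ^ c ≤ (a * u) ^ a * (a * u) ^ a * (c * u) ^ c * (c * u) ^ c := by
  have ha' : (0 : ℝ) < a := by exact_mod_cast ha
  have hc' : (0 : ℝ) < c := by exact_mod_cast hc
  have e0 := pow_le_exp h0 (mul_pos ha' hu) a
  have e1 := pow_le_exp h1 (mul_pos ha' hu) a
  have e2 := pow_le_exp h2 (mul_pos hc' hu) c
  have e3 := pow_le_exp h3 (mul_pos hc' hu) c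
  have e : exp (a * (x0 / (a * u) - 1)) * exp (a * (x1 / (a * u) - 1)) *
      exp (c * (x2 / (c * u) - 1)) * exp (c * (x3 / (c * u) - 1)) ≤ 1 := by
    rw [← exp_add, ← exp_add, ← exp_add, exp_le_one_iff]
    have : a * (x0 / (a * u) - 1) + a * (x1 / (a * u) - 1) + c * (x2 / (c * u) - 1) +
        c * (x3 / (c * u) - 1) = (x0 + x1 + x2 + x3 - (2 * a + 2 * c) * u) / u := by
      field_simp; ring
    rw [this]
    exact div_nonpos_of_nonpos_of_nonneg (by linarith) hu.le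
  calc x0 ^ a * x1 ^ a * x2 ^ c * x3 ^ c ≤ _ :=
      mul_le_mul (mul_le_mul (mul_le_mul e0 e1 (by positivity) (by positivity)) e2 (by positivity)
        (by positivity)) e3 (by positivity) (by positivity)
    _ = (a * u) ^ a * (a * u) ^ a * (c * u) ^ c * (c * u) ^ c *
      (exp (a * (x0 / (a * u) - 1)) * exp (a * (x1 / (a * u) - 1)) *
      exp (c * (x2 / (c * u) - 1)) * exp (c * (x3 / (c * u) - 1))) := by ring
    _ ≤ _ := mul_le_of_le_one_right (by positivity) e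

section

variable {a c q : ℕ} (h : ∀ F : Finset (ℤ × ℤ),
    Set.InjOn (fun p : ℤ × ℤ => p.1 - p.2) F → (F.card : ℝ) ^ q ≤
      ((F.image fun p => p.1).card : ℝ) ^ a * ((F.image fun p => p.2).card : ℝ) ^ a *
        ((F.image fun p => p.1 + p.2).card : ℝ) ^ c)
include h

theorem dir (k : Fin 4) (P : Finset (ℤ × ℤ)) (X : Fin 4 → Finset ℤ)
    (hinj : ∀ p ∈ P, ∀ q ∈ P, phi k p = phi k q → p = q)
    (hX : ∀ j, j ≠ k → ∀ p ∈ P, phi j p ∈ X j) :
    (P.card : ℝ) ^ q ≤ ((X (![3, 3, 0, 0] k)).card : ℝ) ^ a *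
      ((X (![2, 2, 1, 1] k)).card : ℝ) ^ a * ((X (![1, 0, 3, 2] k)).card : ℝ) ^ c := by
  obtain ⟨f, g, h0, h1, h2, h3⟩ := reduce_dir k P X hinj hX
  have := h (P.image fun p => (f p, g p)) (by
    intro s hs t ht e
    obtain ⟨s, hs', rfl⟩ := mem_image.1 hs
    obtain ⟨t, ht', rfl⟩ := mem_image.1 ht
    rw [h0 s hs' t ht' e])
  rw [card_image_of_injOn fun s hs t ht e => h0 s hs t ht (by
    rw [(Prod.mk.inj e).1, (Prod.mk.inj e).2]), image_image, image_image, image_image] at this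
  refine this.trans ?_
  gcongr (?_ : ℝ) ^ a * (?_ : ℝ) ^ a * (?_ : ℝ) ^ c
  · exact_mod_cast h1
  · exact_mod_cast h2
  · exact_mod_cast h3

theorem sys (ha : 0 < a) (hc : 0 < c) (P : Fin 4 → Finset (ℤ × ℤ)) (X : Fin 4 → Finset ℤ)
    (hinj : ∀ k, ∀ p ∈ P k, ∀ q ∈ P k, phi k p = phi k q → p = q)
    (hX : ∀ k j, j ≠ k → ∀ p ∈ P k, phi j p ∈ X j) {v u : ℝ} (hv : 0 ≤ v) (hu : 0 < u)
    (h2 : v ≤ (P 2).card) (h3 : v ≤ (P 3).card)
    (hs : ((∑ k, (X k).card : ℕ) : ℝ) ≤ (4 * a + 2 * c) * u) :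
    v ^ q ≤ (2 * a * u) ^ (2 * a) * (c * u) ^ c := by
  have k2 := dir h 2 (P 2) X (hinj 2) (hX 2)
  have k3 := dir h 3 (P 3) X (hinj 3) (hX 3)
  simp only [Matrix.cons_val] at k2 k3
  simp only [Fin.sum_univ_four, Nat.cast_add] at hs
  have hm := amgm (a := 2 * a) (c := c) (u := u) (by omega) hc (Nat.cast_nonneg (X 0).card)
    (Nat.cast_nonneg (X 1).card) (Nat.cast_nonneg (X 2).card) (Nat.cast_nonneg (X 3).card) hu
    (by push_cast; linarith)
  push_cast at hm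
  apply le_of_pow_le_pow_left₀ (n := 2) (by norm_num) (by positivity)
  calc (v ^ q) ^ 2 = v ^ q * v ^ q := by ring
    _ ≤ ((P 2).card : ℝ) ^ q * ((P 3).card : ℝ) ^ q := by gcongr
    _ ≤ _ := mul_le_mul k2 k3 (by positivity) (by positivity)
    _ = _ := by ring
    _ ≤ _ := hm
    _ = _ := by ring

theorem defi (ha : 0 < a) (hc : 0 < c) {n : ℕ} (hn : 1 ≤ n) :
    ∃ t : ℕ, upperIR (queensGraph n) + t + 2 = 6 * n ∧
      ∀ v u : ℝ, 0 ≤ v → 0 < u → v + t + 1 ≤ 2 * n → t ≤ (8 * a + 4 * c) * u →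
        v ^ q ≤ (2 * a * u) ^ (2 * a) * (c * u) ^ c := by
  obtain ⟨S, hS, hc'⟩ := exists_IR (queensGraph n)
  obtain ⟨O, E, P, N, t, ht, hsum, i1, i2, m1, m2, c1, c2⟩ := structure_lemma hn S hS
  refine ⟨t, by omega, fun v u hv hu hvt htu => ?_⟩
  have key : ∀ Q : Fin 4 → Finset (ℤ × ℤ), (∀ k, (rng n k).card ≤ (Q k).card + t) →
      v ≤ (Q 2).card ∧ v ≤ (Q 3).card := by
    intro Q hQ
    have h2 := hQ 2
    have h3 := hQ 3
    rw [card_rng n hn] at h2 h3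
    simp only [Matrix.cons_val] at h2 h3
    have h2' : (2 * n : ℝ) ≤ (Q 2).card + t + 1 := by
      have : 2 * n ≤ (Q 2).card + t + 1 := by omega
      exact_mod_cast this
    have h3' : (2 * n : ℝ) ≤ (Q 3).card + t + 1 := by
      have : 2 * n ≤ (Q 3).card + t + 1 := by omega
      exact_mod_cast this
    refine ⟨by linarith, by linarith⟩
  obtain ⟨a2, a3⟩ := key P c1
  obtain ⟨b2, b3⟩ := key N c2
  have ht' : (t : ℝ) = ((∑ k, (O k).card : ℕ) : ℝ) + ((∑ k, (E k).card : ℕ) : ℝ) := by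
    rw [ht]; push_cast; ring
  rcases le_total ((∑ k, (O k).card : ℕ) : ℝ) ((∑ k, (E k).card : ℕ) : ℝ) with e | e
  · exact sys h ha hc P O i1 m1 hv hu a2 a3 (by linarith)
  · exact sys h ha hc N E i2 m2 hv hu b2 b3 (by linarith)

end

theorem upper_new (n : ℕ) (hn : 50000 ≤ n) :
    (upperIR (queensGraph n) : ℝ) ≤ 6 * n - 10 * (n : ℝ) ^ ((67 : ℝ) / 122) := by
  obtain ⟨t, ht, h⟩ := defi A.main (by norm_num) (by norm_num) (n := n) (by omega)
  have hn' : (50000 : ℝ) ≤ n := by exact_mod_cast hn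
  have hpos : (0 : ℝ) < n := by linarith
  set y : ℝ := (n : ℝ) ^ ((1 : ℝ) / 122) with hy
  have hy0 : 0 < y := rpow_pos_of_pos hpos _
  have hy1 : y ^ 122 = n := by
    rw [hy, ← rpow_natCast, ← rpow_mul hpos.le]; norm_num
  have hy2 : (n : ℝ) ^ ((67 : ℝ) / 122) = y ^ 67 := by
    rw [hy, ← rpow_natCast, ← rpow_mul hpos.le]; norm_num
  rw [hy2]
  have hy3 : (131 : ℝ) ≤ y ^ 55 := by
    refine le_of_pow_le_pow_left₀ (n := 122) (by norm_num) (by positivity) ?_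
    rw [← pow_mul, mul_comm, pow_mul, hy1]
    exact le_trans (by norm_num) (pow_le_pow_left₀ (by norm_num) hn' 55)
  have ht' : (upperIR (queensGraph n) : ℝ) + t + 2 = 6 * n := by exact_mod_cast ht
  by_contra hc
  have hz : 0 < y ^ 67 := by positivity
  have hn2 : (n : ℝ) = y ^ 67 * y ^ 55 := by rw [← hy1, ← pow_add]
  have hz2 : (y ^ 67) ^ 122 = (n : ℝ) ^ 67 := by rw [← pow_mul, mul_comm, pow_mul, hy1]
  generalize y ^ 67 = z at *
  have h0 : 131 * z ≤ n := by rw [hn2]; nlinarith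
  have h1 := h (252 / 131 * n) (5 / 244 * z) (by positivity) (by positivity) (by linarith)
    (by push_cast; linarith)
  have h2 : (2 * ((46 : ℕ) : ℝ) * (5 / 244 * z)) ^ (2 * 46) * (((30 : ℕ) : ℝ) * (5 / 244 * z)) ^ 30 =
      (92 * 5 / 244) ^ 92 * (30 * 5 / 244) ^ 30 * z ^ 122 := by
    rw [show (2 * ((46 : ℕ) : ℝ) * (5 / 244 * z)) = 92 * 5 / 244 * z by push_cast; ring,
      show (((30 : ℕ) : ℝ) * (5 / 244 * z)) = 30 * 5 / 244 * z by push_cast; ring, mul_pow, mul_pow,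
      show z ^ 122 = z ^ (2 * 46) * z ^ 30 by rw [← pow_add]]
    ac_rfl
  rw [h2, hz2, mul_pow] at h1
  exact absurd (le_of_mul_le_mul_right h1 (by positivity)) (by norm_num)

end Pool.Agent.P.MP_c18ee8_co.KT
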