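import Pool.Agent.P.MP_c18ee8_co.Board
import Pool.Agent.P.MP_c18ee8_co.KakDefs

/-! The deficiency of the queens graph against the arithmetic Kakeya function. -/

namespace Pool.Agent.P.MP_c18ee8_co

open Finset

theorem rows_lemma {n : ℕ} (hn : 1 ≤ n) (S : Finset (Fin n × Fin n))
    (hS : IsIrredundant (queensGraph n) S) :
    ∃ (O1 O2 O3 M : Finset ℤ) (t : ℕ), S.card + t + 2 = 6 * n ∧
      O1.card + O2.card + O3.card + M.card ≤ t ∧
      ∀ x : ℤ, 0 ≤ x → x < n → x ∉ M → ∃ y, y ∈ O1 ∧ x - y ∈ O2 ∧ x + y ∈ O3 := by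
  classical
  have h1 : ∀ v : Fin n × Fin n, ∃ (w : Fin n × Fin n) (k : Fin 4), v ∈ S →
      (phi k (emb v) = phi k (emb w) ∧ ∀ u ∈ S, u ≠ v → ∀ j, phi j (emb u) ≠ phi j (emb w)) := by
    intro v
    by_cases hv : v ∈ S
    · obtain ⟨w, hw, hw'⟩ := hS v hv
      obtain ⟨k, hk⟩ := (mem_closed v w).1 hw
      refine ⟨w, k, fun _ => ⟨hk, fun u hu huv j hj => hw' u hu huv ((mem_closed u w).2 ⟨j, hj⟩)⟩⟩
    · exact ⟨v, 0, fun h => absurd h hv⟩
  choose w kk hw using h1
  let Sk : Fin 4 → Finset (Fin n × Fin n) := fun k => S.filter fun v => kk v = k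
  let O : Fin 4 → Finset ℤ := fun k => (S.filter fun v => kk v ≠ k).image fun v => phi k (emb v)
  let E : Fin 4 → Finset ℤ := fun k => rng n k \ S.image fun v => phi k (emb v)
  -- a queen is alone on its designated line
  have alone : ∀ v ∈ S, ∀ u ∈ S, phi (kk v) (emb u) = phi (kk v) (emb v) → u = v := by
    intro v hv u hu h
    by_contra hne
    exact (hw v hv).2 u hu hne _ (h.trans (hw v hv).1)
  have hcard : ∀ k, (rng n k).card = (Sk k).card + (O k).card + (E k).card := by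
    intro k
    have hsub : (S.image fun v => phi k (emb v)) ⊆ rng n k := by
      intro x hx
      obtain ⟨v, _, rfl⟩ := mem_image.1 hx
      exact phi_mem k v
    have e1 : (E k).card + (S.image fun v => phi k (emb v)).card = (rng n k).card :=
      card_sdiff_add_card_eq_card hsub
    have e2 : (S.image fun v => phi k (emb v)) =
        ((Sk k).image fun v => phi k (emb v)) ∪ O k := by
      rw [← image_union]
      congr 1
      exact (filter_union_filter_not_eq _ _).symm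
    have e3 : Disjoint ((Sk k).image fun v => phi k (emb v)) (O k) := by
      rw [disjoint_left]
      intro x hx hx'
      obtain ⟨v, hv, rfl⟩ := mem_image.1 hx
      obtain ⟨u, hu, he⟩ := mem_image.1 hx'
      obtain ⟨hv1, hv2⟩ := mem_filter.1 hv
      obtain ⟨hu1, hu2⟩ := mem_filter.1 hu
      have := alone v hv1 u hu1 (by rw [hv2]; exact he)
      exact hu2 (this ▸ hv2)
    have e4 : ((Sk k).image fun v => phi k (emb v)).card = (Sk k).card := by
      apply card_image_of_injOn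
      intro v hv u hu he
      obtain ⟨hv1, hv2⟩ := mem_filter.1 hv
      obtain ⟨hu1, hu2⟩ := mem_filter.1 hu
      exact alone u hu1 v hv1 (by rw [hu2]; exact he)
    rw [e2, card_union_of_disjoint e3, e4] at e1
    omega
  have hsum : S.card = ∑ k, (Sk k).card :=
    card_eq_sum_card_fiberwise (f := kk) (t := univ) (fun _ _ => mem_univ _)
  refine ⟨O 1, O 2, O 3, O 0 ∪ E 0, ∑ k, (O k).card + ∑ k, (E k).card, ?_, ?_, ?_⟩
  · have h0 := hcard 0
    have h1 := hcard 1
    have h2 := hcard 2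
    have h3 := hcard 3
    rw [card_rng n hn] at h0 h1 h2 h3
    simp only [Fin.sum_univ_four] at hsum ⊢
    simp at h0 h1 h2 h3
    omega
  · have := card_union_le (O 0) (E 0)
    simp only [Fin.sum_univ_four]
    omega
  · intro x hx0 hx1 hx
    rw [mem_union, not_or] at hx
    have hr : x ∈ rng n 0 := by simp [rng, hx0, hx1]
    have hi : x ∈ S.image fun v => phi 0 (emb v) := by
      by_contra hc
      exact hx.2 (mem_sdiff.2 ⟨hr, hc⟩)
    obtain ⟨v, hv, rfl⟩ := mem_image.1 hi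
    have hk : kk v = 0 := by
      by_contra hc
      exact hx.1 (mem_image_of_mem (fun v => phi 0 (emb v)) (mem_filter.2 ⟨hv, hc⟩))
    have hj : ∀ j, j ≠ 0 → phi j (emb v) ∈ O j := fun j hj =>
      mem_image_of_mem (fun v => phi j (emb v)) (mem_filter.2 ⟨hv, by rw [hk]; exact hj.symm⟩)
    exact ⟨(emb v).2, hj 1 (by decide), hj 2 (by decide), hj 3 (by decide)⟩

theorem kakeya3_le {n : ℕ} (A : Finset ℤ)
    (h : ∀ d : ℕ, 1 ≤ d → d ≤ n → ∃ x : ℤ, x ∈ A ∧ x + d ∈ A ∧ x + 2 * d ∈ A) :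
    kakeya3 n ≤ A.card :=
  Nat.sInf_le ⟨A, rfl, h⟩

theorem kakeya3_spec (n : ℕ) : ∃ A : Finset ℤ, A.card = kakeya3 n ∧
    ∀ d : ℕ, 1 ≤ d → d ≤ n → ∃ x : ℤ, x ∈ A ∧ x + d ∈ A ∧ x + 2 * d ∈ A := by
  refine Nat.sInf_mem (s := {k : ℕ | ∃ A : Finset ℤ, A.card = k ∧
    ∀ d : ℕ, 1 ≤ d → d ≤ n → ∃ x : ℤ, x ∈ A ∧ x + d ∈ A ∧ x + 2 * d ∈ A})
    ⟨_, Icc 0 (2 * (n : ℤ)), rfl, fun d h1 h2 => ⟨0, ?_, ?_, ?_⟩⟩ <;>
  · rw [mem_Icc]; omega

theorem kakeya3_lower {n : ℕ} (hn : 1 ≤ n) :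
    kakeya3 n + 2 * upperIR (queensGraph n) ≤ 12 * n := by
  classical
  obtain ⟨S, hS, hc⟩ := exists_IR (queensGraph n)
  obtain ⟨O1, O2, O3, M, t, h1, h2, h3⟩ := rows_lemma hn S hS
  have hA := kakeya3_le (n := n)
    (((O2.image fun z => -z - 1) ∪ O1 ∪ (O3.image fun z => z + 1)) ∪
      (insert 0 ((M.image fun z => z + 1) ∪ M.image fun z => 2 * (z + 1)))) (by
    intro d hd1 hd2
    by_cases hm : (d : ℤ) - 1 ∈ M
    · refine ⟨0, by simp, ?_, ?_⟩
      · refine mem_union_right _ (mem_insert_of_mem (mem_union_left _ ?_))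
        exact mem_image.2 ⟨_, hm, by ring⟩
      · refine mem_union_right _ (mem_insert_of_mem (mem_union_right _ ?_))
        exact mem_image.2 ⟨_, hm, by ring⟩
    · obtain ⟨y, y1, y2, y3⟩ := h3 (d - 1) (by omega) (by omega) hm
      refine ⟨y - d, ?_, ?_, ?_⟩
      · refine mem_union_left _ (mem_union_left _ (mem_union_left _ ?_))
        exact mem_image.2 ⟨_, y2, by ring⟩
      · refine mem_union_left _ (mem_union_left _ (mem_union_right _ ?_))
        rwa [sub_add_cancel]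
      · refine mem_union_left _ (mem_union_right _ ?_)
        exact mem_image.2 ⟨_, y3, by ring⟩)
  have a1 := card_union_le ((O2.image fun z => -z - 1) ∪ O1 ∪ (O3.image fun z => z + 1))
    (insert 0 ((M.image fun z => z + 1) ∪ M.image fun z => 2 * (z + 1)))
  have a2 := card_union_le ((O2.image fun z => -z - 1) ∪ O1) (O3.image fun z => z + 1)
  have a3 := card_union_le (O2.image fun z => -z - 1) O1
  have a4 := card_insert_le 0 ((M.image fun z => z + 1) ∪ M.image fun z => 2 * (z + 1))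
  have a5 := card_union_le (M.image fun z => z + 1) (M.image fun z => 2 * (z + 1))
  have b1 : (O2.image fun z => -z - 1).card ≤ O2.card := card_image_le
  have b2 : (O3.image fun z => z + 1).card ≤ O3.card := card_image_le
  have b3 : (M.image fun z => z + 1).card ≤ M.card := card_image_le
  have b4 : (M.image fun z => 2 * (z + 1)).card ≤ M.card := card_image_le
  omega

/-- one dyadic scale: differences in `[m, 2m)`, middle terms in `[0, m)` -/
theorem scale_set (m : ℕ) (hm : 1 ≤ m) : ∃ B : Finset ℤ, B.card ≤ 5 * kakeya3 m ∧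
    ∀ e : ℕ, m ≤ e → e < 2 * m → ∃ u : ℕ, u < m ∧ (u : ℤ) ∈ B ∧ (e + u : ℤ) ∈ B ∧
      (e - u : ℤ) ∈ B := by
  classical
  obtain ⟨A, hA, h⟩ := kakeya3_spec m
  let g : Fin 5 → ℤ → ℤ := fun i a =>
    ![a % m, (a - 1) % m + m, (a - 1) % m + 2 * m, (-a - 1) % m, (-a - 1) % m + m] i
  refine ⟨((univ : Finset (Fin 5)) ×ˢ A).image fun q => g q.1 q.2, ?_, fun e h1 h2 => ?_⟩
  · refine card_image_le.trans ?_
    rw [card_product, hA]; simp
  have hm' : (0 : ℤ) < m := by omega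
  obtain ⟨x, x0, x1, x2⟩ := h (e - m + 1) (by omega) (by omega)
  have he : ((e - m + 1 : ℕ) : ℤ) = e - m + 1 := by omega
  rw [he] at x1 x2
  have mem : ∀ (i : Fin 5) (a : ℤ), a ∈ A →
      g i a ∈ ((univ : Finset (Fin 5)) ×ˢ A).image fun q => g q.1 q.2 := fun i a ha =>
    mem_image.2 ⟨(i, a), mem_product.2 ⟨mem_univ _, ha⟩, rfl⟩
  set y : ℤ := x + (e - m + 1) with hy
  have u0 := Int.emod_nonneg y hm'.ne'
  have u1 := Int.emod_lt_of_pos y hm'
  have ud := Int.emod_add_mul_ediv y m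
  have key : ∀ z w : ℤ, 0 ≤ w → w < m → (m : ℤ) ∣ z - w → z % m = w := fun z w w0 w1 hd => by
    have e0 : z % m = w % m :=
      Int.emod_eq_emod_iff_emod_sub_eq_zero.2 (Int.emod_eq_zero_of_dvd hd)
    rw [e0, Int.emod_eq_of_lt w0 w1]
  refine ⟨(y % m).toNat, by omega, ?_, ?_, ?_⟩
  · rw [Int.toNat_of_nonneg u0]
    exact mem 0 y x1
  · rw [Int.toNat_of_nonneg u0]
    by_cases hc : (e : ℤ) + y % m < 2 * m
    · have := key (x + 2 * (e - m + 1) - 1) (e + y % m - m) (by omega) (by omega)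
        ⟨y / m, by linarith⟩
      have e1 := mem 1 _ x2
      simp only [g, Matrix.cons_val_one, Matrix.cons_val_zero] at e1
      rw [this] at e1
      rwa [sub_add_cancel] at e1
    · have := key (x + 2 * (e - m + 1) - 1) (e + y % m - 2 * m) (by omega) (by omega)
        ⟨y / m + 1, by linarith⟩
      have e1 := mem 2 _ x2
      simp only [g, Matrix.cons_val] at e1
      rw [this] at e1
      rwa [sub_add_cancel] at e1
  · rw [Int.toNat_of_nonneg u0]
    by_cases hc : (e : ℤ) - y % m < m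
    · have := key (-x - 1) (e - y % m) (by omega) (by omega) ⟨-(y / m) - 1, by linarith⟩
      have e1 := mem 3 _ x0
      simp only [g, Matrix.cons_val] at e1
      rwa [this] at e1
    · have := key (-x - 1) (e - y % m - m) (by omega) (by omega) ⟨-(y / m), by linarith⟩
      have e1 := mem 4 _ x0
      simp only [g, Matrix.cons_val] at e1
      rw [this] at e1
      rwa [sub_add_cancel] at e1

theorem kakeya3_pos {n : ℕ} (hn : 1 ≤ n) : 1 ≤ kakeya3 n := by
  obtain ⟨A, hA, h⟩ := kakeya3_spec n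
  obtain ⟨x, hx, -⟩ := h 1 le_rfl hn
  rw [← hA]
  exact card_pos.2 ⟨x, hx⟩

theorem kakeya3_upper (n : ℕ) :
    6 * n ≤ upperIR (queensGraph n) +
      44000 * ∑ j ∈ range (Nat.log 2 n + 1), kakeya3 (2 ^ j) := by
  classical
  choose B hB hu using fun j : ℕ => scale_set (2 ^ j) (Nat.one_le_two_pow (n := j))
  have h1 : ∀ e : ℕ, ∃ u : ℕ, u ≤ e ∧ (1 ≤ e → (u : ℤ) ∈ B (Nat.log 2 e) ∧
      (e + u : ℤ) ∈ B (Nat.log 2 e) ∧ (e - u : ℤ) ∈ B (Nat.log 2 e)) := by
    intro e
    rcases Nat.eq_zero_or_pos e with rfl | he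
    · exact ⟨0, le_rfl, fun h => absurd h (by norm_num)⟩
    have a1 : 2 ^ Nat.log 2 e ≤ e := Nat.pow_log_le_self 2 he.ne'
    have a2 : e < 2 ^ (Nat.log 2 e + 1) := Nat.lt_pow_succ_log_self (by norm_num) e
    obtain ⟨u, b1, b2⟩ := hu (Nat.log 2 e) e a1 (by rw [pow_succ] at a2; omega)
    exact ⟨u, by omega, fun _ => b2⟩
  choose u hu1 hu2 using h1
  have h2 := board_lower (n := n) u hu1 (insert 0 ((range (Nat.log 2 n + 1)).biUnion B)) (by
    intro e he
    rcases Nat.eq_zero_or_pos e with rfl | he0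
    · have : u 0 = 0 := Nat.le_zero.1 (hu1 0)
      simp [this]
    have hl : Nat.log 2 e ∈ range (Nat.log 2 n + 1) :=
      mem_range.2 (Nat.lt_succ_of_le (Nat.log_mono_right he.le))
    obtain ⟨c1, c2, c3⟩ := hu2 e he0
    exact ⟨mem_insert_of_mem (mem_biUnion.2 ⟨_, hl, c1⟩),
      mem_insert_of_mem (mem_biUnion.2 ⟨_, hl, c2⟩), mem_insert_of_mem (mem_biUnion.2 ⟨_, hl, c3⟩)⟩)
  have h3 := card_insert_le 0 ((range (Nat.log 2 n + 1)).biUnion B)
  have h4 : ((range (Nat.log 2 n + 1)).biUnion B).card ≤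
      5 * ∑ j ∈ range (Nat.log 2 n + 1), kakeya3 (2 ^ j) := by
    rw [mul_sum]
    exact card_biUnion_le.trans (sum_le_sum fun j _ => hB j)
  have h5 : kakeya3 (2 ^ 0) ≤ ∑ j ∈ range (Nat.log 2 n + 1), kakeya3 (2 ^ j) :=
    single_le_sum (f := fun j => kakeya3 (2 ^ j)) (fun _ _ => Nat.zero_le _) (by simp)
  have h6 := kakeya3_pos (n := 2 ^ 0) (by norm_num)
  omega

end Pool.Agent.P.MP_c18ee8_co
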