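import Pool.Agent.P.MP_c18ee8_co.Tensor

namespace Pool.Agent.P.MP_c18ee8_co

open Finset

/-- number of vectors of V killed by the functional r -/
def cnt {κ : Type*} [Fintype κ] {p : ℕ} (V : Finset (κ → ℤ)) (r : κ → ZMod p) : ℕ :=
  (V.filter fun v => lin r v = 0).card

theorem markov8 {κ : Type*} [Fintype κ] [DecidableEq κ] {p : ℕ} [Fact p.Prime]
    (V : Finset (κ → ℤ)) (hV : ∀ v ∈ V, ∃ i, (v i : ZMod p) ≠ 0) (M : ℕ) (hM : V.card ≤ M) :
    8 * (univ.filter fun r : κ → ZMod p => 8 * M < p * cnt V r).card ≤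
      Fintype.card (κ → ZMod p) := by
  have hsum : ∑ r : κ → ZMod p, p * cnt V r = V.card * Fintype.card (κ → ZMod p) := by
    rw [← mul_sum, mul_comm]
    simp only [cnt, card_filter]
    rw [sum_comm, sum_mul, ← smul_eq_mul, ← sum_const]
    apply sum_congr rfl
    intro v hv
    rw [← card_filter]
    obtain ⟨i, hi⟩ := hV v hv
    exact card_ker v i hi
  rcases Nat.eq_zero_or_pos M with h0 | h0
  · have hV0 : V = ∅ := card_eq_zero.1 (by omega)
    simp [hV0, cnt, h0]
  · set S := univ.filter fun r : κ → ZMod p => 8 * M < p * cnt V r with hS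
    have h1 : S.card * (8 * M) ≤ ∑ r ∈ S, p * cnt V r := by
      rw [← smul_eq_mul]
      exact card_nsmul_le_sum S _ _ fun r hr => (mem_filter.1 hr).2.le
    have h2 : ∑ r ∈ S, p * cnt V r ≤ ∑ r : κ → ZMod p, p * cnt V r :=
      sum_le_sum_of_subset (subset_univ _)
    have h3 : V.card * Fintype.card (κ → ZMod p) ≤ M * Fintype.card (κ → ZMod p) :=
      Nat.mul_le_mul_right _ hM
    apply Nat.le_of_mul_le_mul_left _ h0
    calc M * (8 * S.card) = S.card * (8 * M) := by ring
      _ ≤ _ := by omega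

/-- the nonzero differences between the values of f on T and a vector z -/
def dif {ι κ : Type*} [DecidableEq κ] [Fintype κ] (T : Finset ι) (f : ι → κ → ℤ) (z : κ → ℤ) :
    Finset (κ → ℤ) := ((T.image f).erase z).image fun v => v - z

theorem dif_card {ι κ : Type*} [DecidableEq κ] [Fintype κ] (T : Finset ι) (f : ι → κ → ℤ)
    (z : κ → ℤ) : (dif T f z).card ≤ (T.image f).card :=
  card_image_le.trans card_erase_le

theorem dif_ne {ι κ : Type*} [DecidableEq κ] [Fintype κ] {p : ℕ} (T : Finset ι) (f : ι → κ → ℤ)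
    (z : κ → ℤ) (h : ∀ s ∈ T, ∀ i, |f s i - z i| < p) :
    ∀ v ∈ dif T f z, ∃ i, (v i : ZMod p) ≠ 0 := by
  intro v hv
  obtain ⟨u, hu, rfl⟩ := mem_image.1 hv
  obtain ⟨hne, hu⟩ := mem_erase.1 hu
  obtain ⟨s, hs, rfl⟩ := mem_image.1 hu
  obtain ⟨i, hi⟩ := Function.ne_iff.1 hne
  refine ⟨i, ?_⟩
  rw [Ne, ZMod.intCast_zmod_eq_zero_iff_dvd]
  intro hdvd
  exact hi (sub_eq_zero.1 (Int.eq_zero_of_abs_lt_dvd hdvd (h s hs i)))

theorem image_le_cnt {ι κ : Type*} [DecidableEq κ] [Fintype κ] {p : ℕ} (T T' : Finset ι)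
    (hT : T' ⊆ T) (f : ι → κ → ℤ) (z : κ → ℤ) (r : κ → ZMod p)
    (h : ∀ s ∈ T', lin r (f s) = lin r z) : (T'.image f).card ≤ 1 + cnt (dif T f z) r := by
  have h1 : (T'.image f).card ≤ 1 + ((T'.image f).erase z).card := by
    have := pred_card_le_card_erase (s := T'.image f) (a := z)
    omega
  refine h1.trans (Nat.add_le_add_left ?_ 1)
  apply card_le_card_of_injOn (fun v => v - z)
  · intro v hv
    obtain ⟨hne, hv⟩ := mem_erase.1 (mem_coe.1 hv)
    obtain ⟨s, hs, rfl⟩ := mem_image.1 hv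
    refine mem_coe.2 (mem_filter.2 ⟨mem_image.2 ⟨f s, mem_erase.2
      ⟨hne, mem_image_of_mem f (hT hs)⟩, rfl⟩, ?_⟩)
    rw [lin_sub, h s hs, sub_self]
  · intro u _ v _ he
    exact sub_left_injective he

theorem slice {ι κ : Type*} [DecidableEq ι] [Fintype κ] [DecidableEq κ] {p : ℕ} [Fact p.Prime]
    (T : Finset ι) (a b : ι → κ → ℤ) (M φ : ℕ) (hne : T.Nonempty)
    (hinj : ∀ s ∈ T, ∀ t ∈ T, a s = a t → b s = b t → s = t)
    (hsa : ∀ s ∈ T, ∀ t ∈ T, ∀ i, |a s i - a t i| < p)
    (hsb : ∀ s ∈ T, ∀ t ∈ T, ∀ i, |b s i - b t i| < p)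
    (hsc : ∀ s ∈ T, ∀ t ∈ T, ∀ i, |(a s + b s) i - (a t + b t) i| < p)
    (ha : (T.image a).card ≤ M) (hb : (T.image b).card ≤ M)
    (hc : (T.image fun s => a s + b s).card ≤ M)
    (hφ : ∀ t ∈ T, ((T.filter fun s => a s - b s = a t - b t).image a).card ≤ φ)
    (hp : 8 * φ < p) :
    ∃ (T' : Finset ι) (m : ℕ), T.card ≤ 2 * p ^ 2 * T'.card ∧ p * m ≤ p + 8 * M ∧
      (∀ s ∈ T', ∀ t ∈ T', a s - b s = a t - b t → s = t) ∧
      (T'.image a).card ≤ m ∧ (T'.image b).card ≤ m ∧
      (T'.image fun s => a s + b s).card ≤ m := by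
  have hp0 : 0 < p := (Fact.out : p.Prime).pos
  have : NeZero p := ⟨hp0.ne'⟩
  let F : ι → Finset ι := fun t => T.filter fun s => a s - b s = a t - b t
  let c : ι → κ → ℤ := fun s => a s + b s
  let bad : ι → (κ → ZMod p) → Prop := fun t r =>
    8 * φ < p * cnt (dif (F t) a (a t)) r ∨ 8 * M < p * cnt (dif T a (a t)) r ∨
      8 * M < p * cnt (dif T b (b t)) r ∨ 8 * M < p * cnt (dif T c (c t)) r
  have hbad : ∀ t ∈ T, 2 * (univ.filter fun r => bad t r).card ≤ Fintype.card (κ → ZMod p) := by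
    intro t ht
    have h1 := markov8 (p := p) (dif (F t) a (a t))
      (dif_ne _ _ _ fun s hs i => hsa s (mem_filter.1 hs).1 t ht i) φ
      ((dif_card _ _ _).trans (hφ t ht))
    have h2 := markov8 (p := p) (dif T a (a t)) (dif_ne _ _ _ fun s hs i => hsa s hs t ht i) M
      ((dif_card _ _ _).trans ha)
    have h3 := markov8 (p := p) (dif T b (b t)) (dif_ne _ _ _ fun s hs i => hsb s hs t ht i) M
      ((dif_card _ _ _).trans hb)
    have h4 := markov8 (p := p) (dif T c (c t)) (dif_ne _ _ _ fun s hs i => hsc s hs t ht i) M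
      ((dif_card _ _ _).trans hc)
    simp only [bad, filter_or]
    have e1 := card_union_le
      (univ.filter fun r : κ → ZMod p => 8 * M < p * cnt (dif T b (b t)) r)
      (univ.filter fun r : κ → ZMod p => 8 * M < p * cnt (dif T c (c t)) r)
    have e2 := card_union_le
      (univ.filter fun r : κ → ZMod p => 8 * M < p * cnt (dif T a (a t)) r)
      ((univ.filter fun r : κ → ZMod p => 8 * M < p * cnt (dif T b (b t)) r) ∪
      (univ.filter fun r : κ → ZMod p => 8 * M < p * cnt (dif T c (c t)) r))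
    have e3 := card_union_le
      (univ.filter fun r : κ → ZMod p => 8 * φ < p * cnt (dif (F t) a (a t)) r)
      ((univ.filter fun r : κ → ZMod p => 8 * M < p * cnt (dif T a (a t)) r) ∪
      ((univ.filter fun r : κ → ZMod p => 8 * M < p * cnt (dif T b (b t)) r) ∪
      (univ.filter fun r : κ → ZMod p => 8 * M < p * cnt (dif T c (c t)) r)))
    omega
  have hr : ∃ r ∈ (univ : Finset (κ → ZMod p)), 2 * (T.filter fun t => bad t r).card ≤ T.card := by
    apply exists_le_of_sum_le univ_nonempty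
    rw [← mul_sum, sum_const, card_univ, smul_eq_mul]
    simp only [card_filter]
    rw [sum_comm, mul_sum, mul_comm (Fintype.card _), ← smul_eq_mul T.card, ← sum_const]
    apply sum_le_sum
    intro t ht
    rw [← card_filter]
    exact hbad t ht
  obtain ⟨r, -, hr⟩ := hr
  let G := T.filter fun t => ¬ bad t r
  have hG : T.card ≤ 2 * G.card := by
    have := card_filter_add_card_filter_not (s := T) (fun t => bad t r)
    simp only [G]
    omega
  let g : ι → ZMod p × ZMod p := fun t => (lin r (a t), lin r (b t))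
  have hy : ∃ y ∈ (univ : Finset (ZMod p × ZMod p)),
      G.card ≤ p ^ 2 * (G.filter fun t => g t = y).card := by
    apply exists_le_of_sum_le univ_nonempty
    rw [← mul_sum, ← card_eq_sum_card_fiberwise (fun _ _ => mem_univ _), sum_const, card_univ,
      Fintype.card_prod, ZMod.card, smul_eq_mul, sq]
  obtain ⟨y, -, hy⟩ := hy
  set T' := G.filter fun t => g t = y with hT'
  have hTpos : 0 < T.card := card_pos.2 hne
  have hT'ne : T'.Nonempty := by
    rw [← card_pos]
    by_contra h0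
    have : T'.card = 0 := by omega
    rw [this] at hy
    omega
  obtain ⟨t0, ht0⟩ := hT'ne
  have hsub : T' ⊆ T := (filter_subset _ _).trans (filter_subset _ _)
  have hga : ∀ s ∈ T', ∀ t ∈ T', lin r (a s) = lin r (a t) := fun s hs t ht =>
    congrArg Prod.fst ((mem_filter.1 hs).2.trans (mem_filter.1 ht).2.symm)
  have hgb : ∀ s ∈ T', ∀ t ∈ T', lin r (b s) = lin r (b t) := fun s hs t ht =>
    congrArg Prod.snd ((mem_filter.1 hs).2.trans (mem_filter.1 ht).2.symm)
  have hgood : ∀ t ∈ T', ¬ bad t r := fun t ht => (mem_filter.1 (mem_filter.1 ht).1).2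
  have h0 := hgood t0 ht0
  simp only [bad, not_or, not_lt] at h0
  obtain ⟨-, g1, g2, g3⟩ := h0
  have key : ∀ k : ℕ, p * k ≤ 8 * M → 1 + k ≤ 1 + 8 * M / p := fun k hk =>
    Nat.add_le_add_left ((Nat.le_div_iff_mul_le hp0).2 (by rw [mul_comm]; exact hk)) 1
  refine ⟨T', 1 + 8 * M / p, ?_, ?_, ?_, ?_, ?_, ?_⟩
  · calc T.card ≤ 2 * G.card := hG
      _ ≤ 2 * (p ^ 2 * T'.card) := Nat.mul_le_mul_left _ hy
      _ = _ := by ring
  · rw [mul_add, mul_one]
    exact Nat.add_le_add_left (Nat.mul_div_le _ _) _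
  · intro s hs t ht he
    have h1 := hgood t ht
    simp only [bad, not_or, not_lt] at h1
    have h2 : cnt (dif (F t) a (a t)) r = 0 := by
      by_contra h
      have := Nat.mul_le_mul_left p (Nat.one_le_iff_ne_zero.2 h)
      omega
    have h3 : a s = a t := by
      by_contra h
      have : a s - a t ∈ (dif (F t) a (a t)).filter fun v => lin r v = 0 :=
        mem_filter.2 ⟨mem_image.2 ⟨a s, mem_erase.2 ⟨h, mem_image_of_mem a
          (mem_filter.2 ⟨hsub hs, he⟩)⟩, rfl⟩, by rw [lin_sub, hga s hs t ht, sub_self]⟩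
      exact (card_pos.2 ⟨_, this⟩).ne' h2
    refine hinj s (hsub hs) t (hsub ht) h3 ?_
    rw [h3] at he
    exact sub_right_injective he
  · exact (image_le_cnt T T' hsub a (a t0) r fun s hs => hga s hs t0 ht0).trans (key _ g1)
  · exact (image_le_cnt T T' hsub b (b t0) r fun s hs => hgb s hs t0 ht0).trans (key _ g2)
  · refine (image_le_cnt T T' hsub c (c t0) r fun s hs => ?_).trans (key _ g3)
    simp only [c, lin_add, hga s hs t0 ht0, hgb s hs t0 ht0]

end Pool.Agent.P.MP_c18ee8_co
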