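import Pool.Agent.P.MP_c18ee8_co.Cover

namespace Pool.Agent.P.MP_c18ee8_co

open Finset Filter

theorem card_image_pow {ι κ : Type*} [DecidableEq ι] [Fintype κ] [DecidableEq κ] (T : Finset ι)
    (a : ι → κ → ℤ) (m t : ℕ) (ha : (T.image a).card ≤ m) :
    ((Fintype.piFinset fun _ : Fin t => T).image
      fun w => fun q : Fin t × κ => a (w q.1) q.2).card ≤ m ^ t := by
  have : ((Fintype.piFinset fun _ : Fin t => T).image
      fun w => fun q : Fin t × κ => a (w q.1) q.2) ⊆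
      (Fintype.piFinset fun _ : Fin t => T.image a).image
        fun v => fun q : Fin t × κ => v q.1 q.2 := by
    intro x hx
    obtain ⟨w, hw, rfl⟩ := mem_image.1 hx
    refine mem_image.2 ⟨fun j => a (w j), ?_, rfl⟩
    rw [Fintype.mem_piFinset] at hw ⊢
    exact fun j => mem_image_of_mem a (hw j)
  refine (card_le_card this).trans (card_image_le.trans ?_)
  rw [Fintype.card_piFinset_const]
  exact Nat.pow_le_pow_left ha t

theorem lower_of_config {ι κ : Type*} [DecidableEq ι] [Fintype κ] [DecidableEq κ] (T : Finset ι)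
    (a b : ι → κ → ℤ) (m : ℕ)
    (hinj : ∀ s ∈ T, ∀ t ∈ T, a s - b s = a t - b t → s = t)
    (ha : (T.image a).card ≤ m) (hb : (T.image b).card ≤ m)
    (hab : (T.image fun s => a s + b s).card ≤ m) (θ : ℝ) (hθ : 0 ≤ θ)
    (hm : (m : ℝ) < (T.card : ℝ) ^ θ) (hT2 : 2 ≤ T.card) :
    ∃ C : ℝ, ∀ n : ℕ, 1 ≤ n → 6 * (n : ℝ) - C * (n : ℝ) ^ θ ≤ upperIR (queensGraph n) := by
  set δ := T.card with hδ
  have hm1 : 1 ≤ m := by
    have : T.Nonempty := card_pos.1 (by omega)
    exact (card_pos.2 (this.image a)).trans_le ha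
  have hm0 : (0 : ℝ) < m := by exact_mod_cast hm1
  obtain ⟨L, hL⟩ : ∃ L : ℕ, ∀ s ∈ T, ∀ t ∈ T, ∀ i, |(a s - b s) i - (a t - b t) i| ≤ L := by
    refine ⟨(T ×ˢ T ×ˢ (univ : Finset κ)).sup
      fun q => ((a q.1 - b q.1) q.2.2 - (a q.2.1 - b q.2.1) q.2.2).natAbs, ?_⟩
    intro s hs t ht i
    have := le_sup (f := fun q : ι × ι × κ =>
      ((a q.1 - b q.1) q.2.2 - (a q.2.1 - b q.2.1) q.2.2).natAbs)
      (s := T ×ˢ T ×ˢ (univ : Finset κ)) (b := (s, t, i)) (by simp [hs, ht])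
    rw [← Int.natCast_natAbs]
    exact_mod_cast this
  set ρ : ℝ := (δ : ℝ) ^ θ / m with hρ
  have hρ1 : 1 < ρ := by rw [hρ, lt_div_iff₀ hm0]; linarith
  obtain ⟨t, ht1, htL, ht⟩ : ∃ t : ℕ, 1 ≤ t ∧ L ≤ t ∧ 54 * (2 + (δ : ℝ) * t) ≤ ρ ^ t := by
    have h1 := (tendsto_pow_const_div_const_pow_of_one_lt 1 hρ1).eventually
      (gt_mem_nhds (show (0 : ℝ) < 1 / (54 * (2 + δ)) by positivity))
    obtain ⟨t, h2, h3, h4⟩ := (h1.and ((eventually_ge_atTop 1).and (eventually_ge_atTop L))).exists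
    refine ⟨t, h3, h4, ?_⟩
    have hρt : 0 < ρ ^ t := by positivity
    rw [pow_one, div_lt_div_iff₀ hρt (by positivity)] at h2
    have h3' : (1 : ℝ) ≤ t := by exact_mod_cast h3
    nlinarith
  obtain ⟨p, hp, hp1, hp2⟩ := Nat.exists_prime_lt_and_le_two_mul (2 * δ ^ t) (by positivity)
  have : Fact p.Prime := ⟨hp⟩
  have hδt : t < δ ^ t := Nat.lt_pow_self (by omega)
  let T' := Fintype.piFinset fun _ : Fin t => T
  have hT' : T'.card = δ ^ t := Fintype.card_piFinset_const _ _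
  have hτ : 7 ^ (6 * (2 + δ * t)) * p < 8 ^ (6 * (2 + δ * t)) := by
    have h1 : δ ^ t ≤ (2 ^ δ) ^ t := Nat.pow_le_pow_left Nat.lt_two_pow_self.le t
    have h2 : p ≤ 2 ^ (2 + δ * t) := by
      rw [pow_add, pow_mul]; omega
    calc 7 ^ (6 * (2 + δ * t)) * p ≤ 7 ^ (6 * (2 + δ * t)) * 2 ^ (2 + δ * t) :=
          Nat.mul_le_mul_left _ h2
      _ = (7 ^ 6 * 2) ^ (2 + δ * t) := by rw [mul_pow, ← pow_mul]
      _ < (8 ^ 6) ^ (2 + δ * t) := Nat.pow_lt_pow_left (by norm_num) (by omega)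
      _ = _ := by rw [← pow_mul]
  obtain ⟨u0, X, h0, hX, hmem⟩ := digit_of_config (p := p) T'
    (fun w => fun q : Fin t × κ => a (w q.1) q.2) (fun w => fun q : Fin t × κ => b (w q.1) q.2)
    (m ^ t) (6 * (2 + δ * t))
    (by
      intro s hs s' hs' he
      funext j
      apply hinj _ (Fintype.mem_piFinset.1 hs j) _ (Fintype.mem_piFinset.1 hs' j)
      funext i
      exact congrFun he (j, i))
    (by
      intro s hs s' hs' q
      have := hL _ (Fintype.mem_piFinset.1 hs q.1) _ (Fintype.mem_piFinset.1 hs' q.1) q.2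
      simp only [Pi.sub_apply] at this ⊢
      have h2 : (L : ℤ) < p := by exact_mod_cast (by omega : L < p)
      linarith)
    (by omega) (by omega) (card_image_pow T a m t ha) (card_image_pow T b m t hb)
    (card_image_pow T (fun s => a s + b s) m t hab) (by omega) hτ
  refine lower_of_digit p hp.two_le u0 h0 X _ ?_ hX hmem θ hθ ?_
  · have h1 : 1 ≤ m ^ t := Nat.one_le_pow _ _ hm1
    have h2 : 1 ≤ 6 * (2 + δ * t) := by omega
    calc 2 ≤ 9 * 1 * 1 := by norm_num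
      _ ≤ _ := by gcongr
  · have hδ0 : (0 : ℝ) ≤ δ := Nat.cast_nonneg _
    have e1 : (δ : ℝ) ^ θ = ρ * m := by rw [hρ]; field_simp
    calc ((9 * m ^ t * (6 * (2 + δ * t)) : ℕ) : ℝ) = 54 * (2 + (δ : ℝ) * t) * (m : ℝ) ^ t := by
          push_cast; ring
      _ ≤ ρ ^ t * (m : ℝ) ^ t := by gcongr
      _ = ((δ : ℝ) ^ θ) ^ t := by rw [e1, mul_pow]
      _ = ((δ ^ t : ℕ) : ℝ) ^ θ := by
        rw [← Real.rpow_natCast, ← Real.rpow_mul hδ0, mul_comm, Real.rpow_mul hδ0,
          Real.rpow_natCast]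
        push_cast; rfl
      _ ≤ (p : ℝ) ^ θ := by
        apply Real.rpow_le_rpow (Nat.cast_nonneg _) _ hθ
        have h : δ ^ t ≤ p := by omega
        exact Nat.cast_le.2 h

/-- the orbit of a word under permuting positions has multinomial size -/
theorem card_orbit_mul {κ β : Type*} [Fintype κ] [DecidableEq κ] [Fintype β] [DecidableEq β]
    (f : κ → β) :
    ((univ : Finset (Equiv.Perm κ)).image fun σ : Equiv.Perm κ => f ∘ σ).card *
      ∏ i, (Fintype.card {x // f x = i}).factorial = (Fintype.card κ).factorial := by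
  rw [← DomMulAct.stabilizer_card f, ← Fintype.card_perm, ← card_univ (α := Equiv.Perm κ),
    card_eq_sum_card_image (fun σ : Equiv.Perm κ => f ∘ σ) univ, ← smul_eq_mul, ← sum_const]
  apply sum_congr rfl
  intro g hg
  obtain ⟨σ, -, rfl⟩ := mem_image.1 hg
  rw [Fintype.card_subtype]
  apply card_nbij' (fun x => x * σ) (fun x => x * σ⁻¹)
  · intro x hx
    simp only [coe_filter, mem_univ, true_and, Set.mem_ofPred_eq] at hx ⊢
    rw [Equiv.Perm.coe_mul, ← Function.comp_assoc, hx]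
  · intro x hx
    simp only [coe_filter, mem_univ, true_and, Set.mem_ofPred_eq] at hx ⊢
    rw [Equiv.Perm.coe_mul, ← Function.comp_assoc, hx, Function.comp_assoc,
      ← Equiv.Perm.coe_mul]
    simp
  · intro x _; simp
  · intro x _; simp

end Pool.Agent.P.MP_c18ee8_co
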