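import Pool.Agent.P.MP_c18ee8_co.UdDefs

/-! Lines of the board, and minimal dominating sets from two families of lines. -/

namespace Pool.Agent.P.MP_c18ee8_co.Ud

open Finset

def c1 : Fin 4 → ℤ := ![1, 0, 1, 1]

def c2 : Fin 4 → ℤ := ![0, 1, 1, -1]

/-- the four line coordinates x, y, x + y, x - y -/
def L (i : Fin 4) (x y : ℤ) : ℤ := c1 i * x + c2 i * y

def D (i j : Fin 4) : ℤ := c1 i * c2 j - c2 i * c1 j

theorem L_shift (i j : Fin 4) (x y s : ℤ) :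
    L i (x + s * c2 j) (y - s * c1 j) = L i x y + s * D i j := by
  unfold L D; ring

theorem D_self (j : Fin 4) : D j j = 0 := by unfold D; ring

theorem D_cases : ∀ i j : Fin 4, i ≠ j → D i j = 1 ∨ D i j = -1 ∨ D i j = 2 ∨ D i j = -2 := by
  decide

theorem L0 (x y : ℤ) : L 0 x y = x := by simp [L, c1, c2]
theorem L1 (x y : ℤ) : L 1 x y = y := by simp [L, c1, c2]
theorem L2 (x y : ℤ) : L 2 x y = x + y := by simp [L, c1, c2]
theorem L3 (x y : ℤ) : L 3 x y = x - y := by simp [L, c1, c2]; ring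

def On (n : ℕ) (x y : ℤ) : Prop := 0 ≤ x ∧ x < n ∧ 0 ≤ y ∧ y < n

/-- the line (i, v) holds a square whose other three lines are in the family H -/
def Thru (n : ℕ) (H : Fin 4 → ℤ → Prop) (i : Fin 4) (v : ℤ) : Prop :=
  ∃ x y, On n x y ∧ L i x y = v ∧ ∀ k, k ≠ i → H k (L k x y)

def lv {n : ℕ} (i : Fin 4) (p : Fin n × Fin n) : ℤ := L i ((p.1 : ℕ) : ℤ) ((p.2 : ℕ) : ℤ)

theorem adj_iff {n : ℕ} (p q : Fin n × Fin n) :
    (p = q ∨ (queensGraph n).Adj p q) ↔ ∃ i, lv i p = lv i q := by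
  obtain ⟨⟨a, ha⟩, ⟨b, hb⟩⟩ := p
  obtain ⟨⟨c, hc⟩, ⟨d, hd⟩⟩ := q
  have e : (∃ i, lv i ((⟨a, ha⟩, ⟨b, hb⟩) : Fin n × Fin n) = lv i (⟨c, hc⟩, ⟨d, hd⟩)) ↔
      ((a : ℤ) = c ∨ (b : ℤ) = d ∨ (a : ℤ) + b = c + d ∨ (a : ℤ) - b = c - d) := by
    constructor
    · rintro ⟨i, hi⟩
      fin_cases i
      · left; simpa [lv, L0] using hi
      · right; left; simpa [lv, L1] using hi
      · right; right; left; simpa [lv, L2] using hi
      · right; right; right; simpa [lv, L3] using hi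
    · rintro (h | h | h | h)
      · exact ⟨0, by simpa [lv, L0] using h⟩
      · exact ⟨1, by simpa [lv, L1] using h⟩
      · exact ⟨2, by simpa [lv, L2] using h⟩
      · exact ⟨3, by simpa [lv, L3] using h⟩
  rw [e]
  simp only [queensGraph, SimpleGraph.fromRel_adj, Prod.mk.injEq, Fin.mk.injEq, ne_eq,
    abs_eq_abs]
  omega

theorem thru_fin {n : ℕ} {H : Fin 4 → ℤ → Prop} {i : Fin 4} {v : ℤ} (h : Thru n H i v) :
    ∃ p : Fin n × Fin n, lv i p = v ∧ ∀ k, k ≠ i → H k (lv k p) := by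
  obtain ⟨x, y, ⟨h1, h2, h3, h4⟩, h5, h6⟩ := h
  obtain ⟨a, rfl⟩ := Int.eq_ofNat_of_zero_le h1
  obtain ⟨b, rfl⟩ := Int.eq_ofNat_of_zero_le h3
  exact ⟨(⟨a, by omega⟩, ⟨b, by omega⟩), h5, h6⟩

theorem le_upperDom {V : Type} [Fintype V] (G : SimpleGraph V) (S : Finset V)
    (hS : Minimal (IsDominating G) S) : S.card ≤ upperDom G := by
  refine le_csSup ⟨Fintype.card V, ?_⟩ ⟨S, hS, rfl⟩
  rintro k ⟨T, -, rfl⟩
  exact card_le_univ T

theorem board (n : ℕ) (E H : Fin 4 → ℤ → Prop) (hd : ∀ i v, E i v → ¬ H i v)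
    (G : Fin 4 → Finset ℤ)
    (hdom : ∀ x y, On n x y → ∃ i, ¬ E i (L i x y) ∧ Thru n H i (L i x y))
    (hG : ∀ i, ∀ v ∈ G i, ¬ E i v ∧ ¬ H i v ∧ Thru n H i v ∧ Thru n E i v) :
    ∑ i, (G i).card ≤ upperDom (queensGraph n) := by
  classical
  have h1 : ∀ l : Fin 4 × ℤ, Thru n H l.1 l.2 →
      ∃ p : Fin n × Fin n, lv l.1 p = l.2 ∧ ∀ k, k ≠ l.1 → H k (lv k p) :=
    fun l hl => thru_fin hl
  choose q hq using h1
  let T : Finset (Fin n × Fin n) := univ.filter fun p =>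
    ∃ (l : Fin 4 × ℤ) (hl : Thru n H l.1 l.2), ¬ E l.1 l.2 ∧ q l hl = p
  have hT : IsDominating (queensGraph n) T := by
    intro v
    obtain ⟨i, hi, hi'⟩ := hdom ((v.1 : ℕ) : ℤ) ((v.2 : ℕ) : ℤ)
      ⟨by omega, by have := v.1.2; omega, by omega, by have := v.2.2; omega⟩
    have hm : q (i, lv i v) hi' ∈ T := mem_filter.2 ⟨mem_univ _, (i, lv i v), hi', hi, rfl⟩
    rcases (adj_iff (q (i, lv i v) hi') v).2 ⟨i, (hq (i, lv i v) hi').1⟩ with h | h
    · left; rwa [← h]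
    · right; exact ⟨_, hm, h⟩
  obtain ⟨S, hST, hS⟩ := exists_minimal_le_of_wellFoundedLT _ T hT
  refine le_trans ?_ (le_upperDom _ S hS)
  have hin : ∀ (l : Fin 4 × ℤ) (hl : l.2 ∈ G l.1), q l (hG l.1 l.2 hl).2.2.1 ∈ S := by
    intro l hl
    obtain ⟨g1, g2, g3, g4⟩ := hG l.1 l.2 hl
    obtain ⟨w, w1, w2⟩ := thru_fin g4
    have : ∃ u ∈ S, u = w ∨ (queensGraph n).Adj u w := by
      rcases hS.1 w with h | ⟨u, hu, h⟩
      · exact ⟨w, h, Or.inl rfl⟩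
      · exact ⟨u, hu, Or.inr h⟩
    obtain ⟨u, hu, huw⟩ := this
    obtain ⟨k, hk⟩ := (adj_iff u w).1 huw
    obtain ⟨-, l', hl', e1, rfl⟩ := mem_filter.1 (hST hu)
    obtain ⟨a1, a2⟩ := hq l' hl'
    have hne : ∀ k, ¬ E k (lv k (q l' hl')) := by
      intro k hE
      by_cases hk : k = l'.1
      · subst hk; exact e1 (a1 ▸ hE)
      · exact hd _ _ hE (a2 k hk)
    have hkl : k = l.1 := by
      by_contra hc
      exact hne k (hk ▸ w2 k hc)
    subst hkl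
    have hi : l.1 = l'.1 := by
      by_contra hc
      exact g2 (w1 ▸ hk ▸ a2 _ hc)
    have : l = l' := Prod.ext hi (by rw [← w1, ← hk, ← a1, hi])
    subst this
    exact hu
  rw [← card_sigma]
  by_cases hn : Nonempty (Fin n × Fin n)
  swap
  · rw [card_eq_zero.2]
    · exact Nat.zero_le _
    refine eq_empty_of_forall_notMem fun l hl => hn ?_
    exact ⟨q (l.1, l.2) (hG l.1 l.2 (mem_sigma.1 hl).2).2.2.1⟩
  obtain ⟨p0⟩ := hn
  refine card_le_card_of_injOn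
    (fun l => if h : l.2 ∈ G l.1 then q (l.1, l.2) (hG l.1 l.2 h).2.2.1 else p0) ?_ ?_
  · intro l hl
    have h := (mem_sigma.1 (mem_coe.1 hl)).2
    simp only [dif_pos h]
    exact hin (l.1, l.2) h
  · rintro ⟨i, v⟩ hl ⟨i', v'⟩ hl' he
    have h := (mem_sigma.1 (mem_coe.1 hl)).2
    have h' := (mem_sigma.1 (mem_coe.1 hl')).2
    simp only at h h'
    simp only [dif_pos h, dif_pos h'] at he
    obtain ⟨a1, a2⟩ := hq (i, v) (hG i v h).2.2.1
    obtain ⟨b1, b2⟩ := hq (i', v') (hG i' v' h').2.2.1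
    simp only at a1 a2 b1 b2
    have hi : i = i' := by
      by_contra hc
      exact (hG i v h).2.1 (a1 ▸ he ▸ b2 i hc)
    subst hi
    rw [← a1, ← b1, he]

/-- about the number of squares on the line (j, v) -/
def lam (n : ℕ) (j : Fin 4) (v : ℤ) : ℤ :=
  ![(n : ℤ), n, min v (2 * n - v), n - max v (-v)] j

noncomputable def rg (n : ℕ) (j : Fin 4) : Finset ℤ :=
  ![Ico 0 (n : ℤ), Ico 0 (n : ℤ), Ico 0 (2 * (n : ℤ)), Ico (-(n : ℤ)) n] j

theorem card_rg (n : ℕ) : ∑ j, (rg n j).card = 6 * n := by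
  simp [Fin.sum_univ_four, rg]
  omega

theorem rg_sub {n : ℕ} {j : Fin 4} {v : ℤ} (h : v ∈ rg n j) : -(n : ℤ) ≤ v ∧ v < 2 * n := by
  fin_cases j <;> simp [rg] at h <;> omega

theorem L_mem {n : ℕ} {x y : ℤ} (h : On n x y) (j : Fin 4) : L j x y ∈ rg n j := by
  obtain ⟨h1, h2, h3, h4⟩ := h
  fin_cases j
  · simp [rg, L0]; omega
  · simp [rg, L1]; omega
  · simp [rg, L2]; omega
  · simp [rg, L3]; omega

theorem lam_le {n : ℕ} (j : Fin 4) (v : ℤ) : lam n j v ≤ n := by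
  fin_cases j <;> simp [lam] <;> omega

/-- within r of one of 0, n, -n, 2n -/
def Near (n : ℕ) (r z : ℤ) : Prop :=
  ∃ τ : ℤ, -1 ≤ τ ∧ τ ≤ 2 ∧ -r ≤ z - τ * n ∧ z - τ * n ≤ r

theorem near_of {n : ℕ} {r z : ℤ} (h : (-r ≤ z ∧ z ≤ r) ∨ (-r ≤ z - n ∧ z - n ≤ r) ∨
    (-r ≤ z + n ∧ z + n ≤ r) ∨ (-r ≤ z - 2 * n ∧ z - 2 * n ≤ r)) : Near n r z := by
  rcases h with h | h | h | h
  · exact ⟨0, by omega⟩
  · exact ⟨1, by omega⟩
  · exact ⟨-1, by omega⟩
  · exact ⟨2, by omega⟩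

theorem near_self {n : ℕ} {j : Fin 4} {v r : ℤ} (h : v ∈ rg n j) (hr : lam n j v ≤ r) :
    Near n r v := by
  apply near_of
  fin_cases j <;> simp [rg, lam] at h hr <;> omega

theorem near_pt {n : ℕ} {x y r : ℤ} (h : On n x y) (j i : Fin 4)
    (hr : lam n j (L j x y) ≤ r) : Near n r (L i x y) := by
  obtain ⟨h1, h2, h3, h4⟩ := h
  apply near_of
  have hj : (n : ℤ) ≤ r ∨ min (x + y) (2 * n - (x + y)) ≤ r ∨ n - max (x - y) (-(x - y)) ≤ r := by
    fin_cases j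
    · left; simpa [lam] using hr
    · left; simpa [lam] using hr
    · right; left; simpa only [lam, L2, Fin.reduceFinMk, Matrix.cons_val] using hr
    · right; right; simpa only [lam, L3, Fin.reduceFinMk, Matrix.cons_val] using hr
  have hi : L i x y = x ∨ L i x y = y ∨ L i x y = x + y ∨ L i x y = x - y := by
    fin_cases i
    · left; exact L0 x y
    · right; left; exact L1 x y
    · right; right; left; exact L2 x y
    · right; right; right; exact L3 x y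
  omega

theorem lam_ge {n : ℕ} {x y m : ℤ} (h : On n x y) (h1 : m ≤ x) (h2 : x < n - m) (j : Fin 4) :
    m ≤ lam n j (L j x y) := by
  obtain ⟨a1, a2, a3, a4⟩ := h
  fin_cases j
  · simp [lam]; omega
  · simp [lam]; omega
  · simp only [lam, L2, Fin.reduceFinMk, Matrix.cons_val]; omega
  · simp only [lam, L3, Fin.reduceFinMk, Matrix.cons_val]; omega

theorem window {n : ℕ} {j : Fin 4} {v : ℤ} (h : v ∈ rg n j) (m : ℤ) (hm : 0 ≤ m) :
    ∃ x y, L j x y = v ∧ ∀ s, 0 ≤ s → s + 1 < lam n j v - 2 * m →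
      On n (x + s * c2 j) (y - s * c1 j) ∧
        (j ≠ 0 → m ≤ x + s * c2 j ∧ x + s * c2 j < n - m) := by
  fin_cases j
  · refine ⟨v, n - 1, L0 _ _, fun s h1 h2 => ?_⟩
    simp [rg, lam, On, c1, c2] at h h2 ⊢
    omega
  · refine ⟨m, v, L1 _ _, fun s h1 h2 => ?_⟩
    simp [rg, lam, On, c1, c2] at h h2 ⊢
    omega
  · refine ⟨max 0 (v - n + 1) + m, v - (max 0 (v - n + 1) + m), by simp [L2], fun s h1 h2 => ?_⟩
    simp only [rg, lam, On, c1, c2, Fin.reduceFinMk, Matrix.cons_val, mem_Ico] at h h2 ⊢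
    omega
  · refine ⟨min ((n : ℤ) - 1) (n - 1 + v) - m, min ((n : ℤ) - 1) (n - 1 + v) - m - v, by simp [L3],
      fun s h1 h2 => ?_⟩
    simp only [rg, lam, On, c1, c2, Fin.reduceFinMk, Matrix.cons_val, mem_Ico] at h h2 ⊢
    omega

end Pool.Agent.P.MP_c18ee8_co.Ud
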