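import Pool.Agent.P.MP_c18ee8_co.Defs

namespace Pool.Agent.P.MP_c18ee8_co.Ud

/-- Every vertex lies in S or is adjacent to a vertex of S. -/
def IsDominating {V : Type} (G : SimpleGraph V) (S : Finset V) : Prop :=
  ∀ v, v ∈ S ∨ ∃ u ∈ S, G.Adj u v

/-- The upper domination number: the largest size of an inclusion-minimal dominating set. -/
noncomputable def upperDom {V : Type} [Fintype V] (G : SimpleGraph V) : ℕ :=
  sSup {k : ℕ | ∃ S : Finset V, Minimal (IsDominating G) S ∧ S.card = k}

end Pool.Agent.P.MP_c18ee8_co.Ud
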