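import Pool.Agent.P.MP_c18ee8_co.UdBoard

/-! Digits in base b and lines closed digit by digit. -/

namespace Pool.Agent.P.MP_c18ee8_co.Ud

open Finset

/-- digit number t of v in base b -/
def dig (b t : ℕ) (v : ℤ) : ZMod b := ((v / (b : ℤ) ^ t : ℤ) : ZMod b)

/-- within r of an element of U, modulo b -/
def InV (b : ℕ) (U : Finset ℤ) (r : ℤ) (z : ZMod b) : Prop :=
  ∃ u ∈ U, ∃ e : ℤ, |e| ≤ r ∧ z = ((u + e : ℤ) : ZMod b)

theorem InV.mono {b : ℕ} {U : Finset ℤ} {r r' : ℤ} {z : ZMod b} (h : InV b U r z) (hr : r ≤ r') :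
    InV b U r' z := by
  obtain ⟨u, hu, e, he, hz⟩ := h
  exact ⟨u, hu, e, he.trans hr, hz⟩

theorem ediv_near {B z u : ℤ} (hB : 0 < B) (h1 : (u - 1) * B ≤ z) (h2 : z < (u + 2) * B) :
    |z / B - u| ≤ 1 := by
  have a1 := Int.le_ediv_of_mul_le hB h1
  have a2 := Int.ediv_lt_of_lt_mul hB h2
  rw [abs_le]; omega

theorem L_ediv {B : ℤ} (hB : 0 < B) (i : Fin 4) (x y : ℤ) :
    |L i x y / B - L i (x / B) (y / B)| ≤ 1 := by
  have a1 := Int.ediv_mul_le x hB.ne'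
  have a2 := Int.lt_ediv_add_one_mul_self x hB
  have a3 := Int.ediv_mul_le y hB.ne'
  have a4 := Int.lt_ediv_add_one_mul_self y hB
  apply ediv_near hB
  · fin_cases i
    · simp only [Fin.zero_eta, L0]; linarith
    · simp only [Fin.mk_one, L1]; linarith
    · simp only [Fin.reduceFinMk, L2]; linarith
    · simp only [Fin.reduceFinMk, L3]; linarith
  · fin_cases i
    · simp only [Fin.zero_eta, L0]; linarith
    · simp only [Fin.mk_one, L1]; linarith
    · simp only [Fin.reduceFinMk, L2]; linarith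
    · simp only [Fin.reduceFinMk, L3]; linarith

theorem dig_add {b : ℕ} (hb : 1 ≤ b) (t : ℕ) (v s : ℤ) :
    dig b t (v + s * (b : ℤ) ^ t) = dig b t v + s := by
  unfold dig
  rw [Int.add_mul_ediv_right _ _ (by positivity)]
  push_cast; rfl

theorem dig_congr {b : ℕ} (hb : 1 ≤ b) {t ρ : ℕ} (h : t < ρ) {v v' : ℤ}
    (hv : v ≡ v' [ZMOD (b : ℤ) ^ ρ]) : dig b t v = dig b t v' := by
  obtain ⟨k, hk⟩ := hv.dvd
  obtain ⟨c, rfl⟩ := Nat.exists_eq_add_of_lt h
  have : v' = v + (k * (b : ℤ) ^ c * b) * (b : ℤ) ^ t := by rw [← sub_eq_iff_eq_add', hk]; ring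
  rw [this, dig_add hb]
  simp

theorem dig_inj {b : ℕ} (hb : 1 ≤ b) (K : ℕ) : ∀ v v' : ℤ, v / (b : ℤ) ^ K = v' / (b : ℤ) ^ K →
    (∀ t, t < K → dig b t v = dig b t v') → v = v' := by
  induction K with
  | zero => intro v v' h _; simpa using h
  | succ K ih =>
    intro v v' h1 h2
    refine ih v v' ?_ fun t ht => h2 t (by omega)
    have a := (ZMod.intCast_eq_intCast_iff' _ _ _).1 (h2 K (by omega))
    rw [pow_succ, ← Int.ediv_ediv_of_nonneg (by positivity),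
      ← Int.ediv_ediv_of_nonneg (by positivity)] at h1
    rw [← Int.emod_add_mul_ediv (v / (b : ℤ) ^ K) b, ← Int.emod_add_mul_ediv (v' / (b : ℤ) ^ K) b,
      a, h1]

/-- the properties of the digit sets -/
structure Sys (b n : ℕ) (U : ℕ → Finset ℤ) : Prop where
  pos : 1 ≤ b
  half : ∃ h : ℤ, ((2 * h : ℤ) : ZMod b) = 1
  zero : ∀ t, (0 : ℤ) ∈ U t
  spec : ∀ t (τ : ℤ), -1 ≤ τ → τ ≤ 2 → τ * n / (b : ℤ) ^ t ∈ U t
  clo : ∀ t j (X Y : ℤ), ∃ s : ℤ, ∀ i, i ≠ j →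
    ∃ u ∈ U t, ((L i X Y + s * D i j : ℤ) : ZMod b) = (u : ℤ)

theorem exists_sys {b : ℕ} (n : ℕ) (hb : Odd b) (A : Finset ℤ)
    (hA : ∀ d : ℕ, 1 ≤ d → d ≤ b → ∃ x : ℤ, x ∈ A ∧ x + d ∈ A ∧ x + 2 * d ∈ A) :
    ∃ U, Sys b n U ∧ ∀ t, (U t).card ≤ 3 * A.card + 5 := by
  classical
  have hb1 : 1 ≤ b := hb.pos
  obtain ⟨k, hk⟩ := hb
  have hh : ((2 * ((k : ℤ) + 1) : ℤ) : ZMod b) = 1 := by
    have : ((b : ℕ) : ZMod b) = 0 := ZMod.natCast_self b
    have e : (2 * ((k : ℤ) + 1) : ℤ) = (b : ℤ) + 1 := by omega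
    rw [e]; push_cast; rw [this, zero_add]
  have hap : ∀ d : ℤ, ∃ x e : ℤ, (e : ZMod b) = d ∧ x ∈ A ∧ x + e ∈ A ∧ x + 2 * e ∈ A := by
    intro d
    have a1 := Int.emod_nonneg (d - 1) (show (b : ℤ) ≠ 0 by omega)
    have a2 := Int.emod_lt_of_pos (d - 1) (show (0 : ℤ) < b by omega)
    obtain ⟨x, hx⟩ := hA (((d - 1) % b).toNat + 1) (by omega) (by omega)
    refine ⟨x, _, ?_, hx⟩
    have e : (((((d - 1) % b).toNat + 1 : ℕ)) : ℤ) = (d - 1) % b + 1 := by omega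
    rw [e]; push_cast; simp
  let B : Finset ℤ := A ∪ A.image (fun a => -a) ∪ A.image (fun a => 2 * a)
  have m1 : ∀ a ∈ A, a ∈ B := fun a ha => mem_union_left _ (mem_union_left _ ha)
  have m2 : ∀ a ∈ A, -a ∈ B := fun a ha =>
    mem_union_left _ (mem_union_right _ (mem_image_of_mem _ ha))
  have m3 : ∀ a ∈ A, 2 * a ∈ B := fun a ha => mem_union_right _ (mem_image_of_mem _ ha)
  have hB : ∀ j (X Y : ℤ), ∃ s : ℤ, ∀ i, i ≠ j →
      ∃ u ∈ B, ((L i X Y + s * D i j : ℤ) : ZMod b) = (u : ℤ) := by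
    intro j X Y
    push_cast at hh
    fin_cases j
    · obtain ⟨x, e, he, a0, a1, a2⟩ := hap X
      refine ⟨Y - x - e, fun i hi => ?_⟩
      fin_cases i
      · exact absurd rfl hi
      · exact ⟨_, m1 _ a1, by simp [L, D, c1, c2]; ring⟩
      · exact ⟨_, m1 _ a2, by simp [L, D, c1, c2]; linear_combination -he⟩
      · exact ⟨_, m2 _ a0, by simp [L, D, c1, c2]; linear_combination -he⟩
    · obtain ⟨x, e, he, a0, a1, a2⟩ := hap Y
      refine ⟨x + e - X, fun i hi => ?_⟩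
      fin_cases i
      · exact ⟨_, m1 _ a1, by simp [L, D, c1, c2]⟩
      · exact absurd rfl hi
      · exact ⟨_, m1 _ a2, by simp [L, D, c1, c2]; linear_combination -he⟩
      · exact ⟨_, m1 _ a0, by simp [L, D, c1, c2]; linear_combination he⟩
    · obtain ⟨x, e, he, a0, a1, a2⟩ := hap ((k + 1) * (X + Y))
      push_cast at he
      refine ⟨x + 2 * e - X, fun i hi => ?_⟩
      fin_cases i
      · exact ⟨_, m1 _ a2, by simp [L, D, c1, c2]⟩
      · exact ⟨_, m2 _ a0, by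
          simp [L, D, c1, c2]; linear_combination -2 * he - ((X : ZMod b) + Y) * hh⟩
      · exact absurd rfl hi
      · exact ⟨_, m3 _ a1, by
          simp [L, D, c1, c2]; linear_combination 2 * he + ((X : ZMod b) + Y) * hh⟩
    · obtain ⟨x, e, he, a0, a1, a2⟩ := hap ((k + 1) * (X - Y))
      push_cast at he
      refine ⟨X - x - 2 * e, fun i hi => ?_⟩
      fin_cases i
      · exact ⟨_, m1 _ a2, by simp [L, D, c1, c2]; ring⟩
      · exact ⟨_, m1 _ a0, by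
          simp [L, D, c1, c2]; linear_combination 2 * he + ((X : ZMod b) - Y) * hh⟩
      · exact ⟨_, m3 _ a1, by
          simp [L, D, c1, c2]; linear_combination 2 * he + ((X : ZMod b) - Y) * hh⟩
      · exact absurd rfl hi
  refine ⟨fun t => B ∪ insert 0 ((Icc (-1 : ℤ) 2).image fun τ => τ * n / (b : ℤ) ^ t),
    ⟨hb1, ⟨_, hh⟩, fun t => by simp, fun t τ h1 h2 => ?_, fun t j X Y => ?_⟩, fun t => ?_⟩
  · exact mem_union_right _ (mem_insert_of_mem (mem_image.2 ⟨τ, mem_Icc.2 ⟨h1, h2⟩, rfl⟩))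
  · obtain ⟨s, hs⟩ := hB j X Y
    refine ⟨s, fun i hi => ?_⟩
    obtain ⟨u, hu, e⟩ := hs i hi
    exact ⟨u, mem_union_left _ hu, e⟩
  · have a1 := card_union_le B (insert 0 ((Icc (-1 : ℤ) 2).image fun τ => τ * n / (b : ℤ) ^ t))
    have a2 := card_insert_le 0 ((Icc (-1 : ℤ) 2).image fun τ => τ * n / (b : ℤ) ^ t)
    have a3 : ((Icc (-1 : ℤ) 2).image fun τ => τ * n / (b : ℤ) ^ t).card ≤ 4 :=
      card_image_le.trans (by simp)
    have a4 : B.card ≤ (A ∪ A.image (fun a => -a)).card + (A.image (fun a => 2 * a)).card :=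
      card_union_le _ _
    have a5 := card_union_le A (A.image (fun a => -a))
    have a6 : (A.image (fun a => -a)).card ≤ A.card := card_image_le
    have a7 : (A.image (fun a => 2 * a)).card ≤ A.card := card_image_le
    beta_reduce
    omega

variable {b n : ℕ} {U : ℕ → Finset ℤ}

theorem near_dig (h : Sys b n U) {t : ℕ} {r z : ℤ} (hz : Near n r z) (hr : r ≤ (b : ℤ) ^ t) :
    InV b (U t) 1 (dig b t z) := by
  obtain ⟨τ, h1, h2, h3, h4⟩ := hz
  have hB : (0 : ℤ) < (b : ℤ) ^ t := by have := h.pos; positivity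
  have a1 := Int.ediv_mul_le (τ * n) hB.ne'
  have a2 := Int.lt_ediv_add_one_mul_self (τ * n) hB
  refine ⟨_, h.spec t τ h1 h2, z / (b : ℤ) ^ t - τ * n / (b : ℤ) ^ t,
    ediv_near hB (by linarith) (by linarith), ?_⟩
  unfold dig
  congr 1; ring

/-- the condition on digit t of the point with line coordinates w -/
def Loc (b : ℕ) (U : ℕ → Finset ℤ) (t : ℕ) (j a : Fin 4) (w : Fin 4 → ℤ) : Prop :=
  (a = j → ∀ i, i ≠ j → InV b (U t) 1 (dig b t (w i))) ∧ (a ≠ j → dig b t (w a) = 0)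

theorem loc_step (h : Sys b n U) (t : ℕ) (j a : Fin 4) (x y : ℤ) :
    ∃ s : ℤ, Loc b U t j a fun i => L i x y + s * D i j * (b : ℤ) ^ t := by
  have hB : (0 : ℤ) < (b : ℤ) ^ t := by have := h.pos; positivity
  by_cases ha : a = j
  · obtain ⟨s, hs⟩ := h.clo t j (x / (b : ℤ) ^ t) (y / (b : ℤ) ^ t)
    refine ⟨s, fun _ i hi => ?_, fun h => absurd ha h⟩
    obtain ⟨u, hu, e⟩ := hs i hi
    refine ⟨u, hu, _, L_ediv hB i x y, ?_⟩
    simp only [dig_add h.pos]
    unfold dig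
    push_cast at e ⊢
    linear_combination e
  · obtain ⟨k, hk⟩ : ∃ k : ℤ, ((k * D a j : ℤ) : ZMod b) = 1 := by
      obtain ⟨c, hc⟩ := h.half
      rcases D_cases a j ha with e | e | e | e <;> rw [e]
      · exact ⟨1, by simp⟩
      · exact ⟨-1, by simp⟩
      · exact ⟨c, by rw [← hc]; congr 1; ring⟩
      · exact ⟨-c, by rw [← hc]; congr 1; ring⟩
    refine ⟨-k * (L a x y / (b : ℤ) ^ t), fun h => absurd h ha, fun _ => ?_⟩
    simp only [dig_add h.pos]
    unfold dig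
    push_cast at hk ⊢
    linear_combination (-((L a x y / (b : ℤ) ^ t : ℤ) : ZMod b)) * hk

theorem loc_all (h : Sys b n U) (j : Fin 4) (g : ℕ → Fin 4) (x y : ℤ) (ρ : ℕ) :
    ∃ s0 : ℤ, ∀ s, s ≡ s0 [ZMOD (b : ℤ) ^ ρ] → ∀ t, t < ρ →
      Loc b U t j (g t) fun i => L i x y + s * D i j := by
  induction ρ with
  | zero => exact ⟨0, fun _ _ t ht => absurd ht (Nat.not_lt_zero t)⟩
  | succ ρ ih =>
    obtain ⟨s0, h0⟩ := ih
    obtain ⟨s1, h1⟩ := loc_step h ρ j (g ρ) (x + s0 * c2 j) (y - s0 * c1 j)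
    refine ⟨s0 + s1 * (b : ℤ) ^ ρ, fun s hs t ht => ?_⟩
    rcases Nat.lt_succ_iff_lt_or_eq.1 ht with ht | rfl
    · refine h0 s ?_ t ht
      rw [pow_succ] at hs
      exact (hs.of_mul_right _).trans (Int.modEq_iff_dvd.2 ⟨-s1, by ring⟩)
    · have e : ∀ i, dig b t (L i x y + s * D i j) =
          dig b t (L i (x + s0 * c2 j) (y - s0 * c1 j) + s1 * D i j * (b : ℤ) ^ t) := by
        intro i
        apply dig_congr h.pos ht
        have : L i (x + s0 * c2 j) (y - s0 * c1 j) + s1 * D i j * (b : ℤ) ^ t =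
            L i x y + (s0 + s1 * (b : ℤ) ^ t) * D i j := by rw [L_shift]; ring
        rw [this]
        exact (hs.mul_right _).add_left _
      refine ⟨fun ha i hi => ?_, fun ha => ?_⟩
      · simp only [e]; exact h1.1 ha i hi
      · simp only [e]; exact h1.2 ha

theorem comb : ∀ j a i : Fin 4, a ≠ i → (a.val < 2 ∨ i.val < 2) → ∃ l m : Fin 5,
    |((l : ℕ) : ℤ) - 2| + |((m : ℕ) : ℤ) - 2| ≤ 3 ∧
    c1 j = (((l : ℕ) : ℤ) - 2) * c1 a + (((m : ℕ) : ℤ) - 2) * c1 i ∧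
    c2 j = (((l : ℕ) : ℤ) - 2) * c2 a + (((m : ℕ) : ℤ) - 2) * c2 i := by
  decide

/-- digit t of v, read in part i, and digit 0 in part a force an exceptional digit in part j -/
def Cert (b : ℕ) (U : ℕ → Finset ℤ) (t : ℕ) (j a i : Fin 4) (v : ℤ) : Prop :=
  ∀ x y, dig b t (L a x y) = 0 → dig b t (L i x y) = dig b t v →
    ¬ InV b (U t) 1 (dig b t (L j x y))

theorem cert_of (hb : 1 ≤ b) {t : ℕ} {j a i : Fin 4} (hai : a ≠ i) (h2 : a.val < 2 ∨ i.val < 2)
    {x y : ℤ} (h0 : dig b t (L a x y) = 0) (hj : ¬ InV b (U t) 9 (dig b t (L j x y))) :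
    Cert b U t j a i (L i x y) := by
  obtain ⟨l0, m0, c0, e1, e2⟩ := comb j a i hai h2
  generalize ((l0 : ℕ) : ℤ) - 2 = l at *
  generalize ((m0 : ℕ) : ℤ) - 2 = m at *
  have hB : (0 : ℤ) < (b : ℤ) ^ t := by positivity
  have key : ∀ x y : ℤ, ∃ δ : ℤ, |δ| ≤ 4 ∧
      dig b t (L j x y) = l * dig b t (L a x y) + m * dig b t (L i x y) + δ := by
    intro x y
    have a1 := L_ediv hB j x y
    have a2 := L_ediv hB a x y
    have a3 := L_ediv hB i x y
    have a4 : L j (x / (b : ℤ) ^ t) (y / (b : ℤ) ^ t) = l * L a (x / (b : ℤ) ^ t) (y / (b : ℤ) ^ t) +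
        m * L i (x / (b : ℤ) ^ t) (y / (b : ℤ) ^ t) := by
      unfold L; rw [e1, e2]; ring
    refine ⟨L j x y / (b : ℤ) ^ t - l * (L a x y / (b : ℤ) ^ t) - m * (L i x y / (b : ℤ) ^ t),
      ?_, by unfold dig; push_cast; ring⟩
    generalize L j x y / (b : ℤ) ^ t = p at *
    generalize L a x y / (b : ℤ) ^ t = q at *
    generalize L i x y / (b : ℤ) ^ t = r at *
    generalize L a (x / (b : ℤ) ^ t) (y / (b : ℤ) ^ t) = q' at *
    generalize L i (x / (b : ℤ) ^ t) (y / (b : ℤ) ^ t) = r' at *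
    rw [a4] at a1
    have b1 : |l * (q - q')| ≤ |l| := by
      rw [abs_mul]; exact mul_le_of_le_one_right (abs_nonneg _) a2
    have b2 : |m * (r - r')| ≤ |m| := by
      rw [abs_mul]; exact mul_le_of_le_one_right (abs_nonneg _) a3
    rw [abs_le] at a1 b1 b2 ⊢
    constructor <;> linarith [a1.1, a1.2, b1.1, b1.2, b2.1, b2.2]
  rintro x' y' p0 p1 ⟨u, hu, e, he, hz⟩
  obtain ⟨δ, d1, d2⟩ := key x y
  obtain ⟨δ', d1', d2'⟩ := key x' y'
  refine hj ⟨u, hu, e + δ - δ', ?_, ?_⟩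
  · rw [abs_le] at *; omega
  · rw [h0] at d2
    rw [p0, p1] at d2'
    push_cast at hz ⊢
    linear_combination d2 - d2' + hz

open Classical in
/-- the exceptional digits of v -/
noncomputable def exc (b : ℕ) (U : ℕ → Finset ℤ) (K : ℕ) (r v : ℤ) : Finset (Fin K) :=
  univ.filter fun t => ¬ InV b (U t) r (dig b t v)

theorem mem_exc {K : ℕ} {r v : ℤ} {t : Fin K} :
    t ∈ exc b U K r v ↔ ¬ InV b (U t) r (dig b t v) := by
  simp [exc]

theorem count (hb : 1 ≤ b) {K N : ℕ} (hn : n < b ^ K) (hN1 : 1 ≤ N)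
    (hN : ∀ t, 19 * (U t).card ≤ N) :
    ((Ico (-(n : ℤ)) (2 * n)).filter fun v => (exc b U K 9 v).card ≤ 10).card ≤
      3 * (2 ^ K * (b ^ 10 * N ^ K)) := by
  classical
  have : NeZero b := ⟨by omega⟩
  let W : ℕ → Finset (ZMod b) := fun t =>
    (U t ×ˢ Icc (-9 : ℤ) 9).image fun p => ((p.1 + p.2 : ℤ) : ZMod b)
  have hW : ∀ t, (W t).card ≤ N := fun t => card_image_le.trans (by
    have := hN t
    simp [card_product]; omega)
  let T : Finset (Fin K) → Finset (Fin K → ZMod b) := fun S =>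
    Fintype.piFinset fun t => if t ∈ S then univ else W t
  have hT : ∀ S : Finset (Fin K), S.card ≤ 10 → (T S).card ≤ b ^ 10 * N ^ K := by
    intro S hS
    rw [Fintype.card_piFinset]
    calc ∏ t : Fin K, (if t ∈ S then (univ : Finset (ZMod b)) else W t).card
        ≤ ∏ t : Fin K, ((if t ∈ S then b else 1) * N) := by
          refine prod_le_prod' fun t _ => ?_
          split_ifs
          · rw [card_univ, ZMod.card]; exact Nat.le_mul_of_pos_right _ hN1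
          · rw [one_mul]; exact hW t
      _ = b ^ S.card * N ^ K := by rw [prod_mul_distrib]; simp [prod_ite_mem]
      _ ≤ b ^ 10 * N ^ K := Nat.mul_le_mul_right _ (Nat.pow_le_pow_right hb hS)
  let Z : Finset (Fin K → ZMod b) := (univ.filter fun S : Finset (Fin K) => S.card ≤ 10).biUnion T
  have hZ : Z.card ≤ 2 ^ K * (b ^ 10 * N ^ K) := by
    refine (card_biUnion_le_card_mul _ _ _ fun S hS => hT S (mem_filter.1 hS).2).trans ?_
    refine Nat.mul_le_mul_right _ ((card_filter_le _ _).trans ?_)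
    simp
  have hB : (0 : ℤ) < (b : ℤ) ^ K := by positivity
  have hn' : (n : ℤ) < (b : ℤ) ^ K := by exact_mod_cast hn
  refine (card_le_card_of_injOn (t := Icc (-1 : ℤ) 1 ×ˢ Z)
    (fun v => (v / (b : ℤ) ^ K, fun t : Fin K => dig b t v)) ?_ ?_).trans ?_
  · intro v hv
    obtain ⟨h1, h2⟩ := mem_filter.1 (mem_coe.1 hv)
    rw [mem_Ico] at h1
    have a := ediv_near (z := v) (u := 0) hB (by linarith) (by linarith)
    rw [sub_zero, abs_le] at a
    refine mem_coe.2 (mem_product.2 ⟨mem_Icc.2 a, mem_biUnion.2 ⟨_, mem_filter.2 ⟨mem_univ _, h2⟩,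
      Fintype.mem_piFinset.2 fun t => ?_⟩⟩)
    split_ifs with ht
    · exact mem_univ _
    · rw [mem_exc, not_not] at ht
      obtain ⟨u, hu, e, he, hz⟩ := ht
      exact mem_image.2 ⟨(u, e), mem_product.2 ⟨hu, mem_Icc.2 (abs_le.1 he)⟩, hz.symm⟩
  · intro v _ v' _ he
    simp only [Prod.mk.injEq] at he
    exact dig_inj hb K v v' he.1 fun t ht => congrFun he.2 ⟨t, ht⟩
  · rw [card_product]
    simpa using hZ

end Pool.Agent.P.MP_c18ee8_co.Ud
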