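import Pool.Agent.P.MP_c18ee8_co.Defs
import Pool.Agent.P.MP_c18ee8_co.KakDefs

/-! The lower bound of the deficiency by the arithmetic Kakeya function (copied from the files
Lines and Kak of this folder, in a namespace of its own), and the growth of that function. -/

namespace Pool.Agent.P.MP_c18ee8_co.Ud

open Finset

/-- the four line coordinates -/
def phi (k : Fin 4) (p : ℤ × ℤ) : ℤ := ![p.1, p.2, p.1 - p.2, p.1 + p.2] k

/-- ranges of the line coordinates on the board -/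
noncomputable def rng (n : ℕ) (k : Fin 4) : Finset ℤ :=
  ![Ico 0 (n : ℤ), Ico 0 (n : ℤ), Ioo (-(n : ℤ)) n, Ico 0 (2 * (n : ℤ) - 1)] k

def emb {n : ℕ} (p : Fin n × Fin n) : ℤ × ℤ := (((p.1 : ℕ) : ℤ), ((p.2 : ℕ) : ℤ))

theorem phi_mem {n : ℕ} (k : Fin 4) (p : Fin n × Fin n) : phi k (emb p) ∈ rng n k := by
  obtain ⟨⟨a, ha⟩, ⟨b, hb⟩⟩ := p
  fin_cases k <;> simp [phi, emb, rng] <;> omega

theorem mem_closed {n : ℕ} (v w : Fin n × Fin n) :
    w ∈ insert v ((queensGraph n).neighborSet v) ↔ ∃ k, phi k (emb v) = phi k (emb w) := by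
  obtain ⟨⟨a, ha⟩, ⟨b, hb⟩⟩ := v
  obtain ⟨⟨c, hc⟩, ⟨d, hd⟩⟩ := w
  simp only [Set.mem_insert_iff, SimpleGraph.mem_neighborSet, queensGraph,
    SimpleGraph.fromRel_adj, Fin.exists_fin_succ, phi, emb, Prod.mk.injEq, Fin.mk.injEq, ne_eq,
    abs_eq_abs]
  simp
  omega

theorem card_rng (n : ℕ) (hn : 1 ≤ n) (k : Fin 4) :
    (rng n k).card = ![n, n, 2 * n - 1, 2 * n - 1] k := by
  fin_cases k <;> simp [rng] <;> omega

theorem bddAbove_IR {V : Type} [Fintype V] (G : SimpleGraph V) :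
    BddAbove {k : ℕ | ∃ S : Finset V, IsIrredundant G S ∧ S.card = k} := by
  refine ⟨Fintype.card V, ?_⟩
  rintro k ⟨S, -, rfl⟩
  exact card_le_univ S

theorem exists_IR {V : Type} [Fintype V] (G : SimpleGraph V) :
    ∃ S : Finset V, IsIrredundant G S ∧ S.card = upperIR G := by
  have := Nat.sSup_mem (s := {k : ℕ | ∃ S : Finset V, IsIrredundant G S ∧ S.card = k})
    ⟨0, ∅, fun v hv => absurd hv (notMem_empty v), rfl⟩ (bddAbove_IR G)
  exact this

theorem rows_lemma {n : ℕ} (hn : 1 ≤ n) (S : Finset (Fin n × Fin n))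
    (hS : IsIrredundant (queensGraph n) S) :
    ∃ (O1 O2 O3 M : Finset ℤ) (t : ℕ), S.card + t + 2 = 6 * n ∧
      O1.card + O2.card + O3.card + M.card ≤ t ∧
      ∀ x : ℤ, 0 ≤ x → x < n → x ∉ M → ∃ y, y ∈ O1 ∧ x - y ∈ O2 ∧ x + y ∈ O3 := by
  classical
  have h1 : ∀ v : Fin n × Fin n, ∃ (w : Fin n × Fin n) (k : Fin 4), v ∈ S →
      (phi k (emb v) = phi k (emb w) ∧ ∀ u ∈ S, u ≠ v → ∀ j, phi j (emb u) ≠ phi j (emb w)) := by
    intro v
    by_cases hv : v ∈ S
    · obtain ⟨w, hw, hw'⟩ := hS v hv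
      obtain ⟨k, hk⟩ := (mem_closed v w).1 hw
      refine ⟨w, k, fun _ => ⟨hk, fun u hu huv j hj => hw' u hu huv ((mem_closed u w).2 ⟨j, hj⟩)⟩⟩
    · exact ⟨v, 0, fun h => absurd h hv⟩
  choose w kk hw using h1
  let Sk : Fin 4 → Finset (Fin n × Fin n) := fun k => S.filter fun v => kk v = k
  let O : Fin 4 → Finset ℤ := fun k => (S.filter fun v => kk v ≠ k).image fun v => phi k (emb v)
  let E : Fin 4 → Finset ℤ := fun k => rng n k \ S.image fun v => phi k (emb v)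
  -- a queen is alone on its designated line
  have alone : ∀ v ∈ S, ∀ u ∈ S, phi (kk v) (emb u) = phi (kk v) (emb v) → u = v := by
    intro v hv u hu h
    by_contra hne
    exact (hw v hv).2 u hu hne _ (h.trans (hw v hv).1)
  have hcard : ∀ k, (rng n k).card = (Sk k).card + (O k).card + (E k).card := by
    intro k
    have hsub : (S.image fun v => phi k (emb v)) ⊆ rng n k := by
      intro x hx
      obtain ⟨v, _, rfl⟩ := mem_image.1 hx
      exact phi_mem k v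
    have e1 : (E k).card + (S.image fun v => phi k (emb v)).card = (rng n k).card :=
      card_sdiff_add_card_eq_card hsub
    have e2 : (S.image fun v => phi k (emb v)) =
        ((Sk k).image fun v => phi k (emb v)) ∪ O k := by
      rw [← image_union]
      congr 1
      exact (filter_union_filter_not_eq _ _).symm
    have e3 : Disjoint ((Sk k).image fun v => phi k (emb v)) (O k) := by
      rw [disjoint_left]
      intro x hx hx'
      obtain ⟨v, hv, rfl⟩ := mem_image.1 hx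
      obtain ⟨u, hu, he⟩ := mem_image.1 hx'
      obtain ⟨hv1, hv2⟩ := mem_filter.1 hv
      obtain ⟨hu1, hu2⟩ := mem_filter.1 hu
      have := alone v hv1 u hu1 (by rw [hv2]; exact he)
      exact hu2 (this ▸ hv2)
    have e4 : ((Sk k).image fun v => phi k (emb v)).card = (Sk k).card := by
      apply card_image_of_injOn
      intro v hv u hu he
      obtain ⟨hv1, hv2⟩ := mem_filter.1 hv
      obtain ⟨hu1, hu2⟩ := mem_filter.1 hu
      exact alone u hu1 v hv1 (by rw [hu2]; exact he)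
    rw [e2, card_union_of_disjoint e3, e4] at e1
    omega
  have hsum : S.card = ∑ k, (Sk k).card :=
    card_eq_sum_card_fiberwise (f := kk) (t := univ) (fun _ _ => mem_univ _)
  refine ⟨O 1, O 2, O 3, O 0 ∪ E 0, ∑ k, (O k).card + ∑ k, (E k).card, ?_, ?_, ?_⟩
  · have h0 := hcard 0
    have h1 := hcard 1
    have h2 := hcard 2
    have h3 := hcard 3
    rw [card_rng n hn] at h0 h1 h2 h3
    simp only [Fin.sum_univ_four] at hsum ⊢
    simp at h0 h1 h2 h3
    omega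
  · have := card_union_le (O 0) (E 0)
    simp only [Fin.sum_univ_four]
    omega
  · intro x hx0 hx1 hx
    rw [mem_union, not_or] at hx
    have hr : x ∈ rng n 0 := by simp [rng, hx0, hx1]
    have hi : x ∈ S.image fun v => phi 0 (emb v) := by
      by_contra hc
      exact hx.2 (mem_sdiff.2 ⟨hr, hc⟩)
    obtain ⟨v, hv, rfl⟩ := mem_image.1 hi
    have hk : kk v = 0 := by
      by_contra hc
      exact hx.1 (mem_image_of_mem (fun v => phi 0 (emb v)) (mem_filter.2 ⟨hv, hc⟩))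
    have hj : ∀ j, j ≠ 0 → phi j (emb v) ∈ O j := fun j hj =>
      mem_image_of_mem (fun v => phi j (emb v)) (mem_filter.2 ⟨hv, by rw [hk]; exact hj.symm⟩)
    exact ⟨(emb v).2, hj 1 (by decide), hj 2 (by decide), hj 3 (by decide)⟩

theorem kakeya3_le {n : ℕ} (A : Finset ℤ)
    (h : ∀ d : ℕ, 1 ≤ d → d ≤ n → ∃ x : ℤ, x ∈ A ∧ x + d ∈ A ∧ x + 2 * d ∈ A) :
    kakeya3 n ≤ A.card :=
  Nat.sInf_le ⟨A, rfl, h⟩

theorem kakeya3_spec (n : ℕ) : ∃ A : Finset ℤ, A.card = kakeya3 n ∧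
    ∀ d : ℕ, 1 ≤ d → d ≤ n → ∃ x : ℤ, x ∈ A ∧ x + d ∈ A ∧ x + 2 * d ∈ A := by
  refine Nat.sInf_mem (s := {k : ℕ | ∃ A : Finset ℤ, A.card = k ∧
    ∀ d : ℕ, 1 ≤ d → d ≤ n → ∃ x : ℤ, x ∈ A ∧ x + d ∈ A ∧ x + 2 * d ∈ A})
    ⟨_, Icc 0 (2 * (n : ℤ)), rfl, fun d h1 h2 => ⟨0, ?_, ?_, ?_⟩⟩ <;>
  · rw [mem_Icc]; omega

theorem kakeya3_lower {n : ℕ} (hn : 1 ≤ n) :
    kakeya3 n + 2 * upperIR (queensGraph n) ≤ 12 * n := by
  classical
  obtain ⟨S, hS, hc⟩ := exists_IR (queensGraph n)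
  obtain ⟨O1, O2, O3, M, t, h1, h2, h3⟩ := rows_lemma hn S hS
  have hA := kakeya3_le (n := n)
    (((O2.image fun z => -z - 1) ∪ O1 ∪ (O3.image fun z => z + 1)) ∪
      (insert 0 ((M.image fun z => z + 1) ∪ M.image fun z => 2 * (z + 1)))) (by
    intro d hd1 hd2
    by_cases hm : (d : ℤ) - 1 ∈ M
    · refine ⟨0, by simp, ?_, ?_⟩
      · refine mem_union_right _ (mem_insert_of_mem (mem_union_left _ ?_))
        exact mem_image.2 ⟨_, hm, by ring⟩
      · refine mem_union_right _ (mem_insert_of_mem (mem_union_right _ ?_))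
        exact mem_image.2 ⟨_, hm, by ring⟩
    · obtain ⟨y, y1, y2, y3⟩ := h3 (d - 1) (by omega) (by omega) hm
      refine ⟨y - d, ?_, ?_, ?_⟩
      · refine mem_union_left _ (mem_union_left _ (mem_union_left _ ?_))
        exact mem_image.2 ⟨_, y2, by ring⟩
      · refine mem_union_left _ (mem_union_left _ (mem_union_right _ ?_))
        rwa [sub_add_cancel]
      · refine mem_union_left _ (mem_union_right _ ?_)
        exact mem_image.2 ⟨_, y3, by ring⟩)
  have a1 := card_union_le ((O2.image fun z => -z - 1) ∪ O1 ∪ (O3.image fun z => z + 1))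
    (insert 0 ((M.image fun z => z + 1) ∪ M.image fun z => 2 * (z + 1)))
  have a2 := card_union_le ((O2.image fun z => -z - 1) ∪ O1) (O3.image fun z => z + 1)
  have a3 := card_union_le (O2.image fun z => -z - 1) O1
  have a4 := card_insert_le 0 ((M.image fun z => z + 1) ∪ M.image fun z => 2 * (z + 1))
  have a5 := card_union_le (M.image fun z => z + 1) (M.image fun z => 2 * (z + 1))
  have b1 : (O2.image fun z => -z - 1).card ≤ O2.card := card_image_le
  have b2 : (O3.image fun z => z + 1).card ≤ O3.card := card_image_le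
  have b3 : (M.image fun z => z + 1).card ≤ M.card := card_image_le
  have b4 : (M.image fun z => 2 * (z + 1)).card ≤ M.card := card_image_le
  omega

theorem kakeya3_pos {n : ℕ} (hn : 1 ≤ n) : 1 ≤ kakeya3 n := by
  obtain ⟨A, hA, h⟩ := kakeya3_spec n
  obtain ⟨x, hx, -⟩ := h 1 le_rfl hn
  rw [← hA]
  exact card_pos.2 ⟨x, hx⟩

theorem k_mono {m n : ℕ} (h : m ≤ n) : kakeya3 m ≤ kakeya3 n := by
  obtain ⟨A, hA, hs⟩ := kakeya3_spec n
  exact hA ▸ kakeya3_le A fun d h1 h2 => hs d h1 (h2.trans h)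

theorem k_mul {m n : ℕ} (hm : 1 ≤ m) (hn : 1 ≤ n) : kakeya3 (m * n) ≤ kakeya3 m * kakeya3 n := by
  classical
  obtain ⟨A, hA, ha⟩ := kakeya3_spec m
  obtain ⟨B, hB, hb⟩ := kakeya3_spec n
  refine (kakeya3_le ((A ×ˢ B).image fun p => p.1 + m * p.2) fun d h1 h2 => ?_).trans
    (card_image_le.trans (by rw [card_product, hA, hB]))
  have e := Nat.mod_add_div (d - 1) m
  have e1 := Nat.mod_lt (d - 1) (show 0 < m by omega)
  have e2 : (d - 1) / m < n := Nat.div_lt_of_lt_mul (by omega)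
  generalize (d - 1) % m = r at *
  generalize (d - 1) / m = q at *
  obtain ⟨x, x0, x1, x2⟩ := ha (r + 1) (by omega) (by omega)
  have : ∃ y : ℤ, y ∈ B ∧ y + q ∈ B ∧ y + 2 * q ∈ B := by
    rcases Nat.eq_zero_or_pos q with rfl | hq
    · obtain ⟨y, y0, -⟩ := hb 1 le_rfl hn
      exact ⟨y, y0, by simpa using y0, by simpa using y0⟩
    · exact hb q hq e2.le
  obtain ⟨y, y0, y1, y2⟩ := this
  have hd : (d : ℤ) = r + 1 + m * q := by
    have : d = r + 1 + m * q := by omega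
    exact_mod_cast this
  refine ⟨x + m * y, mem_image.2 ⟨(x, y), mem_product.2 ⟨x0, y0⟩, rfl⟩,
    mem_image.2 ⟨(_, _), mem_product.2 ⟨x1, y1⟩, ?_⟩,
    mem_image.2 ⟨(_, _), mem_product.2 ⟨x2, y2⟩, ?_⟩⟩ <;>
  · rw [hd]; push_cast; ring

theorem k_pow {m : ℕ} (hm : 1 ≤ m) (k : ℕ) : kakeya3 (m ^ (k + 1)) ≤ kakeya3 m ^ (k + 1) := by
  induction k with
  | zero => simp
  | succ k ih =>
    rw [pow_succ, pow_succ (kakeya3 m)]
    exact (k_mul (Nat.one_le_pow _ _ hm) hm).trans (Nat.mul_le_mul_right _ ih)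

theorem fekete : ∃ θ : ℝ, 0 ≤ θ ∧ (∀ n : ℕ, 1 ≤ n → (n : ℝ) ^ θ ≤ kakeya3 n) ∧
    ∀ δ : ℝ, 0 < δ → ∃ c : ℝ, 1 ≤ c ∧ ∀ b : ℕ, 1 ≤ b → (kakeya3 b : ℝ) ≤ (c * b) ^ (θ + δ) := by
  let S : Set ℝ := {z | ∃ m : ℕ, 2 ≤ m ∧ z = Real.log (kakeya3 m) / Real.log m}
  have hne : S.Nonempty := ⟨_, 2, le_rfl, rfl⟩
  have hlog : ∀ m : ℕ, 2 ≤ m → 0 < Real.log m := fun m hm =>
    Real.log_pos (by exact_mod_cast hm)
  have hk : ∀ m : ℕ, 1 ≤ m → (1 : ℝ) ≤ kakeya3 m := fun m hm => by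
    exact_mod_cast kakeya3_pos hm
  have h0 : ∀ z ∈ S, 0 ≤ z := by
    rintro z ⟨m, hm, rfl⟩
    exact div_nonneg (Real.log_nonneg (hk m (by omega))) (hlog m hm).le
  have hθ : 0 ≤ sInf S := le_csInf hne h0
  refine ⟨sInf S, hθ, fun n hn => ?_, fun δ hδ => ?_⟩
  · rcases Nat.eq_or_lt_of_le hn with rfl | h2
    · simpa using hk 1 le_rfl
    have a1 : sInf S ≤ Real.log (kakeya3 n) / Real.log n := csInf_le ⟨0, h0⟩ ⟨n, h2, rfl⟩
    rw [le_div_iff₀ (hlog n h2)] at a1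
    rw [Real.rpow_le_iff_le_log (by positivity) (by linarith [hk n hn])]
    exact a1
  · obtain ⟨z, ⟨m, hm, rfl⟩, hz⟩ := exists_lt_of_csInf_lt hne (show sInf S < sInf S + δ by linarith)
    rw [div_lt_iff₀ (hlog m hm)] at hz
    have hm0 : (0 : ℝ) < m := by positivity
    have a1 : (kakeya3 m : ℝ) ≤ (m : ℝ) ^ (sInf S + δ) := by
      rw [Real.le_rpow_iff_log_le (by linarith [hk m (by omega)]) hm0]
      exact hz.le
    refine ⟨m, by exact_mod_cast (by omega : 1 ≤ m), fun b hb => ?_⟩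
    have a2 : b < m ^ (Nat.log m b + 1) := Nat.lt_pow_succ_log_self (by omega) b
    have a3 : m ^ Nat.log m b ≤ b := Nat.pow_log_le_self m (by omega)
    have a4 := (k_mono a2.le).trans (k_pow (by omega) _)
    generalize Nat.log m b = k at *
    calc (kakeya3 b : ℝ) ≤ (kakeya3 m : ℝ) ^ (k + 1) := by exact_mod_cast a4
      _ ≤ ((m : ℝ) ^ (sInf S + δ)) ^ (k + 1) := by gcongr
      _ = ((m : ℝ) ^ (k + 1)) ^ (sInf S + δ) := by
          rw [← Real.rpow_natCast, ← Real.rpow_natCast, ← Real.rpow_mul hm0.le,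
            ← Real.rpow_mul hm0.le, mul_comm]
      _ ≤ ((m : ℝ) * b) ^ (sInf S + δ) := by
          apply Real.rpow_le_rpow (by positivity) _ (by linarith)
          rw [pow_succ']
          exact mul_le_mul_of_nonneg_left (by exact_mod_cast a3) hm0.le

end Pool.Agent.P.MP_c18ee8_co.Ud
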