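import Pool.Agent.P.MP_c18ee8_co.UdMain
import Pool.Agent.P.MP_c18ee8_co.UdKak

/-! The choice of the parameters. -/

namespace Pool.Agent.P.MP_c18ee8_co.Ud

open Finset

theorem upperDom_kakeya (ε : ℝ) (hε : 0 < ε) : ∃ C : ℝ, 0 ≤ C ∧ ∀ n : ℕ, 1 ≤ n →
    6 * (n : ℝ) - upperDom (queensGraph n) ≤ C * (n : ℝ) ^ ε * kakeya3 n := by
  obtain ⟨θ, hθ, lo, up⟩ := fekete
  obtain ⟨c, hc, up⟩ := up (ε / 2) (by linarith)
  obtain ⟨K, hK⟩ := exists_nat_gt (20 / ε)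
  have hK0 : (0 : ℝ) < K := lt_trans (by positivity) hK
  have hK1 : K ≠ 0 := by rintro rfl; simp at hK0
  obtain ⟨Q, hQ, h⟩ := main K
  have hQ' : (1 : ℝ) ≤ Q := by exact_mod_cast hQ
  refine ⟨12 * (2 ^ K * ((14 * Q) ^ 10 * (152 * (c * (14 * Q)) ^ (θ + ε / 2)) ^ K)) + 6 * Q,
    by positivity, fun n hn => ?_⟩
  have hn' : (1 : ℝ) ≤ n := by exact_mod_cast hn
  have hk : (1 : ℝ) ≤ kakeya3 n := by exact_mod_cast kakeya3_pos hn
  have he : (1 : ℝ) ≤ (n : ℝ) ^ ε := Real.one_le_rpow hn' hε.le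
  have hek : (1 : ℝ) ≤ (n : ℝ) ^ ε * kakeya3 n := one_le_mul_of_one_le_of_one_le he hk
  rw [mul_assoc, add_mul]
  have hu : (0 : ℝ) ≤ upperDom (queensGraph n) := by positivity
  rcases le_or_gt n Q with hs | hs
  · have a1 : (n : ℝ) ≤ Q := by exact_mod_cast hs
    have a2 : (0 : ℝ) ≤ 12 * (2 ^ K * ((14 * Q) ^ 10 *
        (152 * (c * (14 * Q)) ^ (θ + ε / 2)) ^ K)) * ((n : ℝ) ^ ε * kakeya3 n) := by positivity
    nlinarith
  obtain ⟨r, hr⟩ : ∃ r : ℝ, r = (n : ℝ) ^ ((K : ℝ)⁻¹) := ⟨_, rfl⟩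
  have r1 : 1 ≤ r := hr ▸ Real.one_le_rpow hn' (by positivity)
  have r2 : r ^ K = n := hr ▸ Real.rpow_inv_natCast_pow (by positivity) hK1
  obtain ⟨m, m1, m2⟩ : ∃ m : ℕ, r < m ∧ (m : ℝ) ≤ 2 * r :=
    ⟨⌊r⌋₊ + 1, by exact_mod_cast Nat.lt_floor_add_one r, by
      have := Nat.floor_le (show 0 ≤ r by linarith)
      push_cast; linarith⟩
  have m3 : 1 ≤ m := by exact_mod_cast (show ((1 : ℕ) : ℝ) ≤ m by push_cast; linarith)
  have m4 : Q ≤ Q * m := Nat.le_mul_of_pos_right _ m3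
  have m5 : m ≤ Q * m := Nat.le_mul_of_pos_left _ hQ
  obtain ⟨b, hb⟩ : ∃ b : ℕ, b = 6 * (Q * m) + 1 := ⟨_, rfl⟩
  have b1 : (b : ℝ) ≤ 14 * Q * r := by
    have a1 : (b : ℝ) ≤ 7 * (Q * m) := by exact_mod_cast (show b ≤ 7 * (Q * m) by omega)
    nlinarith
  have b2 : n < b ^ K := by
    have a1 : r < b := m1.trans_le (by exact_mod_cast (show m ≤ b by omega))
    have a2 : r ^ K < (b : ℝ) ^ K := pow_lt_pow_left₀ a1 (by linarith) hK1
    rw [r2] at a2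
    exact_mod_cast a2
  have b3 : Nat.Coprime Q b := by
    rw [hb, show 6 * (Q * m) + 1 = 1 + Q * (6 * m) by ring]
    simp
  obtain ⟨A, hA, ap⟩ := kakeya3_spec b
  obtain ⟨U, hU, cU⟩ := exists_sys n (show Odd b from ⟨3 * (Q * m), by omega⟩) A ap
  have k1 := kakeya3_pos (show 1 ≤ b by omega)
  have key := h n b (152 * kakeya3 b) U hU b3 (by omega) b2 hs (by omega) fun t => by
    have := cU t
    omega
  have key' : 6 * (n : ℝ) ≤ upperDom (queensGraph n) +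
      12 * (2 ^ K * ((b : ℝ) ^ 10 * (152 * (kakeya3 b : ℝ)) ^ K)) := by exact_mod_cast key
  have c1 : (kakeya3 b : ℝ) ≤ (c * (14 * Q)) ^ (θ + ε / 2) * r ^ (θ + ε / 2) := by
    rw [← Real.mul_rpow (by positivity) (by linarith)]
    refine (up b (by omega)).trans (Real.rpow_le_rpow (by positivity) ?_ (by linarith))
    rw [mul_assoc]
    exact mul_le_mul_of_nonneg_left b1 (by linarith)
  have c2 : (r ^ (θ + ε / 2)) ^ K = (n : ℝ) ^ θ * (n : ℝ) ^ (ε / 2) := by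
    rw [← Real.rpow_add (by linarith), ← r2, ← Real.rpow_natCast, ← Real.rpow_natCast,
      ← Real.rpow_mul (by linarith), ← Real.rpow_mul (by linarith), mul_comm]
  have c3 : r ^ 10 ≤ (n : ℝ) ^ (ε / 2) := by
    rw [hr, ← Real.rpow_natCast, ← Real.rpow_mul (by linarith)]
    apply Real.rpow_le_rpow_of_exponent_le hn'
    rw [div_lt_iff₀ hε] at hK
    rw [inv_mul_le_iff₀ hK0]
    push_cast; linarith
  have c4 : (n : ℝ) ^ (ε / 2) * (n : ℝ) ^ (ε / 2) = (n : ℝ) ^ ε := by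
    rw [← Real.rpow_add (by linarith)]; ring_nf
  have c5 : (b : ℝ) ^ 10 * (152 * (kakeya3 b : ℝ)) ^ K ≤
      (14 * Q) ^ 10 * (152 * (c * (14 * Q)) ^ (θ + ε / 2)) ^ K * ((n : ℝ) ^ ε * kakeya3 n) :=
    calc (b : ℝ) ^ 10 * (152 * (kakeya3 b : ℝ)) ^ K
        ≤ (14 * Q * r) ^ 10 * (152 * ((c * (14 * Q)) ^ (θ + ε / 2) * r ^ (θ + ε / 2))) ^ K := by
          gcongr
      _ = (14 * Q) ^ 10 * (152 * (c * (14 * Q)) ^ (θ + ε / 2)) ^ K *
            (r ^ 10 * (r ^ (θ + ε / 2)) ^ K) := by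
          rw [← mul_assoc 152, mul_pow _ (r ^ (θ + ε / 2)), mul_pow _ r]; ring
      _ ≤ (14 * Q) ^ 10 * (152 * (c * (14 * Q)) ^ (θ + ε / 2)) ^ K *
            ((n : ℝ) ^ (ε / 2) * (kakeya3 n * (n : ℝ) ^ (ε / 2))) := by
          rw [c2]
          gcongr
          exact lo n hn
      _ = _ := by rw [← c4]; ring
  have c6 : (0 : ℝ) ≤ 6 * Q * ((n : ℝ) ^ ε * kakeya3 n) := by positivity
  have c7 := mul_le_mul_of_nonneg_left c5 (show (0 : ℝ) ≤ 12 * 2 ^ K by positivity)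
  linarith

theorem upperDom_IR (ε : ℝ) (hε : 0 < ε) : ∃ C : ℝ, ∀ n : ℕ, 1 ≤ n →
    6 * (n : ℝ) - upperDom (queensGraph n) ≤
      C * (n : ℝ) ^ ε * (6 * (n : ℝ) - upperIR (queensGraph n)) := by
  obtain ⟨C, hC, h⟩ := upperDom_kakeya ε hε
  refine ⟨2 * C, fun n hn => (h n hn).trans ?_⟩
  have a1 : (kakeya3 n : ℝ) + 2 * upperIR (queensGraph n) ≤ 12 * n := by
    exact_mod_cast kakeya3_lower hn
  have a2 : 0 ≤ C * (n : ℝ) ^ ε := by positivity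
  nlinarith

end Pool.Agent.P.MP_c18ee8_co.Ud
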