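import Pool.Agent.P.MP_c18ee8_co.UdTiny
import Pool.Agent.P.MP_c18ee8_co.UdDigits

/-! The construction of a large minimal dominating set. -/

namespace Pool.Agent.P.MP_c18ee8_co.Ud

open Finset

theorem level {b K : ℕ} {c Q lm : ℤ} (hc : 0 ≤ c) (hQ : 1 ≤ Q) (hb : Q + c + 1 ≤ b)
    (h1 : c + Q + 1 ≤ lm) (h2 : lm < (b : ℤ) ^ K) :
    ∃ ρ : ℕ, c + Q * (b : ℤ) ^ ρ + 1 ≤ lm ∧ lm ≤ (b : ℤ) ^ (ρ + 2) := by
  by_contra h
  push Not at h
  have : ∀ ρ : ℕ, c + Q * (b : ℤ) ^ ρ + 1 ≤ lm := by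
    intro ρ
    induction ρ with
    | zero => simpa using h1
    | succ ρ ih =>
      have a1 := h ρ ih
      have a2 : (1 : ℤ) ≤ (b : ℤ) ^ (ρ + 1) := one_le_pow₀ (by omega)
      rw [pow_succ _ (ρ + 1)] at a1
      nlinarith
  have a1 := this K
  have a2 : (1 : ℤ) ≤ (b : ℤ) ^ K := one_le_pow₀ (by omega)
  nlinarith

theorem card_two (K ρ : ℕ) :
    (univ.filter fun t : Fin K => t.val = ρ ∨ t.val = ρ + 1).card ≤ 2 := by
  refine (card_le_card_of_injOn (t := {ρ, ρ + 1}) Fin.val ?_ Fin.val_injective.injOn).trans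
    card_le_two
  intro t ht
  simpa using ht

theorem third : ∀ j a : Fin 4, a ≠ j → ∃ i, i ≠ j ∧ a ≠ i ∧ (a.val < 2 ∨ i.val < 2) := by
  decide

def lab (j : Fin 4) (k : Fin 9) : Fin 4 := j.succAbove ⟨k.val % 3, Nat.mod_lt _ (by norm_num)⟩

theorem lab_ne : ∀ j k, lab j k ≠ j := by decide

theorem lab_card : ∀ j i : Fin 4, i ≠ j → (univ.filter fun k => lab j k ≠ i).card ≤ 6 := by decide

theorem pick {K : ℕ} (X : Finset (Fin K)) (hX : 9 ≤ X.card) (j : Fin 4) :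
    ∃ f : Fin K → Fin 4, (∀ t, f t ≠ j → t ∈ X) ∧ 9 ≤ (univ.filter fun t => f t ≠ j).card ∧
      ∀ i, i ≠ j → (univ.filter fun t => f t ≠ j ∧ f t ≠ i).card ≤ 6 := by
  classical
  let φ := X.orderEmbOfCardLe hX
  have hφ : Function.Injective φ := φ.injective
  have h1 : ∀ t, Function.extend φ (lab j) (fun _ => j) t ≠ j → ∃ k, φ k = t := by
    intro t ht
    by_contra hc
    exact ht (Function.extend_apply' _ _ _ hc)
  refine ⟨Function.extend φ (lab j) fun _ => j, fun t ht => ?_, ?_, fun i hi => ?_⟩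
  · obtain ⟨k, rfl⟩ := h1 t ht
    exact X.orderEmbOfCardLe_mem hX k
  · refine le_trans (by simp) (card_le_card_of_injOn (s := univ) φ (fun k _ => ?_) hφ.injOn)
    simp only [coe_filter, mem_univ, true_and, Set.mem_ofPred_eq]
    rw [hφ.extend_apply]
    exact lab_ne j k
  · refine le_trans (card_le_card (t := (univ.filter fun k => lab j k ≠ i).image φ) fun t ht => ?_)
      (card_image_le.trans (lab_card j i hi))
    obtain ⟨-, a1, a2⟩ := mem_filter.1 ht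
    obtain ⟨k, rfl⟩ := h1 t a1
    rw [hφ.extend_apply] at a2
    exact mem_image_of_mem _ (mem_filter.2 ⟨mem_univ _, a2⟩)

variable {b n K Q : ℕ} {U : ℕ → Finset ℤ} {P : Fin 4 × (Fin K → Fin 4) → Fin 4 → ℤ → Prop}

theorem exc_mono (v : ℤ) : exc b U K 9 v ⊆ exc b U K 1 v := fun _ ht =>
  mem_exc.2 fun h => mem_exc.1 ht (h.mono (by norm_num))

theorem exc_near (h : Sys b n U) {ρ : ℕ} {v : ℤ} (hv : Near n ((b : ℤ) ^ (ρ + 2)) v) {t : Fin K}
    (ht : t ∈ exc b U K 1 v) : t.val < ρ + 2 := by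
  by_contra hc
  have := h.pos
  exact mem_exc.1 ht (near_dig h hv (pow_le_pow_right₀ (by omega) (by omega)))

theorem closing (h : Sys b n U) (hQ : 1 ≤ Q) (hP : Gad Prod.fst Q P) (hc : Nat.Coprime Q b)
    {j : Fin 4} {v m : ℤ} (hv : v ∈ rg n j) (hm : 0 ≤ m) {ρ : ℕ}
    (h1 : 2 * m + Q * (b : ℤ) ^ ρ + 1 ≤ lam n j v) (h2 : lam n j v ≤ (b : ℤ) ^ (ρ + 2))
    (f : Fin K → Fin 4) (hf : ∀ t, f t ≠ j → t.val < ρ) :
    ∃ x y, On n x y ∧ L j x y = v ∧ (j ≠ 0 → m ≤ x ∧ x < n - m) ∧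
      (∀ t, f t ≠ j → dig b t (L (f t) x y) = 0) ∧ ∀ i, i ≠ j → P (j, f) i (L i x y) ∧
        (exc b U K 1 (L i x y)).card ≤ (univ.filter fun t => f t ≠ j ∧ f t ≠ i).card + 2 := by
  classical
  obtain ⟨x, y, e, hw⟩ := window hv m hm
  obtain ⟨s1, p1⟩ := hP.2 (j, f) x y
  obtain ⟨s2, p2⟩ := loc_all h j (fun t => if ht : t < K then f ⟨t, ht⟩ else j) x y ρ
  have hco : IsCoprime (Q : ℤ) ((b : ℤ) ^ ρ) := (Nat.isCoprime_iff_coprime.2 hc).pow_right
  obtain ⟨r, r1, r2⟩ := crt hco s1 s2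
  have hb := h.pos
  have hW : (0 : ℤ) < Q * (b : ℤ) ^ ρ := by positivity
  have a1 := Int.emod_nonneg r hW.ne'
  have a2 := Int.emod_lt_of_pos r hW
  have a3 : r % (Q * (b : ℤ) ^ ρ) ≡ r [ZMOD Q * (b : ℤ) ^ ρ] := Int.mod_modEq _ _
  generalize r % (Q * (b : ℤ) ^ ρ) = s at a1 a2 a3
  obtain ⟨w1, w2⟩ := hw s a1 (by omega)
  have q1 := (a3.of_mul_right _).trans r1
  have q2 := p2 s ((a3.of_mul_left _).trans r2)
  have ej : L j (x + s * c2 j) (y - s * c1 j) = v := by rw [L_shift, D_self, e]; ring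
  have q3 : ∀ t : Fin K, t.val < ρ →
      Loc b U t j (f t) fun i => L i (x + s * c2 j) (y - s * c1 j) := by
    intro t ht
    have := q2 t ht
    simp only [dif_pos t.2] at this
    simp only [L_shift]
    exact this
  refine ⟨_, _, w1, ej, w2, fun t ht => (q3 t (hf t ht)).2 ht, fun i hi => ⟨?_, ?_⟩⟩
  · rw [L_shift]
    exact hP.1 _ _ _ _ ((q1.symm.mul_right _).add_left _) (p1 i hi)
  · refine le_trans (card_le_card fun t ht => ?_) ((card_union_le _ _).trans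
      (Nat.add_le_add_left (card_two K ρ) _))
    have b1 := exc_near h (near_pt w1 j i (ej ▸ h2)) ht
    rw [mem_exc] at ht
    by_cases b2 : t.val < ρ
    · refine mem_union_left _ (mem_filter.2 ⟨mem_univ _, fun b3 => ht ((q3 t b2).1 b3 i hi),
        fun b3 => ht ?_⟩)
      have := (q3 t b2).2 (b3 ▸ hi)
      simp only [b3] at this
      exact ⟨0, h.zero t, 0, by simp, by simpa using this⟩
    · exact mem_union_right _ (mem_filter.2 ⟨mem_univ _, by omega⟩)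

theorem main (K : ℕ) : ∃ Q : ℕ, 1 ≤ Q ∧ ∀ (n b N : ℕ) (U : ℕ → Finset ℤ), Sys b n U →
    Nat.Coprime Q b → 3 * Q + 3 ≤ b → n < b ^ K → Q + 1 ≤ n → 1 ≤ N →
    (∀ t, 19 * (U t).card ≤ N) →
    6 * n ≤ upperDom (queensGraph n) + 12 * (2 ^ K * (b ^ 10 * N ^ K)) := by
  classical
  obtain ⟨Q, hQ, P, hP, sep, pat⟩ := tiny (Prod.fst : Fin 4 × (Fin K → Fin 4) → Fin 4)
  refine ⟨Q, hQ, fun n b N U h hc hb hn hQn hN1 hN => ?_⟩
  have hn' : (n : ℤ) < (b : ℤ) ^ K := by exact_mod_cast hn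
  let E : Fin 4 → ℤ → Prop := fun i v => ∃ σ : Fin 4 × (Fin K → Fin 4), σ.1 ≠ i ∧
    9 ≤ (univ.filter fun t => σ.2 t ≠ σ.1).card ∧ P σ i v ∧ (exc b U K 1 v).card ≤ 8 ∧
    (i = 0 → (Q : ℤ) + 1 ≤ v ∧ v < n - (Q + 1)) ∧ (∀ t, σ.2 t = i → dig b t v = 0) ∧
    ∀ t, σ.2 t ≠ σ.1 → σ.2 t ≠ i → ((σ.2 t).val < 2 ∨ i.val < 2) → Cert b U t σ.1 (σ.2 t) i v
  let H : Fin 4 → ℤ → Prop := fun i v =>
    ∃ j, P (j, fun _ => j) i v ∧ (exc b U K 1 v).card ≤ 8
  have hH : ∀ j v, v ∈ rg n j → (Q : ℤ) + 1 ≤ lam n j v → Thru n H j v := by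
    intro j v hv hl
    obtain ⟨ρ, a1, a2⟩ := level (b := b) (K := K) (c := 0) (Q := Q) le_rfl (by omega) (by omega)
      (by omega : (0 : ℤ) + Q + 1 ≤ lam n j v) ((lam_le j v).trans_lt hn')
    obtain ⟨x, y, b1, b2, -, -, b3⟩ := closing h hQ hP hc hv le_rfl (by linarith) a2
      (fun _ => j) (fun _ ht => absurd rfl ht)
    refine ⟨x, y, b1, b2, fun k hk => ⟨j, (b3 k hk).1, (b3 k hk).2.trans ?_⟩⟩
    simp
  have hno : ∀ x y, ¬ ∀ i, E i (L i x y) := by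
    intro x y hE
    choose π p1 p2 p3 p4 p5 p6 p7 using hE
    obtain ⟨j, σ, hσ⟩ := pat π x y p1 p3
    have e : σ.1 = j := by
      by_contra hc
      exact p1 σ.1 (by rw [hσ _ hc])
    obtain ⟨i0, hi0⟩ := exists_ne j
    have a1 := p2 i0
    rw [hσ i0 hi0, e] at a1
    have a2 : (univ.filter fun t => σ.2 t ≠ j) ⊆ exc b U K 1 (L j x y) := by
      intro t ht
      have ht := (mem_filter.1 ht).2
      obtain ⟨i, c1, c2, c3⟩ := third j (σ.2 t) ht
      have b1 := p6 (σ.2 t) t (by rw [hσ _ ht])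
      have b2 := p7 i t
      rw [hσ i c1, e] at b2
      exact mem_exc.2 (b2 ht c2 c3 x y b1 rfl)
    have a3 := card_le_card a2
    have a4 := p4 j
    omega
  have hB := board n E H ?_
    (fun i => (rg n i).filter fun v => ¬ (exc b U K 9 v).card ≤ 10) ?_ ?_
  · have c := count (U := U) h.pos hn hN1 hN
    have a1 : ∀ i, (rg n i).card ≤ ((rg n i).filter fun v => ¬ (exc b U K 9 v).card ≤ 10).card +
        3 * (2 ^ K * (b ^ 10 * N ^ K)) := by
      intro i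
      have a1 := card_filter_add_card_filter_not (s := rg n i) fun v => (exc b U K 9 v).card ≤ 10
      have a2 : ((rg n i).filter fun v => (exc b U K 9 v).card ≤ 10).card ≤
          ((Ico (-(n : ℤ)) (2 * n)).filter fun v => (exc b U K 9 v).card ≤ 10).card :=
        card_le_card (filter_subset_filter _ fun v hv => mem_Ico.2 (rg_sub hv))
      omega
    have a2 := sum_le_sum (s := univ) fun i _ => a1 i
    rw [card_rg, sum_add_distrib] at a2
    simp only [sum_const, card_univ, Fintype.card_fin, smul_eq_mul] at a2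
    omega
  · rintro i v ⟨σ, -, a1, a2, -⟩ ⟨j, b1, -⟩
    refine sep σ _ i v ?_ a2 b1
    rintro rfl
    simp at a1
  · intro x y hxy
    by_cases h0 : E 0 (L 0 x y)
    · obtain ⟨i, hi⟩ := not_forall.1 (hno x y)
      obtain ⟨σ, -, -, -, -, a1, -⟩ := h0
      rw [L0] at a1
      exact ⟨i, hi, hH i _ (L_mem hxy i) (lam_ge hxy (a1 rfl).1 (a1 rfl).2 i)⟩
    · exact ⟨0, h0, hH 0 _ (L_mem hxy 0) (by simp [lam]; omega)⟩
  · intro j v hv
    obtain ⟨hv, hx⟩ := mem_filter.1 hv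
    have m1 := card_le_card (exc_mono (b := b) (U := U) (K := K) v)
    have hsplit : ∀ ρ, lam n j v ≤ (b : ℤ) ^ (ρ + 2) →
        9 ≤ ((exc b U K 9 v).filter fun t => t.val < ρ).card := by
      intro ρ hρ
      have a1 : exc b U K 9 v ⊆ ((exc b U K 9 v).filter fun t => t.val < ρ) ∪
          univ.filter fun t : Fin K => t.val = ρ ∨ t.val = ρ + 1 := by
        intro t ht
        have := exc_near h (near_self hv hρ) (exc_mono v ht)
        by_cases b2 : t.val < ρ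
        · exact mem_union_left _ (mem_filter.2 ⟨ht, b2⟩)
        · exact mem_union_right _ (mem_filter.2 ⟨mem_univ _, by omega⟩)
      have a2 := (card_le_card a1).trans (card_union_le _ _)
      have a3 := card_two K ρ
      omega
    have hl : (b : ℤ) ^ 2 < lam n j v := by
      by_contra hc
      have := hsplit 0 (not_lt.1 hc)
      simp at this
    have hb' : 3 * (Q : ℤ) + 3 ≤ b := by exact_mod_cast hb
    have hl' : (b : ℤ) ≤ lam n j v := by nlinarith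
    refine ⟨?_, ?_, hH j v hv (by omega), ?_⟩
    · rintro ⟨σ, -, -, -, a1, -⟩
      omega
    · rintro ⟨σ, -, a1⟩
      omega
    obtain ⟨ρ, a1, a2⟩ := level (b := b) (K := K) (c := 2 * (Q + 1)) (Q := Q) (by omega) (by omega)
      (by omega) (by omega : 2 * ((Q : ℤ) + 1) + Q + 1 ≤ lam n j v) ((lam_le j v).trans_lt hn')
    obtain ⟨f, f1, f2, f3⟩ := pick _ (hsplit ρ a2) j
    obtain ⟨x, y, b1, b2, b3, b4, b5⟩ := closing h hQ hP hc hv (m := Q + 1) (by omega) a1 a2 f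
      (fun t ht => (mem_filter.1 (f1 t ht)).2)
    refine ⟨x, y, b1, b2, fun k hk => ⟨(j, f), hk.symm, f2, (b5 k hk).1, ?_, ?_, ?_, ?_⟩⟩
    · have := (b5 k hk).2
      have := f3 k hk
      omega
    · rintro rfl
      rw [L0]
      exact b3 hk.symm
    · rintro t rfl
      exact b4 t hk
    · intro t c1 c2 c3
      exact cert_of h.pos c2 c3 (b4 t c1) (b2 ▸ mem_exc.1 (mem_filter.1 (f1 t c1)).1)

end Pool.Agent.P.MP_c18ee8_co.Ud
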