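import Pool.Agent.P.MP_c18ee8_co.UdBoard

/-! Residue conditions that keep different labels apart. -/

namespace Pool.Agent.P.MP_c18ee8_co.Ud

open Finset

variable {Λ : Type}

/-- P is Q-periodic and each label σ has an admissible point on every line of part κ σ -/
def Gad (κ : Λ → Fin 4) (Q : ℕ) (P : Λ → Fin 4 → ℤ → Prop) : Prop :=
  (∀ σ i v v', v ≡ v' [ZMOD Q] → P σ i v → P σ i v') ∧
    ∀ σ x y, ∃ s : ℤ, ∀ i, i ≠ κ σ → P σ i (L i x y + s * D i (κ σ))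

theorem crt {a b : ℤ} (h : IsCoprime a b) (s t : ℤ) : ∃ r, r ≡ s [ZMOD a] ∧ r ≡ t [ZMOD b] := by
  obtain ⟨u, v, huv⟩ := h
  refine ⟨s * v * b + t * u * a, ?_, ?_⟩
  · rw [Int.modEq_iff_dvd]
    exact ⟨s * u - t * u, by linear_combination (-s) * huv⟩
  · rw [Int.modEq_iff_dvd]
    exact ⟨t * v - s * v, by linear_combination (-t) * huv⟩

theorem gad_and {κ : Λ → Fin 4} {Q Q' : ℕ} (hc : Nat.Coprime Q Q')
    {P P' : Λ → Fin 4 → ℤ → Prop} (h : Gad κ Q P) (h' : Gad κ Q' P') :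
    Gad κ (Q * Q') fun σ i v => P σ i v ∧ P' σ i v := by
  refine ⟨fun σ i v v' hv hP => ?_, fun σ x y => ?_⟩
  · push_cast at hv
    exact ⟨h.1 σ i v v' (hv.of_mul_right _) hP.1, h'.1 σ i v v' (hv.of_mul_left _) hP.2⟩
  · obtain ⟨s, hs⟩ := h.2 σ x y
    obtain ⟨s', hs'⟩ := h'.2 σ x y
    obtain ⟨r, r1, r2⟩ := crt (Nat.isCoprime_iff_coprime.2 hc) s s'
    exact ⟨r, fun i hi => ⟨h.1 σ i _ _ ((r1.symm.mul_right _).add_left _) (hs i hi),
      h'.1 σ i _ _ ((r2.symm.mul_right _).add_left _) (hs' i hi)⟩⟩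

theorem gad_all {κ : Λ → Fin 4} {ι : Type} (s : Finset ι)
    (Φ : ι → (Λ → Fin 4 → ℤ → Prop) → Prop)
    (mono : ∀ r P P', (∀ σ i v, P' σ i v → P σ i v) → Φ r P → Φ r P')
    (h : ∀ r q, Nat.Prime q → 5 ≤ q → ∃ P, Gad κ q P ∧ Φ r P) :
    ∃ Q, 1 ≤ Q ∧ ∃ P, Gad κ Q P ∧ ∀ r ∈ s, Φ r P := by
  classical
  induction s using Finset.induction_on with
  | empty =>
    exact ⟨1, le_rfl, fun _ _ _ => True, ⟨fun _ _ _ _ _ _ => trivial,
      fun _ _ _ => ⟨0, fun _ _ => trivial⟩⟩, fun r hr => absurd hr (notMem_empty r)⟩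
  | insert a s _ ih =>
    obtain ⟨Q, hQ, P, hP, hΦ⟩ := ih
    obtain ⟨q, hq, hp⟩ := Nat.exists_infinite_primes (Q + 5)
    obtain ⟨P', hP', hΦ'⟩ := h a q hp (by omega)
    have hc : Nat.Coprime Q q :=
      ((Nat.Prime.coprime_iff_not_dvd hp).2 (Nat.not_dvd_of_pos_of_lt (by omega) (by omega))).symm
    refine ⟨Q * q, Nat.mul_pos (by omega) (by omega), _, gad_and hc hP hP', fun r hr => ?_⟩
    rcases mem_insert.1 hr with rfl | hr
    · exact mono _ _ _ (fun _ _ _ h => h.2) hΦ'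
    · exact mono _ _ _ (fun _ _ _ h => h.1) (hΦ r hr)

theorem cramer (i k l : Fin 4) (x y : ℤ) :
    D i k * L l x y = D l k * L i x y + D i l * L k x y := by
  unfold L D; ring

theorem gad_field {κ : Λ → Fin 4} {q : ℕ} [NeZero q] (P : Λ → Fin 4 → ZMod q → Prop)
    (h : ∀ σ (x y : ℤ), ∃ s : ZMod q, ∀ i, i ≠ κ σ →
      P σ i ((L i x y : ℤ) + s * (D i (κ σ) : ℤ))) :
    Gad κ q fun σ i v => P σ i v := by
  refine ⟨fun σ i v v' hv hP => ?_, fun σ x y => ?_⟩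
  · have e := (ZMod.intCast_eq_intCast_iff _ _ _).2 hv
    show P σ i v'
    rw [← e]
    exact hP
  · obtain ⟨s, hs⟩ := h σ x y
    refine ⟨(s.val : ℤ), fun i hi => ?_⟩
    have := hs i hi
    simpa using this

theorem D_ne {q : ℕ} (h5 : 5 ≤ q) {i j : Fin 4} (h : i ≠ j) :
    ((D i j : ℤ) : ZMod q) ≠ 0 := by
  rw [Ne, ZMod.intCast_zmod_eq_zero_iff_dvd]
  intro hd
  have := Int.le_of_dvd (by rcases D_cases i j h with e | e | e | e <;> rw [e] <;> norm_num)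
    ((dvd_abs _ _).2 hd)
  rcases D_cases i j h with e | e | e | e <;> rw [e] at this <;> norm_num at this <;> omega

theorem gad_single {κ : Λ → Fin 4} {q : ℕ} (hq : q.Prime) (h5 : 5 ≤ q) (c : Λ → Fin 4 → Prop)
    (hc : ∀ σ i i', c σ i → c σ i' → i = i') (val : Λ → Fin 4 → ZMod q) :
    Gad κ q fun σ i v => c σ i → (v : ZMod q) = val σ i := by
  have := Fact.mk hq
  apply gad_field (fun σ i z => c σ i → z = val σ i)
  intro σ x y
  by_cases h : ∃ i, i ≠ κ σ ∧ c σ i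
  · obtain ⟨i, h1, h2⟩ := h
    refine ⟨(val σ i - (L i x y : ℤ)) / (D i (κ σ) : ℤ), fun k _ hk => ?_⟩
    obtain rfl := hc σ i k h2 hk
    have := D_ne h5 h1
    field_simp
    ring
  · exact ⟨0, fun i h1 h2 => absurd ⟨i, h1, h2⟩ h⟩

theorem three_avoid {q : ℕ} (hq : q.Prime) (h5 : 5 ≤ q) (a b c : ZMod q) :
    ∃ T : ZMod q, T ≠ a ∧ T ≠ b ∧ T ≠ c := by
  have := Fact.mk hq
  by_contra h
  push Not at h
  have h1 : (univ : Finset (ZMod q)) ⊆ {a, b, c} := by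
    intro T _
    by_cases h1 : T = a
    · simp [h1]
    by_cases h2 : T = b
    · simp [h2]
    simp [h T h1 h2]
  have h2 := card_le_card h1
  have h3 : ({a, b, c} : Finset (ZMod q)).card ≤ 3 := card_le_three
  rw [card_univ, ZMod.card] at h2
  omega

theorem pickA {F : Type} [Field F] {α β T : F} (w : F) (hα : α ≠ 0) (h1 : β * T ≠ 0)
    (h2 : 2 * α + β * T ≠ 0) :
    ∃ u, (u = 0 ∨ u = 1) ∧ α * u + β * w ≠ 0 ∧ α * u + β * w ≠ α + β * T := by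
  by_cases a1 : β * w = 0
  · refine ⟨1, Or.inr rfl, fun h => hα ?_, fun h => h1 ?_⟩
    · linear_combination h - a1
    · linear_combination a1 - h
  by_cases a2 : β * w = α + β * T
  · refine ⟨1, Or.inr rfl, fun h => h2 ?_, fun h => hα ?_⟩
    · linear_combination h - a2
    · linear_combination h - a2
  exact ⟨0, Or.inl rfl, by simpa using a1, by simpa using a2⟩

theorem pickB {F : Type} [Field F] {γ δ T : F} (v : F) (hγ : γ ≠ 0) (h1 : δ * T ≠ 0)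
    (h2 : 2 * δ * T ≠ γ) :
    ∃ w, (w = 0 ∨ w = T) ∧ γ * v + δ * w ≠ γ ∧ γ * v + δ * w ≠ δ * T := by
  by_cases a1 : γ * v = γ
  · refine ⟨T, Or.inr rfl, fun h => h1 ?_, fun h => hγ ?_⟩
    · linear_combination h - a1
    · linear_combination h - a1
  by_cases a2 : γ * v = δ * T
  · refine ⟨T, Or.inr rfl, fun h => h2 ?_, fun h => h1 ?_⟩
    · linear_combination h - a2
    · linear_combination h - a2
  exact ⟨0, Or.inl rfl, by simpa using a1, by simpa using a2⟩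

theorem gad_two {κ : Λ → Fin 4} {q : ℕ} (hq : q.Prime) (h5 : 5 ≤ q) {σ σ' : Λ} (hσ : σ ≠ σ')
    {j' a j b : Fin 4} (h1 : j' ≠ a) (h2 : j' ≠ j) (h3 : j' ≠ b) (h4 : a ≠ j)
    (h6 : j ≠ b) (k1 : κ σ = j) (k2 : κ σ' = j') :
    ∃ P, Gad κ q P ∧ ∀ x y, ¬ (P σ j' (L j' x y) ∧ P σ a (L a x y) ∧ P σ' j (L j x y) ∧
      P σ' b (L b x y)) := by
  have := Fact.mk hq
  have hΔ := D_ne h5 h2
  have hΔ' := D_ne h5 h2.symm
  have hα := D_ne h5 h4
  have hβ := D_ne h5 h1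
  have hγ := D_ne h5 h6.symm
  have hδ := D_ne h5 h3
  have h2' : (2 : ZMod q) ≠ 0 := by
    have : ((2 : ℕ) : ZMod q) ≠ 0 := by
      rw [Ne, ZMod.natCast_eq_zero_iff]
      exact Nat.not_dvd_of_pos_of_lt (by omega) (by omega)
    exact_mod_cast this
  have ea : ∀ x y : ℤ, ((D j' j : ℤ) : ZMod q) * (L a x y : ℤ) =
      (D a j : ℤ) * (L j' x y : ℤ) + (D j' a : ℤ) * (L j x y : ℤ) := fun x y => by
    exact_mod_cast congrArg (Int.cast : ℤ → ZMod q) (cramer j' j a x y)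
  have eb : ∀ x y : ℤ, ((D j' j : ℤ) : ZMod q) * (L b x y : ℤ) =
      (D b j : ℤ) * (L j' x y : ℤ) + (D j' b : ℤ) * (L j x y : ℤ) := fun x y => by
    exact_mod_cast congrArg (Int.cast : ℤ → ZMod q) (cramer j' j b x y)
  have eb' : ((D j' j : ℤ) : ZMod q) * (D b j' : ℤ) = (D j' b : ℤ) * (D j j' : ℤ) := by
    have : D j' j * D b j' = D j' b * D j j' := by unfold D; ring
    exact_mod_cast congrArg (Int.cast : ℤ → ZMod q) this
  obtain ⟨T, t1, t2, t3⟩ := three_avoid hq h5 0 (-(2 * (D a j : ℤ)) / (D j' a : ℤ))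
    ((D b j : ℤ) / (2 * (D j' b : ℤ)))
  have u1 : 2 * ((D a j : ℤ) : ZMod q) + (D j' a : ℤ) * T ≠ 0 := fun h => t2 (by
    field_simp
    linear_combination h)
  have u2 : 2 * ((D j' b : ℤ) : ZMod q) * T ≠ (D b j : ℤ) := fun h => t3 (by
    field_simp
    linear_combination h)
  refine ⟨_, gad_field (κ := κ) (fun τ k (z : ZMod q) =>
    (τ = σ → k = j' → z = 0 ∨ z = 1) ∧
    (τ = σ → k = a → (D j' j : ℤ) * z ≠ 0 ∧ (D j' j : ℤ) * z ≠ (D a j : ℤ) + (D j' a : ℤ) * T) ∧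
    (τ = σ' → k = j → z = 0 ∨ z = T) ∧
    (τ = σ' → k = b → (D j' j : ℤ) * z ≠ (D b j : ℤ) ∧ (D j' j : ℤ) * z ≠ (D j' b : ℤ) * T))
    fun τ x y => ?_, fun x y => ?_⟩
  · by_cases e1 : τ = σ
    · subst e1
      obtain ⟨u, v1, v2⟩ := pickA ((L j x y : ℤ) : ZMod q) hα (mul_ne_zero hβ t1) u1
      obtain ⟨s, hs⟩ : ∃ s : ZMod q, (L j' x y : ℤ) + s * (D j' j : ℤ) = u :=
        ⟨(u - (L j' x y : ℤ)) / (D j' j : ℤ), by field_simp; ring⟩
      refine ⟨s, fun i _ => ⟨fun _ hi => ?_, fun _ hi => ?_, fun h => absurd h hσ,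
        fun h => absurd h hσ⟩⟩
      · rw [hi, k1, hs]; exact v1
      · have : ((D j' j : ℤ) : ZMod q) * ((L a x y : ℤ) + s * (D a j : ℤ)) =
            (D a j : ℤ) * u + (D j' a : ℤ) * (L j x y : ℤ) := by
          linear_combination ea x y + (D a j : ℤ) * hs
        rw [hi, k1, this]; exact v2
    by_cases e2 : τ = σ'
    · subst e2
      obtain ⟨w, v1, v2⟩ := pickB ((L j' x y : ℤ) : ZMod q) hγ (mul_ne_zero hδ t1) u2
      obtain ⟨s, hs⟩ : ∃ s : ZMod q, (L j x y : ℤ) + s * (D j j' : ℤ) = w :=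
        ⟨(w - (L j x y : ℤ)) / (D j j' : ℤ), by field_simp; ring⟩
      refine ⟨s, fun i _ => ⟨fun h => absurd h e1, fun h => absurd h e1, fun _ hi => ?_,
        fun _ hi => ?_⟩⟩
      · rw [hi, k2, hs]; exact v1
      · have : ((D j' j : ℤ) : ZMod q) * ((L b x y : ℤ) + s * (D b j' : ℤ)) =
            (D b j : ℤ) * (L j' x y : ℤ) + (D j' b : ℤ) * w := by
          linear_combination eb x y + s * eb' + (D j' b : ℤ) * hs
        rw [hi, k2, this]; exact v2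
    exact ⟨0, fun i _ => ⟨fun h => absurd h e1, fun h => absurd h e1, fun h => absurd h e2,
      fun h => absurd h e2⟩⟩
  · rintro ⟨p1, p2, p3, p4⟩
    have q1 := p1.1 rfl rfl
    have q2 := p2.2.1 rfl rfl
    have q3 := p3.2.2.1 rfl rfl
    have q4 := p4.2.2.2 rfl rfl
    rw [ea] at q2
    rw [eb] at q4
    rcases q1 with q1 | q1 <;> rcases q3 with q3 | q3 <;> rw [q1, q3] at q2 q4
    · exact q2.1 (by ring)
    · exact q4.2 (by ring)
    · exact q4.1 (by ring)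
    · exact q2.2 (by ring)

theorem split2 {κ : Λ → Fin 4} {π : Fin 4 → Λ} (h : ∀ i, κ (π i) ≠ i) (p q r t : Fin 4)
    (hall : ∀ k, k = p ∨ k = q ∨ k = r ∨ k = t) (d : p ≠ q ∧ p ≠ r ∧ p ≠ t ∧ q ≠ r ∧ q ≠ t ∧ r ≠ t)
    (e1 : π p = π q) (e2 : π r = π t) (e3 : π p ≠ π r) :
    ∃ j' a j b : Fin 4, j' ≠ a ∧ j' ≠ j ∧ j' ≠ b ∧ a ≠ j ∧ j ≠ b ∧ π a = π j' ∧ π b = π j ∧
      π j' ≠ π j ∧ κ (π j') = j ∧ κ (π j) = j' := by
  obtain ⟨d1, d2, d3, d4, d5, d6⟩ := d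
  have a1 := h p
  have a2 := h q
  have a3 := h r
  have a4 := h t
  rw [← e1] at a2
  rw [← e2] at a4
  rcases hall (κ (π p)) with b | b | b | b
  · exact absurd b a1
  · exact absurd b a2
  · rcases hall (κ (π r)) with c | c | c | c
    · exact ⟨p, q, r, t, d1, d2, d3, d4, d6, e1.symm, e2.symm, e3, b, c⟩
    · exact ⟨q, p, r, t, d1.symm, d4, d5, d2, d6, e1, e2.symm, e1 ▸ e3, e1 ▸ b, c⟩
    · exact absurd c a3
    · exact absurd c a4
  · rcases hall (κ (π r)) with c | c | c | c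
    · exact ⟨p, q, t, r, d1, d3, d2, d5, d6.symm, e1.symm, e2, e2 ▸ e3, b, e2 ▸ c⟩
    · exact ⟨q, p, t, r, d1.symm, d5, d4, d3, d6.symm, e1, e2, e1 ▸ e2 ▸ e3, e1 ▸ b, e2 ▸ c⟩
    · exact absurd c a3
    · exact absurd c a4

theorem split4 {κ : Λ → Fin 4} {π : Fin 4 → Λ} (h : ∀ i, κ (π i) ≠ i) :
    (∃ j σ, ∀ i, i ≠ j → π i = σ) ∨
    (∃ i1 i2 i3, π i1 ≠ π i2 ∧ π i1 ≠ π i3 ∧ π i2 ≠ π i3) ∨
    ∃ j' a j b : Fin 4, j' ≠ a ∧ j' ≠ j ∧ j' ≠ b ∧ a ≠ j ∧ j ≠ b ∧ π a = π j' ∧ π b = π j ∧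
      π j' ≠ π j ∧ κ (π j') = j ∧ κ (π j) = j' := by
  by_cases h01 : π 0 = π 1
  · by_cases h02 : π 0 = π 2
    · exact Or.inl ⟨3, π 0, fun i hi => by fin_cases i <;> simp_all⟩
    by_cases h03 : π 0 = π 3
    · exact Or.inl ⟨2, π 0, fun i hi => by fin_cases i <;> simp_all⟩
    by_cases h23 : π 2 = π 3
    · exact Or.inr (Or.inr (split2 h 0 1 2 3 (by decide) (by decide) h01 h23 h02))
    · exact Or.inr (Or.inl ⟨0, 2, 3, h02, h03, h23⟩)
  by_cases h02 : π 0 = π 2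
  · by_cases h03 : π 0 = π 3
    · exact Or.inl ⟨1, π 0, fun i hi => by fin_cases i <;> simp_all⟩
    by_cases h13 : π 1 = π 3
    · exact Or.inr (Or.inr (split2 h 0 2 1 3 (by decide) (by decide) h02 h13 h01))
    · exact Or.inr (Or.inl ⟨0, 1, 3, h01, h03, h13⟩)
  by_cases h12 : π 1 = π 2
  · by_cases h03 : π 0 = π 3
    · exact Or.inr (Or.inr (split2 h 0 3 1 2 (by decide) (by decide) h03 h12 h01))
    by_cases h13 : π 1 = π 3
    · exact Or.inl ⟨0, π 1, fun i hi => by fin_cases i <;> simp_all⟩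
    · exact Or.inr (Or.inl ⟨0, 1, 3, h01, h03, h13⟩)
  · exact Or.inr (Or.inl ⟨0, 1, 2, h01, h02, h12⟩)

theorem tiny [Fintype Λ] (κ : Λ → Fin 4) : ∃ Q, 1 ≤ Q ∧ ∃ P, Gad κ Q P ∧
    (∀ σ σ' i v, σ ≠ σ' → P σ i v → ¬ P σ' i v) ∧
    ∀ (π : Fin 4 → Λ) x y, (∀ i, κ (π i) ≠ i) → (∀ i, P (π i) i (L i x y)) →
      ∃ j σ, ∀ i, i ≠ j → π i = σ := by
  classical
  obtain ⟨Q, hQ, P, hP, h⟩ := gad_all (κ := κ) (univ : Finset ((Λ × Λ × Fin 4) ⊕ (Fin 4 → Λ)))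
    (Sum.elim (fun r P => ∀ v, r.1 ≠ r.2.1 → P r.1 r.2.2 v → ¬ P r.2.1 r.2.2 v)
      (fun π P => ∀ x y, (∀ i, κ (π i) ≠ i) → (∀ i, P (π i) i (L i x y)) →
        ∃ j σ, ∀ i, i ≠ j → π i = σ)) (by
      rintro (r | π) P P' hP h
      · exact fun v h1 h2 h3 => h v h1 (hP _ _ _ h2) (hP _ _ _ h3)
      · exact fun x y h1 h2 => h x y h1 fun i => hP _ _ _ (h2 i)) (by
      rintro (⟨σ, σ', i⟩ | π) q hq h5
      · have := Fact.mk hq
        refine ⟨_, gad_single hq h5 (fun _ k => k = i) (fun _ _ _ a b => a.trans b.symm)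
          (fun τ _ => if τ = σ then 0 else 1), fun v h1 h2 h3 => ?_⟩
        have a := h2 rfl
        have b := h3 rfl
        simp only [if_true] at a
        simp only [if_neg (Ne.symm h1)] at b
        exact zero_ne_one (a.symm.trans b)
      · have := Fact.mk hq
        by_cases hκ : ∀ i, κ (π i) ≠ i
        swap
        · exact ⟨fun _ _ _ => True, ⟨fun _ _ _ _ _ _ => trivial,
            fun _ _ _ => ⟨0, fun _ _ => trivial⟩⟩, fun x y h => absurd h hκ⟩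
        rcases split4 hκ with h | ⟨i1, i2, i3, a1, a2, a3⟩ |
          ⟨j', a, j, b, a1, a2, a3, a4, a5, a6, a7, a8, a9, a10⟩
        · exact ⟨fun _ _ _ => True, ⟨fun _ _ _ _ _ _ => trivial,
            fun _ _ _ => ⟨0, fun _ _ => trivial⟩⟩, fun x y _ _ => h⟩
        · refine ⟨_, gad_single hq h5 (fun τ k => (k = i1 ∨ k = i2 ∨ k = i3) ∧ τ = π k) ?_
            (fun _ k => if k = i3 then 1 else 0), fun x y _ h => ?_⟩
          · rintro τ k k' ⟨b1, rfl⟩ ⟨b2, b3⟩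
            rcases b1 with rfl | rfl | rfl <;> rcases b2 with rfl | rfl | rfl <;>
              first | rfl | exact absurd b3 ‹_› | exact absurd b3.symm ‹_›
          · exfalso
            have n12 : i1 ≠ i2 := fun e => a1 (by rw [e])
            have n13 : i1 ≠ i3 := fun e => a2 (by rw [e])
            have n23 : i2 ≠ i3 := fun e => a3 (by rw [e])
            have b1 := h i1 ⟨Or.inl rfl, rfl⟩
            have b2 := h i2 ⟨Or.inr (Or.inl rfl), rfl⟩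
            have b3 := h i3 ⟨Or.inr (Or.inr rfl), rfl⟩
            simp only [if_neg n13, if_neg n23, if_true] at b1 b2 b3
            have c : ((D i1 i2 : ℤ) : ZMod q) * (L i3 x y : ℤ) =
                (D i3 i2 : ℤ) * (L i1 x y : ℤ) + (D i1 i3 : ℤ) * (L i2 x y : ℤ) := by
              exact_mod_cast congrArg (Int.cast : ℤ → ZMod q) (cramer i1 i2 i3 x y)
            rw [b1, b2, b3] at c
            exact D_ne h5 n12 (by linear_combination c)
        · obtain ⟨P, hP, h⟩ := gad_two hq h5 a8 a1 a2 a3 a4 a5 a9 a10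
          exact ⟨P, hP, fun x y _ h' => absurd ⟨h' j', a6 ▸ h' a, h' j, a7 ▸ h' b⟩ (h x y)⟩)
  exact ⟨Q, hQ, P, hP, fun σ σ' i => h (Sum.inl (σ, σ', i)) (mem_univ _),
    fun π => h (Sum.inr π) (mem_univ _)⟩

end Pool.Agent.P.MP_c18ee8_co.Ud
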