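import Pool.Agent.P.MP_c18ee8_co.Example

namespace Pool.Agent.P.MP_c18ee8_co.VariantLower

open Pool.Agent.P.MP_c18ee8_co

theorem result : ∃ C : ℝ, ∀ n : ℕ, 1 ≤ n →
    6 * (n : ℝ) - C * (n : ℝ) ^ ((9 : ℝ) / 16) ≤ upperIR (queensGraph n) :=
  lower_main

end Pool.Agent.P.MP_c18ee8_co.VariantLower
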