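import Pool.Agent.P.MP_c18ee8_co.Equiv

namespace Pool.Agent.P.MP_c18ee8_co.VariantSumDiff

open Pool.Agent.P.MP_c18ee8_co

theorem result (α : ℝ) (hα : 1 ≤ α) :
    (∀ (G : Finset (ℤ × ℤ)) (N : ℕ), (G.image fun p => p.1).card ≤ N →
      (G.image fun p => p.2).card ≤ N → (G.image fun p => p.1 + p.2).card ≤ N →
      ((G.image fun p => p.1 - p.2).card : ℝ) ≤ (N : ℝ) ^ α) ↔
    ∃ c : ℝ, 0 < c ∧ ∀ n : ℕ, 1 ≤ n →
      (upperIR (queensGraph n) : ℝ) ≤ 6 * n - c * (n : ℝ) ^ (1 / α) :=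
  equiv_main α hα

end Pool.Agent.P.MP_c18ee8_co.VariantSumDiff
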