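import Pool.Agent.P.MP_c18ee8_co.Upper

namespace Pool.Agent.P.MP_c18ee8_co.VariantUpper

open Pool.Agent.P.MP_c18ee8_co

theorem result : ∀ n : ℕ, 8200 ≤ n →
    (upperIR (queensGraph n) : ℝ) ≤ 6 * n - 10 * (n : ℝ) ^ ((6 : ℝ) / 11) :=
  upper_main

end Pool.Agent.P.MP_c18ee8_co.VariantUpper
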